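import Pool.Agent.Work.MP_9a1701_nt.T.TSetup

/-!
# Large values of the characteristic function lie near rationals
-/

set_option autoImplicit false
open Finset Filter

namespace Pool.Agent.Work.MP_9a1701_nt.P

lemma dz_nonneg (z : ℝ) : 0 ≤ dz z := abs_nonneg _

/-- `round_le`. -/
lemma dz_le (z : ℝ) (m : ℤ) : dz z ≤ |z - m| := by
  exact round_le z m

lemma dz_sub_le (y z : ℝ) : dz (y - z) ≤ dz y + dz z := by
  refine (dz_le _ (round y - round z)).trans ?_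
  have e : y - z - ((round y - round z : ℤ) : ℝ) = (y - round y) - (z - round z) := by
    push_cast
    ring
  rw [e]
  exact abs_sub _ _

lemma dz_int_mul_le (g : ℤ) (z : ℝ) : dz (g * z) ≤ |(g : ℝ)| * dz z := by
  refine (dz_le _ (g * round z)).trans (le_of_eq ?_)
  rw [dz, ← abs_mul]
  congr 1
  push_cast
  ring

lemma Bohr_int (z : ℝ) (m : ℤ) : dz (z - m) ≤ dz z := by
  refine (dz_le _ (round z - m)).trans (le_of_eq ?_)
  rw [dz]
  congr 1
  push_cast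
  ring

lemma Bohr_markov {W : Finset ℕ} {D0 t φ θ : ℝ} (ht : 0 ≤ t)
    (h : ∑ u ∈ W, dz (φ + θ * u) ^ 2 ≤ D0) :
    ((W.filter fun u : ℕ => ¬ dz (φ + θ * u) ≤ t).card : ℝ) * t ^ 2 ≤ D0 := by
  rw [← nsmul_eq_mul]
  refine (card_nsmul_le_sum _ (fun u : ℕ => dz (φ + θ * u) ^ 2) _ fun u hu => ?_).trans
    ((sum_le_sum_of_subset_of_nonneg (filter_subset _ _) fun _ _ _ => sq_nonneg _).trans h)
  exact pow_le_pow_left₀ ht (not_le.1 (mem_filter.1 hu).2).le 2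

lemma Bohr_diff {φ θ t : ℝ} {u v : ℕ} (hu : dz (φ + θ * u) ≤ t) (hv : dz (φ + θ * v) ≤ t) :
    dz (θ * ((u : ℝ) - v)) ≤ 2 * t := by
  have := dz_sub_le (φ + θ * u) (φ + θ * v)
  rw [show φ + θ * u - (φ + θ * v) = θ * ((u : ℝ) - v) by ring] at this
  linarith

lemma Bohr_span {S : Finset ℕ} {d : ℝ} (h : ∀ u ∈ S, ∀ v ∈ S, (u : ℝ) - v ≤ d) :
    S.card ≤ ⌊d⌋₊ + 1 := by
  rcases S.eq_empty_or_nonempty with rfl | hne
  · simp
  have hs : S ⊆ Icc (S.min' hne) (S.min' hne + ⌊d⌋₊) := fun u hu => by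
    have a := S.min'_le u hu
    have b := h u hu _ (S.min'_mem hne)
    rw [← Nat.cast_sub a] at b
    have c := Nat.le_floor b
    exact mem_Icc.2 ⟨a, by omega⟩
  have := card_le_card hs
  rw [Nat.card_Icc] at this
  omega

lemma Bohr_gap {V : Finset ℕ} {y0 Z Q : ℕ} (hV : V ⊆ Ico y0 (y0 + Z))
    (h : Z / (Q + 1) + 1 < V.card) : ∃ u ∈ V, ∃ v ∈ V, u < v ∧ v ≤ u + Q := by
  obtain ⟨u, hu, v, hv, hne, e⟩ := exists_ne_map_eq_of_card_lt_of_maps_to (s := V)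
    (t := range (Z / (Q + 1) + 1)) (f := fun v => (v - y0) / (Q + 1)) (by rwa [card_range])
    fun v hv => by
      have := mem_Ico.1 (hV hv)
      exact mem_coe.2 (mem_range.2 (Nat.lt_succ_of_le (Nat.div_le_div_right (by omega))))
  have a := mem_Ico.1 (hV hu)
  have b := mem_Ico.1 (hV hv)
  have c1 := Nat.div_add_mod (u - y0) (Q + 1)
  have c2 := Nat.div_add_mod (v - y0) (Q + 1)
  have c3 : (u - y0) % (Q + 1) < Q + 1 := Nat.mod_lt _ (Nat.succ_pos Q)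
  have c4 : (v - y0) % (Q + 1) < Q + 1 := Nat.mod_lt _ (Nat.succ_pos Q)
  rw [e] at c1
  generalize (Q + 1) * ((v - y0) / (Q + 1)) = x at c1 c2
  generalize (u - y0) % (Q + 1) = x1 at c1 c3
  generalize (v - y0) % (Q + 1) = x2 at c2 c4
  rcases lt_or_gt_of_ne hne with k | k
  · exact ⟨u, hu, v, hv, k, by omega⟩
  · exact ⟨v, hv, u, hu, k, by omega⟩

/-- Markov: at least three quarters of `W` have `dz ≤ τ`. -/
lemma good_part {W : Finset ℕ} {D0 τ φ θ : ℝ} (hτ : 0 < τ) (hD : 4 * D0 ≤ τ ^ 2 * W.card)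
    (h : ∑ u ∈ W, dz (φ + θ * u) ^ 2 ≤ D0) :
    3 * W.card ≤ 4 * (W.filter fun u : ℕ => dz (φ + θ * u) ≤ τ).card := by
  have a := Bohr_markov hτ.le h
  have b := card_filter_add_card_filter_not (s := W) fun u : ℕ => dz (φ + θ * u) ≤ τ
  have c : 4 * ((W.filter fun u : ℕ => ¬ dz (φ + θ * u) ≤ τ).card : ℝ) ≤ W.card :=
    le_of_mul_le_mul_right (by linarith) (pow_pos hτ 2)
  have d : 4 * (W.filter fun u : ℕ => ¬ dz (φ + θ * u) ≤ τ).card ≤ W.card := by exact_mod_cast c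
  omega

theorem loc {W : Finset ℕ} {D0 τ φ φ' θ : ℝ} (hN : 1 ≤ W.card) (hτ : 0 < τ)
    (hD : 4 * D0 ≤ τ ^ 2 * W.card) (h : ∑ u ∈ W, dz (φ + θ * u) ^ 2 ≤ D0)
    (h' : ∑ u ∈ W, dz (φ' + θ * u) ^ 2 ≤ D0) : dz (φ - φ') ≤ 2 * τ := by
  have a := good_part hτ hD h
  have b := good_part hτ hD h'
  have c := card_union_add_card_inter (W.filter fun u : ℕ => dz (φ + θ * u) ≤ τ)
    (W.filter fun u : ℕ => dz (φ' + θ * u) ≤ τ)
  have d := card_le_card (union_subset (filter_subset (fun u : ℕ => dz (φ + θ * u) ≤ τ) W)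
    (filter_subset (fun u : ℕ => dz (φ' + θ * u) ≤ τ) W))
  obtain ⟨u, hu⟩ := card_pos.1 (show 0 < ((W.filter fun u : ℕ => dz (φ + θ * u) ≤ τ) ∩
    (W.filter fun u : ℕ => dz (φ' + θ * u) ≤ τ)).card by omega)
  have e1 := (mem_filter.1 (mem_inter.1 hu).1).2
  have e2 := (mem_filter.1 (mem_inter.1 hu).2).2
  have := dz_sub_le (φ + θ * u) (φ' + θ * u)
  rw [show φ + θ * u - (φ' + θ * u) = φ - φ' by ring] at this
  linarith

/-- The fibres of `v ↦ round (b (v - v0))` have at most `2 t / |b| + 1` points and there are at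
most `2 |b| Z + 2` of them (`t ≤ 1 / 2`). -/
lemma fibres {V : Finset ℕ} {y0 Z v0 : ℕ} (hV : V ⊆ Ico y0 (y0 + Z)) (h0 : v0 ∈ V) {b t : ℝ}
    (hb : b ≠ 0) (ht : 0 ≤ t) (ht1 : t ≤ 1 / 2) (h : ∀ v ∈ V, dz (b * ((v : ℝ) - v0)) ≤ t) :
    (V.card : ℝ) ≤ (2 * |b| * Z + 2) * (2 * t / |b| + 1) := by
  have b0 : 0 < |b| := abs_pos.2 hb
  have x0 : 0 ≤ |b| * Z + 1 / 2 := by positivity
  have key := card_le_mul_card_image_of_maps_to (s := V)
    (t := Icc (-(⌊|b| * Z + 1 / 2⌋₊ : ℤ)) ⌊|b| * Z + 1 / 2⌋₊)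
    (f := fun v : ℕ => round (b * ((v : ℝ) - v0))) (fun v hv => ?_) (⌊2 * t / |b|⌋₊ + 1)
    fun j _ => Bohr_span fun u hu v hv => ?_
  · rw [Int.card_Icc] at key
    have e : ((⌊|b| * Z + 1 / 2⌋₊ : ℤ) + 1 - -(⌊|b| * Z + 1 / 2⌋₊ : ℤ)).toNat =
      2 * ⌊|b| * Z + 1 / 2⌋₊ + 1 := by omega
    rw [e] at key
    have k := (Nat.cast_le (α := ℝ)).2 key
    push_cast at k
    have f1 := Nat.floor_le x0
    have f2 := Nat.floor_le (show 0 ≤ 2 * t / |b| by positivity)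
    refine k.trans ?_
    rw [mul_comm]
    exact mul_le_mul (by linarith) (by linarith) (by positivity) (by positivity)
  · have a1 := mem_Ico.1 (hV hv)
    have a2 := mem_Ico.1 (hV h0)
    have a3 : |(v : ℝ) - v0| ≤ Z := by
      have c1 : (v : ℝ) ≤ v0 + Z := by exact_mod_cast (by omega : v ≤ v0 + Z)
      have c2 : (v0 : ℝ) ≤ v + Z := by exact_mod_cast (by omega : v0 ≤ v + Z)
      exact abs_le.2 ⟨by linarith, by linarith⟩
    have a4 : |b * ((v : ℝ) - v0)| ≤ |b| * Z := by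
      rw [abs_mul]
      exact mul_le_mul_of_nonneg_left a3 b0.le
    have a5 := abs_le.1 ((h v hv).trans ht1)
    have a6 := abs_le.1 a4
    have a7 : (((round (b * ((v : ℝ) - v0))).natAbs : ℕ) : ℝ) ≤ |b| * Z + 1 / 2 := by
      rw [Nat.cast_natAbs, Int.cast_abs]
      exact abs_le.2 ⟨by linarith, by linarith⟩
    have a8 := Nat.le_floor a7
    exact mem_Icc.2 (by omega)
  · obtain ⟨u1, u2⟩ := mem_filter.1 hu
    obtain ⟨v1, v2⟩ := mem_filter.1 hv
    have a1 := h u u1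
    have a2 := h v v1
    rw [dz, u2] at a1
    rw [dz, v2] at a2
    have a3 : |b * ((u : ℝ) - v)| ≤ 2 * t := by
      have c1 := abs_le.1 a1
      have c2 := abs_le.1 a2
      exact abs_le.2 ⟨by linarith, by linarith⟩
    rw [abs_mul] at a3
    rw [le_div_iff₀ b0]
    have := mul_le_mul_of_nonneg_left (le_abs_self ((u : ℝ) - v)) b0.le
    linarith

/-- (C2) of the paper. -/
theorem bohr {W : Finset ℕ} {y0 Z Qm E0 : ℕ} {D0 τ φ θ : ℝ} (hW : W ⊆ Ico y0 (y0 + Z))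
    (hN : 8 ≤ W.card) (hZ : 2 * Z ≤ Qm * W.card) (hτ : 0 < τ) (hD : 4 * D0 ≤ τ ^ 2 * W.card)
    (hQ : τ * (Qm : ℝ) ^ 3 ≤ 1 / 32) (hE : 64 * (Qm : ℝ) ^ 2 * D0 ≤ E0)
    (h : ∑ u ∈ W, dz (φ + θ * u) ^ 2 ≤ D0) :
    ∃ (q' r' : ℕ) (a : ℤ), 1 ≤ q' ∧ q' ≤ Qm ∧ exc W q' r' ≤ E0 ∧
      |θ - a / q'| ≤ 32 * τ * Qm / W.card := by
  have nZ : W.card ≤ Z := by simpa using card_le_card hW
  have q2 : 2 ≤ Qm := by
    by_contra k
    have : Qm * W.card ≤ 1 * W.card := Nat.mul_le_mul_right _ (by omega)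
    omega
  have Q2 : (2 : ℝ) ≤ Qm := by exact_mod_cast q2
  have N8 : (8 : ℝ) ≤ W.card := by exact_mod_cast hN
  have ZN : 2 * (Z : ℝ) ≤ Qm * W.card := by exact_mod_cast hZ
  have t2 : τ * (Qm : ℝ) ^ 2 ≤ 1 / 32 :=
    (mul_le_mul_of_nonneg_left (pow_le_pow_right₀ (by linarith) (by norm_num)) hτ.le).trans hQ
  have t1 : τ * (Qm : ℝ) ≤ 1 / 32 := by
    have : τ * (Qm : ℝ) * 1 ≤ τ * Qm * Qm :=
      mul_le_mul_of_nonneg_left (by linarith) (by positivity)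
    linarith
  have g3 := good_part hτ hD h
  have hV : (W.filter fun u : ℕ => dz (φ + θ * u) ≤ τ) ⊆ Ico y0 (y0 + Z) :=
    (filter_subset _ _).trans hW
  have g4 : 2 * (Z / (Qm + 1)) ≤ W.card := by
    have c1 := Nat.div_mul_le_self Z (Qm + 1)
    refine Nat.le_of_mul_le_mul_right (c := Qm + 1) ?_ (Nat.succ_pos _)
    nlinarith
  obtain ⟨u, hu, v, hv, uv, vu⟩ := Bohr_gap (Q := Qm) hV (by omega)
  obtain ⟨g, rfl⟩ := Nat.exists_eq_add_of_le uv.le
  have g1 : 1 ≤ g := by omega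
  have gQ : g ≤ Qm := by omega
  have G1 : (1 : ℝ) ≤ g := by exact_mod_cast g1
  have GQ : (g : ℝ) ≤ Qm := by exact_mod_cast gQ
  have hb : |θ * g - round (θ * g)| ≤ 2 * τ := by
    have := Bohr_diff (mem_filter.1 hv).2 (mem_filter.1 hu).2
    rwa [Nat.cast_add, add_sub_cancel_left] at this
  generalize round (θ * g) = a at hb
  obtain ⟨b, hbe⟩ : ∃ b, b = θ * g - a := ⟨_, rfl⟩
  rw [← hbe] at hb
  have hb2 : |b| * W.card ≤ 32 * τ * Qm := by
    by_contra k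
    rw [not_le] at k
    have b0 : 0 < |b| := by
      by_contra l
      have : |b| * W.card ≤ 0 := mul_nonpos_of_nonpos_of_nonneg (not_lt.1 l) (by positivity)
      have : 0 ≤ 32 * τ * Qm := by positivity
      linarith
    have f := fibres hV hu (b := b) (t := 2 * τ * Qm) (abs_pos.1 b0) (by positivity) (by linarith)
      fun w hw => by
        have c1 := Bohr_diff (mem_filter.1 hw).2 (mem_filter.1 hu).2
        have c2 := dz_int_mul_le g (θ * ((w : ℝ) - u))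
        have c3 := Bohr_int ((g : ℤ) * (θ * ((w : ℝ) - u))) (a * (w - u))
        rw [Int.cast_natCast, abs_of_nonneg (by linarith)] at c2
        have c4 : b * ((w : ℝ) - u) =
            ((g : ℤ) : ℝ) * (θ * ((w : ℝ) - u)) - ((a * (w - u) : ℤ) : ℝ) := by
          rw [hbe]
          push_cast
          ring
        rw [c4]
        refine c3.trans ?_
        rw [Int.cast_natCast]
        refine c2.trans ((mul_le_mul GQ c1 (dz_nonneg _) (by linarith)).trans (le_of_eq ?_))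
        ring
    have e : (2 * |b| * Z + 2) * (2 * (2 * τ * Qm) / |b| + 1) =
        4 * (τ * Qm) * (2 * Z) + |b| * (2 * Z) + 8 * τ * Qm / |b| + 2 := by
      field_simp
      ring
    have c1 : 8 * τ * Qm / |b| ≤ W.card / 4 := by
      rw [div_le_iff₀ b0]
      linarith
    have c2 := mul_le_mul_of_nonneg_left ZN (show 0 ≤ 4 * (τ * Qm) by positivity)
    have c3 := mul_le_mul hb ZN (by positivity) (by positivity)
    have c4 := mul_le_mul_of_nonneg_right t2 (show (0 : ℝ) ≤ W.card by positivity)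
    have c5 := mul_le_mul_of_nonneg_right t1 (show (0 : ℝ) ≤ W.card by positivity)
    have c6 := (Nat.cast_le (α := ℝ)).2 g3
    push_cast at c6
    rw [e] at f
    linarith
  have hb3 : |b| * Z ≤ 1 / 2 := by
    have c1 := mul_le_mul_of_nonneg_left ZN (abs_nonneg b)
    have c2 := mul_le_mul_of_nonneg_left hb2 (show (0 : ℝ) ≤ Qm by positivity)
    linarith
  have dv : ∀ w w' : ℕ, w ∈ W → w' ∈ W → dz (φ + θ * w) ≤ 1 / (8 * Qm) →
      dz (φ + θ * w') ≤ 1 / (8 * Qm) → (g : ℤ) ∣ a * (w - w') := fun w w' k1 k2 l1 l2 => by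
    have c1 := Bohr_diff l1 l2
    rw [dz] at c1
    generalize round (θ * ((w : ℝ) - w')) = m at c1
    have a1 := mem_Ico.1 (hW k1)
    have a2 := mem_Ico.1 (hW k2)
    have a3 : |(w : ℝ) - w'| ≤ Z := by
      have c1 : (w : ℝ) ≤ w' + Z := by exact_mod_cast (by omega : w ≤ w' + Z)
      have c2 : (w' : ℝ) ≤ w + Z := by exact_mod_cast (by omega : w' ≤ w + Z)
      exact abs_le.2 ⟨by linarith, by linarith⟩
    have a4 : |b * ((w : ℝ) - w')| ≤ 1 / 2 := by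
      rw [abs_mul]
      exact (mul_le_mul_of_nonneg_left a3 (abs_nonneg b)).trans hb3
    have a5 : |(g : ℝ) * (θ * ((w : ℝ) - w') - m)| ≤ 1 / 4 := by
      rw [abs_mul, abs_of_nonneg (by linarith : (0 : ℝ) ≤ g)]
      refine (mul_le_mul GQ c1 (abs_nonneg _) (by linarith)).trans (le_of_eq ?_)
      field_simp
      norm_num
    have a6 : ((a * (w - w') - g * m : ℤ) : ℝ) =
        (g : ℝ) * (θ * ((w : ℝ) - w') - m) - b * ((w : ℝ) - w') := by
      rw [hbe]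
      push_cast
      ring
    have a7 : |((a * (w - w') - g * m : ℤ) : ℝ)| < 1 := by
      rw [a6]
      exact (abs_sub _ _).trans_lt (by linarith)
    rw [← Int.cast_abs, ← Int.cast_one, Int.cast_lt, Int.abs_lt_one_iff] at a7
    exact ⟨m, by linarith⟩
  have d0 : 0 < Int.gcd a g := Int.gcd_pos_of_ne_zero_right _ (by omega)
  obtain ⟨a', g', co, ea, eg⟩ := Int.exists_gcd_one d0
  generalize Int.gcd a g = d at d0 ea eg
  have D0' : (0 : ℤ) < d := by exact_mod_cast d0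
  have p1 : 0 < g' := by
    by_contra k
    have : g' * d ≤ 0 := mul_nonpos_of_nonpos_of_nonneg (not_lt.1 k) D0'.le
    omega
  obtain ⟨q', rfl⟩ := Int.eq_ofNat_of_zero_le p1.le
  have p2 : q' ≤ g := by
    have : (q' : ℤ) * 1 ≤ q' * d := mul_le_mul_of_nonneg_left (by omega) p1.le
    omega
  obtain ⟨r', hr⟩ : ∃ r' : ℕ, ∀ w ∈ W, dz (φ + θ * w) ≤ 1 / (8 * Qm) → w ≡ r' [MOD q'] := by
    by_cases k : ∃ w' ∈ W, dz (φ + θ * w') ≤ 1 / (8 * Qm)
    · obtain ⟨w', k1, k2⟩ := k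
      refine ⟨w', fun w l1 l2 => Nat.modEq_iff_dvd.2 ?_⟩
      have c1 := dv w' w k1 l1 k2 l2
      rw [ea, eg, mul_right_comm] at c1
      exact (Int.isCoprime_iff_gcd_eq_one.2 co).symm.dvd_of_dvd_mul_left
        (Int.dvd_of_mul_dvd_mul_right D0'.ne' c1)
    · exact ⟨0, fun w l1 l2 => absurd ⟨w, l1, l2⟩ k⟩
  refine ⟨q', r', a', by omega, p2.trans gQ, ?_, ?_⟩
  · have c1 := Bohr_markov (t := 1 / (8 * Qm)) (by positivity) h
    have c2 : exc W q' r' ≤ (W.filter fun u : ℕ => ¬ dz (φ + θ * u) ≤ 1 / (8 * Qm)).card :=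
      card_le_card fun w hw => mem_filter.2
        ⟨(mem_filter.1 hw).1, fun k => (mem_filter.1 hw).2 (hr w (mem_filter.1 hw).1 k)⟩
    rw [div_pow, one_pow, mul_one_div, div_le_iff₀ (by positivity)] at c1
    refine c2.trans ((Nat.cast_le (α := ℝ)).1 ?_)
    linarith
  · have c0 : (0 : ℝ) < q' := by exact_mod_cast (by omega : 0 < q')
    have c1 : (0 : ℝ) < d := by exact_mod_cast d0
    have c2 : (a : ℝ) = a' * d := by exact_mod_cast ea
    have c3 : (g : ℝ) = q' * d := by exact_mod_cast eg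
    have c4 : θ - a' / q' = b / g := by
      rw [hbe, c2, c3]
      field_simp
    rw [c4, abs_div, abs_of_nonneg (by linarith : (0 : ℝ) ≤ g)]
    refine (div_le_self (abs_nonneg b) G1).trans ?_
    rw [le_div_iff₀ (by linarith)]
    exact hb2

end Pool.Agent.Work.MP_9a1701_nt.P
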