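import Pool.Agent.Work.MP_9a1701_nt.T.Bohr
import Pool.Agent.Work.MP_9a1701_nt.P.Ex1

/-!
# The characteristic function and Fourier inversion
-/

set_option autoImplicit false
open Finset Filter

namespace Pool.Agent.Work.MP_9a1701_nt.P

variable {ρ : ℕ → ℝ} {W : Finset ℕ}

lemma Chi_cos (ψ : ℝ) : Real.cos (2 * Real.pi * ψ) ≤ 1 - 8 * dz ψ ^ 2 := by
  have h1 : Real.cos (2 * Real.pi * ψ) = Real.cos (2 * Real.pi * (ψ - round ψ)) := by
    rw [← Real.cos_sub_int_mul_two_pi (2 * Real.pi * ψ) (round ψ)]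
    congr 1
    ring
  have hp := Real.pi_pos
  have h2 : |2 * Real.pi * (ψ - round ψ)| ≤ Real.pi := by
    rw [abs_mul, abs_of_pos (by positivity : 0 < 2 * Real.pi)]
    nlinarith [abs_sub_round ψ]
  rw [h1, dz, sq_abs]
  refine (Real.cos_le_one_sub_mul_cos_sq h2).trans (le_of_eq ?_)
  field_simp
  ring

lemma Chi_fac {r ε : ℝ} (hε0 : 0 ≤ ε) (hε : ε ≤ r * (1 - r)) (ψ : ℝ) :
    ‖((1 - r : ℝ) : ℂ) + (r : ℂ) * Complex.exp (((2 * Real.pi * ψ : ℝ) : ℂ) * Complex.I)‖ ≤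
      Real.exp (-(8 * ε * dz ψ ^ 2)) := by
  refine (pow_le_pow_iff_left₀ (norm_nonneg _) (Real.exp_pos _).le two_ne_zero).1 ?_
  rw [Complex.sq_norm, Complex.normSq_apply]
  simp only [Complex.add_re, Complex.add_im, Complex.re_ofReal_mul, Complex.im_ofReal_mul,
    Complex.ofReal_re, Complex.ofReal_im, Complex.exp_ofReal_mul_I_re, Complex.exp_ofReal_mul_I_im]
  have h1 := Chi_cos ψ
  have h2 := Real.sin_sq_add_cos_sq (2 * Real.pi * ψ)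
  have h3 : Real.exp (-(8 * ε * dz ψ ^ 2)) ^ 2 = Real.exp (-(16 * ε * dz ψ ^ 2)) := by
    rw [sq, ← Real.exp_add]
    congr 1
    ring
  have h4 := Real.add_one_le_exp (-(16 * ε * dz ψ ^ 2))
  have h5 : r * (1 - r) * (8 * dz ψ ^ 2) ≤ r * (1 - r) * (1 - Real.cos (2 * Real.pi * ψ)) :=
    mul_le_mul_of_nonneg_left (by linarith) (hε0.trans hε)
  have h6 : ε * (8 * dz ψ ^ 2) ≤ r * (1 - r) * (8 * dz ψ ^ 2) :=
    mul_le_mul_of_nonneg_right hε (by positivity)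
  rw [h3]
  have h7 : r ^ 2 * (Real.sin (2 * Real.pi * ψ) ^ 2 + Real.cos (2 * Real.pi * ψ) ^ 2) = r ^ 2 := by
    rw [h2, mul_one]
  nlinarith

/-- `‖1 - ρ + ρ e(ψ)‖ ^ 2 = 1 - 4 ρ (1 - ρ) sin (π ψ) ^ 2 ≤ 1 - 16 ε dz ψ ^ 2`
(`Real.mul_le_sin` or `Real.mul_abs_le_abs_sin`). -/
lemma norm_chi_le (hρ : Prob ρ) {ε : ℝ} (hε0 : 0 ≤ ε) (hε : ∀ u ∈ W, ε ≤ ρ u * (1 - ρ u))
    (φ θ : ℝ) : ‖chi ρ W φ θ‖ ≤ Real.exp (-(8 * ε * ∑ u ∈ W, dz (φ + θ * u) ^ 2)) := by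
  have _ := hρ
  rw [chi, norm_prod, mul_sum, ← sum_neg_distrib, Real.exp_sum]
  exact prod_le_prod (fun u _ => norm_nonneg _) fun u hu => Chi_fac hε0 (hε u hu) _

lemma continuous_chi (ρ : ℕ → ℝ) (W : Finset ℕ) :
    Continuous fun z : ℝ × ℝ => chi ρ W z.1 z.2 := by
  unfold chi
  fun_prop

lemma Chi_int (m : ℤ) :
    ∫ t in (0 : ℝ)..1, Complex.exp (2 * Real.pi * Complex.I * m * t) = ((ind (m = 0) : ℝ) : ℂ) := by
  by_cases h : m = 0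
  · simp [h, ind_pos]
  · have hc : (2 * Real.pi * Complex.I * m : ℂ) ≠ 0 :=
      mul_ne_zero Complex.two_pi_I_ne_zero (by exact_mod_cast h)
    rw [integral_exp_mul_complex hc, ind_neg h]
    have : (2 * Real.pi * Complex.I * m * ((1 : ℝ) : ℂ) : ℂ) = m * (2 * Real.pi * Complex.I) := by
      push_cast
      ring
    rw [this, Complex.exp_int_mul_two_pi_mul_I]
    simp

lemma Chi_expand (ρ : ℕ → ℝ) (W : Finset ℕ) (k σ : ℤ) (φ θ : ℝ) :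
    chi ρ W φ θ * Complex.exp (((-(2 * Real.pi * (k * φ + σ * θ)) : ℝ) : ℂ) * Complex.I) =
      ∑ Q ∈ W.powerset, (((∏ t ∈ Q, ρ t) * ∏ t ∈ W \ Q, (1 - ρ t) : ℝ) : ℂ) *
        Complex.exp (2 * Real.pi * Complex.I * ((((∑ u ∈ Q, u : ℕ) : ℤ) - σ : ℤ) : ℂ) * θ) *
        Complex.exp (2 * Real.pi * Complex.I * (((Q.card : ℤ) - k : ℤ) : ℂ) * φ) := by
  rw [chi]
  simp only [add_comm (((1 - ρ _ : ℝ) : ℂ))]
  rw [prod_add, sum_mul]
  refine sum_congr rfl fun Q _ => ?_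
  rw [prod_mul_distrib, ← Complex.exp_sum, mul_assoc _ (Complex.exp _) (Complex.exp _),
    ← Complex.exp_add, mul_right_comm _ (Complex.exp _), mul_assoc _ (Complex.exp _),
    ← Complex.exp_add]
  congr 1
  · push_cast
    rfl
  · congr 1
    push_cast
    rw [← sum_mul, ← mul_sum, sum_add_distrib, sum_const, ← mul_sum, nsmul_eq_mul]
    ring

/-- Expand the product (`Finset.prod_add` or induction) and use
`∫ t in 0..1, exp (2 π i m t) = if m = 0 then 1 else 0`. -/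
theorem PW_eq (ρ : ℕ → ℝ) (W : Finset ℕ) (k σ : ℤ) :
    ((PW ρ W k σ : ℝ) : ℂ) = ∫ θ in (0 : ℝ)..1, ∫ φ in (0 : ℝ)..1, chi ρ W φ θ *
      Complex.exp (((-(2 * Real.pi * (k * φ + σ * θ)) : ℝ) : ℂ) * Complex.I) := by
  simp only [Chi_expand]
  have h1 : ∀ θ : ℝ, (∫ φ in (0 : ℝ)..1, ∑ Q ∈ W.powerset,
      (((∏ t ∈ Q, ρ t) * ∏ t ∈ W \ Q, (1 - ρ t) : ℝ) : ℂ) *
        Complex.exp (2 * Real.pi * Complex.I * ((((∑ u ∈ Q, u : ℕ) : ℤ) - σ : ℤ) : ℂ) * θ) *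
        Complex.exp (2 * Real.pi * Complex.I * (((Q.card : ℤ) - k : ℤ) : ℂ) * φ)) =
      ∑ Q ∈ W.powerset, (((∏ t ∈ Q, ρ t) * ∏ t ∈ W \ Q, (1 - ρ t) : ℝ) : ℂ) *
        ((ind ((Q.card : ℤ) - k = 0) : ℝ) : ℂ) *
        Complex.exp (2 * Real.pi * Complex.I * ((((∑ u ∈ Q, u : ℕ) : ℤ) - σ : ℤ) : ℂ) * θ) := by
    intro θ
    rw [intervalIntegral.integral_finsetSum fun Q _ => Continuous.intervalIntegrable (by fun_prop) _ _]
    refine sum_congr rfl fun Q _ => ?_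
    rw [intervalIntegral.integral_const_mul, Chi_int]
    ring
  simp only [h1]
  rw [intervalIntegral.integral_finsetSum fun Q _ => Continuous.intervalIntegrable (by fun_prop) _ _,
    PW, Ex, Complex.ofReal_sum]
  refine sum_congr rfl fun Q _ => ?_
  rw [intervalIntegral.integral_const_mul, Chi_int, mul_assoc _ (((ind _ : ℝ) : ℂ)),
    ← Complex.ofReal_mul, ← Complex.ofReal_mul]
  congr 2
  by_cases a : (Q.card : ℤ) = k
  · by_cases b : ((∑ u ∈ Q, u : ℕ) : ℤ) = σ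
    · rw [ind_pos ⟨a, b⟩, ind_pos (sub_eq_zero.2 a), ind_pos (sub_eq_zero.2 b), mul_one]
    · rw [ind_neg fun h => b h.2, ind_neg fun h => b (sub_eq_zero.1 h), mul_zero]
  · rw [ind_neg fun h => a h.1, ind_neg fun h => a (sub_eq_zero.1 h), zero_mul]

end Pool.Agent.Work.MP_9a1701_nt.P
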