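import Pool.Agent.Work.MP_9a1701_nt.T.FinalC

/-!
# A set of primes that misses few primes and obeys the Poisson law
-/

set_option autoImplicit false
open Finset Filter MeasureTheory ProbabilityTheory Topology

namespace Pool.Agent.Work.MP_9a1701_nt.P

lemma Det_space (al : ℕ → ℝ) (h : Prob al) :
    ∃ (Ω : Type) (_ : MeasurableSpace Ω) (μ : Measure Ω) (_ : IsProbabilityMeasure μ)
      (E : ℕ → Set Ω), (∀ n, MeasurableSet (E n)) ∧ iIndepSet E μ ∧ ∀ n, μ.real (E n) = al n := by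
  obtain ⟨Ω, mΩ, P, X, hX, hl, hi, hP⟩ := exists_hasLaw_indepFun (fun _ : ℕ => Bool)
    (fun n => bernoulliMeasure true false ⟨al n, h n⟩)
  have hm : ∀ n, MeasurableSet (X n ⁻¹' {true}) := fun n => hX n (measurableSet_singleton _)
  refine ⟨Ω, mΩ, P, hP, fun n => X n ⁻¹' {true}, hm, ?_, fun n => ?_⟩
  · rw [iIndepSet_iff_meas_biInter hm]
    intro s
    exact hi.measure_inter_preimage_eq_mul s (sets := fun _ => {true})
      fun _ _ => measurableSet_singleton _
  · have e := (hl n).measureReal_eq (p := fun b => b = true) (measurableSet_singleton _)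
    exact e.trans (bernoulliMeasure_real_apply_of_mem_of_notMem (s := {true}) ⟨al n, h n⟩
      (measurableSet_singleton _) rfl (by simp))

lemma Det_summable : Summable fun n : ℕ => 1 / ((n : ℝ) * (1 + Real.log n) ^ 2) := by
  rw [← summable_condensed_iff_of_nonneg (fun n => by positivity)]
  · have h2 : (1 / 2 : ℝ) ≤ Real.log 2 := by have := Real.log_two_gt_d9; linarith
    have hs : Summable fun k : ℕ => 4 * (1 / ((k + 1 : ℕ) : ℝ) ^ 2) :=
      ((summable_nat_add_iff 1).2 (Real.summable_one_div_nat_pow.2 one_lt_two)).mul_left 4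
    refine Summable.of_nonneg_of_le (fun k => by positivity) (fun k => ?_) hs
    have hk : (0 : ℝ) ≤ k := Nat.cast_nonneg k
    push_cast
    rw [Real.log_pow]
    have h3 : ((k : ℝ) + 1) / 2 ≤ 1 + k * Real.log 2 := by nlinarith
    have h4 : (((k : ℝ) + 1) / 2) ^ 2 ≤ (1 + k * Real.log 2) ^ 2 := by gcongr
    have h5 : (0 : ℝ) < 1 + k * Real.log 2 := by positivity
    calc (2 : ℝ) ^ k * (1 / (2 ^ k * (1 + k * Real.log 2) ^ 2))
        = 1 / (1 + k * Real.log 2) ^ 2 := by field_simp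
      _ ≤ 1 / (((k : ℝ) + 1) / 2) ^ 2 := one_div_le_one_div_of_le (by positivity) h4
      _ = 4 * (1 / ((k : ℝ) + 1) ^ 2) := by field_simp; norm_num
  · intro m n hm hmn
    have h1 : (0 : ℝ) < m := Nat.cast_pos.2 hm
    have h2 : (m : ℝ) ≤ n := Nat.cast_le.2 hmn
    have h3 := Real.log_natCast_nonneg m
    have h4 := Real.log_le_log h1 h2
    refine one_div_le_one_div_of_le (by positivity) ?_
    gcongr

/-- A monotone minorant. -/
lemma Det_env (ψ : ℕ → ℝ) (hψ : ∀ κ : ℝ, 0 < κ → ∀ᶠ x : ℕ in atTop, (x : ℝ) ^ (1 - κ) ≤ ψ x) :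
    ∃ φ : ℕ → ℝ, Monotone φ ∧ (∀ n, 0 < φ n) ∧ (∀ n : ℕ, 1 ≤ n → φ n ≤ n) ∧
      (∀ᶠ x : ℕ in atTop, φ x ≤ ψ x) ∧
      ∀ κ : ℝ, 0 < κ → ∀ᶠ x : ℕ in atTop, (x : ℝ) ^ (1 - κ) ≤ φ x := by
  obtain ⟨n0, h0⟩ := eventually_atTop.1 (hψ 1 one_pos)
  set χ : ℕ → ℝ := fun y => if y < n0 then 1 else max 1 (min (ψ y) y) with hχ
  have h1 : ∀ y, 1 ≤ χ y := fun y => by
    simp only [hχ]; split_ifs
    · exact le_rfl
    · exact le_max_left _ _
  have hb : ∀ n : ℕ, BddBelow (χ '' Set.Ici n) := fun n => ⟨1, by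
    rintro _ ⟨y, -, rfl⟩; exact h1 y⟩
  have hne : ∀ n : ℕ, (χ '' Set.Ici n).Nonempty := fun n => ⟨χ n, n, Set.self_mem_Ici, rfl⟩
  have hle : ∀ n : ℕ, sInf (χ '' Set.Ici n) ≤ χ n := fun n => csInf_le (hb n) ⟨n, Set.self_mem_Ici, rfl⟩
  refine ⟨fun n => sInf (χ '' Set.Ici n), fun m n hmn => ?_, fun n => ?_, fun n hn => ?_, ?_,
    fun κ hκ => ?_⟩
  · exact csInf_le_csInf (hb m) (hne n) (Set.image_mono (Set.Ici_subset_Ici.2 hmn))
  · exact lt_of_lt_of_le one_pos (le_csInf (hne n) (by rintro _ ⟨y, -, rfl⟩; exact h1 y))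
  · refine (hle n).trans ?_
    have : (1 : ℝ) ≤ n := by exact_mod_cast hn
    simp only [hχ]; split_ifs
    · exact this
    · exact max_le this (min_le_right _ _)
  · filter_upwards [eventually_ge_atTop n0] with x hx
    refine (hle x).trans ?_
    have h2 := h0 x hx
    rw [sub_self, Real.rpow_zero] at h2
    simp only [hχ, not_lt.2 hx, if_false]
    exact max_le h2 (min_le_left _ _)
  · obtain ⟨n1, h2⟩ := eventually_atTop.1 (hψ (min κ 1) (lt_min hκ one_pos))
    filter_upwards [eventually_ge_atTop n0, eventually_ge_atTop n1, eventually_ge_atTop 1]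
      with x hx0 hx1 hx
    refine le_csInf (hne x) ?_
    rintro _ ⟨y, hy, rfl⟩
    have hy' : x ≤ y := hy
    have hx' : (1 : ℝ) ≤ x := by exact_mod_cast hx
    have hxy : (x : ℝ) ≤ y := by exact_mod_cast hy'
    have e1 : (x : ℝ) ^ (1 - κ) ≤ (y : ℝ) ^ (1 - min κ 1) :=
      (Real.rpow_le_rpow_of_exponent_le hx' (by linarith [min_le_left κ 1])).trans
        (Real.rpow_le_rpow (by linarith) hxy (by linarith [min_le_right κ 1]))
    have e2 : (y : ℝ) ^ (1 - min κ 1) ≤ y := by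
      simpa using Real.rpow_le_rpow_of_exponent_le (hx'.trans hxy)
        (show 1 - min κ 1 ≤ 1 by linarith [lt_min hκ one_pos])
    simp only [hχ, not_lt.2 (hx0.trans hy'), if_false]
    exact le_max_of_le_right (le_min (e1.trans (h2 y (hx1.trans hy'))) (e1.trans e2))

/-- The probabilities of deleting an integer. -/
lemma Det_weights {φ : ℕ → ℝ} (hpos : ∀ n, 0 < φ n) (hle : ∀ n : ℕ, 1 ≤ n → φ n ≤ n)
    (hge : ∀ κ : ℝ, 0 < κ → ∀ᶠ x : ℕ in atTop, (x : ℝ) ^ (1 - κ) ≤ φ x) :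
    ∃ g : ℕ → ℝ, (∀ n, 0 ≤ g n) ∧ Thin (fun n => 1 - g n) 1 ∧ Summable (fun n => g n / φ n) ∧
      ∑' n, g n / φ n ≤ 1 := by
  set u : ℕ → ℝ := fun n => 1 / ((n : ℝ) * (1 + Real.log n) ^ 2) with hu
  have hu0 : ∀ n, 0 ≤ u n := fun n => by simp only [hu]; positivity
  have hS : 0 ≤ ∑' n, u n := tsum_nonneg hu0
  set c : ℝ := 1 / (∑' n, u n + 2) with hc
  have hc0 : 0 < c := by positivity
  have hc1 : c ≤ 1 / 2 := one_div_le_one_div_of_le (by norm_num) (by linarith)
  have e : ∀ n, c * φ n * u n / φ n = c * u n := fun n => by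
    have := (hpos n).ne'
    field_simp
  have g0 : ∀ n, 0 ≤ c * φ n * u n := fun n => by
    have := hpos n; have := hu0 n; positivity
  have g1 : ∀ n : ℕ, c * φ n * u n ≤ c * (1 / (1 + Real.log n) ^ 2) := fun n => by
    have hl := Real.log_natCast_nonneg n
    rcases Nat.eq_zero_or_pos n with rfl | hn
    · simp [hu, hc0.le]
    · have h1 : (0 : ℝ) < n := Nat.cast_pos.2 hn
      calc c * φ n * u n ≤ c * n * u n := by
            have := hle n hn; have := hu0 n; gcongr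
        _ = c * (1 / (1 + Real.log n) ^ 2) := by simp only [hu]; field_simp
  have g2 : ∀ n : ℕ, c * φ n * u n ≤ 1 / 2 := fun n => by
    have hl := Real.log_natCast_nonneg n
    have h1 : 1 / (1 + Real.log n) ^ 2 ≤ 1 := by
      rw [div_le_one (by positivity)]; nlinarith
    nlinarith [g1 n]
  refine ⟨fun n => c * φ n * u n, g0, ⟨fun n => ⟨by linarith [g2 n], by linarith [g0 n]⟩, ?_,
    fun κ hκ => ?_⟩, ?_, ?_⟩
  · have h1 : Tendsto (fun n : ℕ => (1 + Real.log n) ^ 2) atTop atTop :=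
      (tendsto_pow_atTop two_ne_zero).comp (tendsto_atTop_add_const_left _ _
        (Real.tendsto_log_atTop.comp tendsto_natCast_atTop_atTop))
    have h2 : Tendsto (fun n : ℕ => c * (1 / (1 + Real.log n) ^ 2)) atTop (𝓝 0) := by
      simpa using (tendsto_const_nhds.div_atTop h1 :
        Tendsto (fun n : ℕ => 1 / (1 + Real.log n) ^ 2) atTop (𝓝 0)).const_mul c
    simpa using (squeeze_zero g0 g1 h2).const_sub 1
  · have h1 := ((isLittleO_log_rpow_rpow_atTop 2 (half_pos hκ)).comp_tendsto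
      tendsto_natCast_atTop_atTop).bound (c := c / 8) (by positivity)
    filter_upwards [h1, hge _ (half_pos hκ), eventually_ge_atTop 3] with n h2 h3 hn
    have hn' : (3 : ℝ) ≤ n := by exact_mod_cast hn
    have hn0 : (0 : ℝ) < n := by linarith
    have hl : 1 ≤ Real.log n := by
      rw [Real.le_log_iff_exp_le hn0]
      linarith [Real.exp_one_lt_d9]
    simp only [Function.comp, Real.rpow_two] at h2
    rw [Real.norm_of_nonneg (by positivity), Real.norm_of_nonneg (by positivity)] at h2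
    have h4 : (1 + Real.log n) ^ 2 ≤ c / 2 * (n : ℝ) ^ (κ / 2) := by nlinarith
    have hp : (0 : ℝ) < (n : ℝ) ^ (κ / 2) := by positivity
    have h5 : 1 / ((n : ℝ) * (c / 2 * (n : ℝ) ^ (κ / 2))) ≤ u n :=
      one_div_le_one_div_of_le (by positivity) (by gcongr)
    have h6 : (n : ℝ) ^ (1 - κ / 2) = n * (n : ℝ) ^ (-κ) * (n : ℝ) ^ (κ / 2) := by
      rw [show 1 - κ / 2 = 1 + -κ + κ / 2 by ring, Real.rpow_add hn0, Real.rpow_add hn0,
        Real.rpow_one]
    have h7 : 2 * (n : ℝ) ^ (-κ) ≤ c * φ n * u n := by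
      calc 2 * (n : ℝ) ^ (-κ)
          = c * (n : ℝ) ^ (1 - κ / 2) * (1 / ((n : ℝ) * (c / 2 * (n : ℝ) ^ (κ / 2)))) := by
            rw [h6]; field_simp
        _ ≤ c * φ n * u n := by have := (hpos n).le; gcongr
    show (n : ℝ) ^ (-κ) ≤ (1 - c * φ n * u n) * (1 - (1 - c * φ n * u n))
    nlinarith [g2 n, g0 n]
  · simp only [e]
    exact Det_summable.mul_left c
  · simp only [e]
    rw [tsum_mul_left, hc, div_mul_eq_mul_div, div_le_one (by positivity)]
    linarith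

theorem thmD (ψ : ℕ → ℝ) (hψ : ∀ κ : ℝ, 0 < κ → ∀ᶠ x : ℕ in atTop, (x : ℝ) ^ (1 - κ) ≤ ψ x) :
    ∃ A : Set ℕ, (∀ t ∈ A, t.Prime) ∧
      (∀ᶠ x : ℕ in atTop, (Set.ncard {p | p ≤ x ∧ p.Prime ∧ p ∉ A} : ℝ) ≤ ψ x) ∧
      ∀ k : ℕ, Tendsto (fun x : ℕ => Rk A k x / x) atTop
        (𝓝 (Real.log 2 ^ k / (2 * k.factorial))) := by
  classical
  obtain ⟨φ, hmono, hpos, hle, hψφ, hge⟩ := Det_env ψ hψ
  obtain ⟨g, g0, hT, hs, hs1⟩ := Det_weights hpos hle hge
  obtain ⟨Ω, mΩ, μ, hμ, E, hm, hind, hE⟩ := Det_space _ hT.prob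
  have hC := thmC μ E hm hind (α := 1) (by rwa [funext hE])
  set Z : Ω → ENNReal := fun ω =>
    ∑' n, (E n)ᶜ.indicator (fun _ => ENNReal.ofReal (1 / φ n)) ω with hZ
  have hmi : ∀ n, Measurable ((E n)ᶜ.indicator fun _ : Ω => ENNReal.ofReal (1 / φ n)) :=
    fun n => measurable_const.indicator (hm n).compl
  have hI : ∫⁻ ω, Z ω ∂μ ≤ 1 := by
    rw [hZ, lintegral_tsum fun n => (hmi n).aemeasurable]
    have e : ∀ n, ∫⁻ ω, (E n)ᶜ.indicator (fun _ => ENNReal.ofReal (1 / φ n)) ω ∂μ =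
        ENNReal.ofReal (g n / φ n) := fun n => by
      rw [lintegral_indicator_const (hm n).compl, ← ofReal_measureReal (measure_ne_top _ _),
        probReal_compl_eq_one_sub (hm n), hE n,
        ← ENNReal.ofReal_mul (one_div_nonneg.2 (hpos n).le)]
      congr 1; ring
    simp only [e]
    rw [← ENNReal.ofReal_tsum_of_nonneg (fun n => div_nonneg (g0 n) (hpos n).le) hs]
    exact ENNReal.ofReal_le_one.2 hs1
  obtain ⟨ω, hω, hZω⟩ := exists_notMem_null_le_lintegral (μ := μ) (f := Z)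
    (Measurable.tsum hmi).aemeasurable (ae_iff.1 hC)
  refine ⟨{t | t.Prime ∧ ω ∈ E t}, fun t ht => ht.1, ?_, fun k => ?_⟩
  · filter_upwards [hψφ] with x hx
    refine le_trans ?_ hx
    set s := (range (x + 1)).filter fun n => ω ∉ E n with hs'
    have h1 : Set.ncard {p | p ≤ x ∧ p.Prime ∧ p ∉ {t | t.Prime ∧ ω ∈ E t}} ≤ s.card := by
      rw [← Set.ncard_coe_finset]
      refine Set.ncard_le_ncard (fun p hp => ?_) s.finite_toSet
      obtain ⟨p1, p2, p3⟩ := hp
      simp only [hs', coe_filter, mem_range, Set.mem_ofPred_eq]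
      exact ⟨by omega, fun h => p3 ⟨p2, h⟩⟩
    have h2 : ENNReal.ofReal (∑ n ∈ s, 1 / φ n) ≤ 1 := by
      rw [ENNReal.ofReal_sum_of_nonneg fun n _ => one_div_nonneg.2 (hpos n).le]
      refine le_trans ?_ (hZω.trans hI)
      refine le_trans (sum_le_sum fun n hn => ?_) (ENNReal.sum_le_tsum s)
      rw [Set.indicator_of_mem (show ω ∈ (E n)ᶜ from (mem_filter.1 hn).2)]
    have h3 : (s.card : ℝ) * (1 / φ x) ≤ 1 := by
      refine le_trans ?_ (ENNReal.ofReal_le_one.1 h2)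
      rw [← nsmul_eq_mul]
      refine card_nsmul_le_sum _ _ _ fun n hn => one_div_le_one_div_of_le (hpos n) (hmono ?_)
      have := mem_range.1 (mem_filter.1 hn).1
      omega
    rw [mul_one_div, div_le_one (hpos x)] at h3
    exact le_trans (by exact_mod_cast h1) h3
  · have e : poi k (1 * Real.log 2) = Real.log 2 ^ k / (2 * k.factorial) := by
      rw [poi, one_mul, Real.exp_neg, Real.exp_log (by norm_num)]
      field_simp
    rw [← e]
    exact not_not.1 hω k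

end Pool.Agent.Work.MP_9a1701_nt.P
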