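import Pool.Agent.Work.MP_9a1701_nt.T.TSetup
import Pool.Agent.Work.MP_9a1701_nt.P.Ex1

/-!
# Support and a two sided tail bound
-/

set_option autoImplicit false
open Finset Filter

namespace Pool.Agent.Work.MP_9a1701_nt.P

variable {ρ ρ' : ℕ → ℝ} {U V : Finset ℕ}

lemma Ex_congr_rho (h : ∀ t ∈ U, ρ t = ρ' t) (F : Finset ℕ → ℝ) : Ex ρ U F = Ex ρ' U F := by
  induction U using Finset.induction_on generalizing F with
  | empty => rw [Ex_empty, Ex_empty]
  | insert t U ht ih =>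
    have h1 : ∀ u ∈ U, ρ u = ρ' u := fun u hu => h u (mem_insert_of_mem hu)
    rw [Ex_insert ht, Ex_insert ht, ih h1, ih h1, h t (mem_insert_self t U)]

lemma Hoeff_zero (h : ∀ t ∈ U, ρ t = 0) (F : Finset ℕ → ℝ) : Ex ρ U F = F ∅ := by
  induction U using Finset.induction_on with
  | empty => exact Ex_empty _
  | insert t U ht ih =>
    rw [Ex_insert ht, h t (mem_insert_self t U), ih fun u hu => h u (mem_insert_of_mem hu)]
    ring

/-- Induction on `U \ V` with `Ex_insert`. -/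
lemma Ex_support (hV : V ⊆ U) (h : ∀ t ∈ U, t ∉ V → ρ t = 0) (F : Finset ℕ → ℝ) :
    Ex ρ U F = Ex ρ V F := by
  conv_lhs => rw [← union_sdiff_of_subset hV, Ex_union disjoint_sdiff]
  refine Ex_congr fun Q _ => ?_
  rw [Hoeff_zero fun t ht => h t (mem_sdiff.1 ht).1 (mem_sdiff.1 ht).2, union_empty]

lemma Ex_rhoC (al : ℕ → ℝ) (x : ℕ) (F : Finset ℕ → ℝ) :
    Ex (rhoC al) (Icc 1 x) F = Ex al (PI 1 (x + 1)) F := by
  have h1 : PI 1 (x + 1) ⊆ Icc 1 x := fun t ht => by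
    rw [mem_PI] at ht
    rw [mem_Icc]
    omega
  rw [Ex_support h1]
  · refine Ex_congr_rho (fun t ht => ?_) F
    rw [rhoC, if_pos (mem_PI.1 ht).2.2]
  · intro t ht h2
    rw [rhoC, if_neg]
    intro h3
    rw [mem_Icc] at ht
    exact h2 (mem_PI.2 ⟨ht.1, by omega, h3⟩)

lemma prob_rhoC {al : ℕ → ℝ} (h : Prob al) : Prob (rhoC al) := by
  intro t
  unfold rhoC
  split_ifs
  · exact h t
  · exact ⟨le_rfl, zero_le_one⟩

lemma Hoeff_exp {u : ℝ} (h : |u| ≤ 1) : Real.exp u ≤ 1 + u + u ^ 2 := by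
  have := (abs_le.1 (Real.abs_exp_sub_one_sub_id_le h)).2
  linarith

lemma Hoeff_one {p y w : ℝ} (h0 : 0 ≤ p) (h1 : p ≤ 1) (hy : |y| ≤ w) (hw : w ≤ 1) :
    p * Real.exp (y * (1 - p)) + (1 - p) * Real.exp (-(y * p)) ≤ Real.exp (w ^ 2) := by
  have a0 := abs_nonneg y
  have a1 : |y * (1 - p)| ≤ 1 := by
    rw [abs_mul, abs_of_nonneg (sub_nonneg.2 h1)]
    nlinarith
  have a2 : |-(y * p)| ≤ 1 := by
    rw [abs_neg, abs_mul, abs_of_nonneg h0]
    nlinarith
  have a3 := mul_le_mul_of_nonneg_left (Hoeff_exp a1) h0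
  have a4 := mul_le_mul_of_nonneg_left (Hoeff_exp a2) (sub_nonneg.2 h1)
  have a5 : y ^ 2 ≤ w ^ 2 := by
    rw [← sq_abs y]
    exact pow_le_pow_left₀ a0 hy 2
  have a6 := Real.add_one_le_exp (w ^ 2)
  have a7 : y ^ 2 * (p * (1 - p)) ≤ y ^ 2 * 1 :=
    mul_le_mul_of_nonneg_left (by nlinarith) (sq_nonneg y)
  nlinarith

lemma Hoeff_mgf (hρ : Prob ρ) (c : ℕ → ℝ) {w : ℝ} (hw : w ≤ 1) (hc : ∀ u ∈ U, |c u| ≤ w) :
    Ex ρ U (fun Q => Real.exp (∑ u ∈ Q, c u - ∑ u ∈ U, ρ u * c u)) ≤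
      Real.exp (w ^ 2 * U.card) := by
  induction U using Finset.induction_on with
  | empty => simp [Ex_empty]
  | insert t U ht ih =>
    have i1 := ih fun u hu => hc u (mem_insert_of_mem hu)
    have i0 : 0 ≤ Ex ρ U (fun Q => Real.exp (∑ u ∈ Q, c u - ∑ u ∈ U, ρ u * c u)) :=
      Ex_nonneg hρ fun Q _ => (Real.exp_pos _).le
    have e1 : Ex ρ U (fun Q => Real.exp (∑ u ∈ insert t Q, c u - ∑ u ∈ insert t U, ρ u * c u)) =
        Real.exp (c t * (1 - ρ t)) *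
          Ex ρ U (fun Q => Real.exp (∑ u ∈ Q, c u - ∑ u ∈ U, ρ u * c u)) := by
      rw [← Ex_const_mul]
      refine Ex_congr fun Q hQ => ?_
      rw [sum_insert ht, sum_insert fun h => ht (hQ h), ← Real.exp_add]
      congr 1
      ring
    have e2 : Ex ρ U (fun Q => Real.exp (∑ u ∈ Q, c u - ∑ u ∈ insert t U, ρ u * c u)) =
        Real.exp (-(c t * ρ t)) *
          Ex ρ U (fun Q => Real.exp (∑ u ∈ Q, c u - ∑ u ∈ U, ρ u * c u)) := by
      rw [← Ex_const_mul]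
      refine Ex_congr fun Q _ => ?_
      rw [sum_insert ht, ← Real.exp_add]
      congr 1
      ring
    rw [Ex_insert ht, e1, e2, ← mul_assoc, ← mul_assoc, ← add_mul, card_insert_of_notMem ht,
      Nat.cast_succ, mul_add, mul_one, add_comm (w ^ 2 * _), Real.exp_add]
    exact mul_le_mul (Hoeff_one (hρ t).1 (hρ t).2 (hc t (mem_insert_self t U)) hw) i1 i0
      (Real.exp_pos _).le

/-- `Ex exp (s (∑ c - mean)) ≤ exp (s ^ 2 Z ^ 2 card)` for `|s| Z ≤ 1` (induction on `U`,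
`exp u ≤ 1 + u + u ^ 2` for `|u| ≤ 1`); take `s = ± l / (2 card Z)`. -/
theorem hoeffding (hρ : Prob ρ) (c : ℕ → ℝ) {Z l : ℝ} (hZ : 0 < Z) (hc : ∀ u ∈ U, |c u| ≤ Z)
    (hl : 0 < l) (hl2 : l ≤ 2 * U.card) :
    Ex ρ U (fun Q => ind (l * Z < |∑ u ∈ Q, c u - ∑ u ∈ U, ρ u * c u|)) ≤
      2 * Real.exp (-(l ^ 2 / (4 * U.card))) := by
  have hN : (0 : ℝ) < U.card := by linarith
  set s : ℝ := l / (2 * U.card * Z) with hs
  have s0 : 0 < s := by positivity
  have s1 : s * Z = l / (2 * U.card) := by rw [hs]; field_simp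
  have s2 : s * Z ≤ 1 := by rw [s1]; exact (div_le_one (by positivity)).2 hl2
  have m1 := Hoeff_mgf (U := U) hρ (fun u => s * c u) s2 fun u hu => by
    rw [abs_mul, abs_of_pos s0]
    exact mul_le_mul_of_nonneg_left (hc u hu) s0.le
  have m2 := Hoeff_mgf (U := U) hρ (fun u => -(s * c u)) s2 fun u hu => by
    rw [abs_neg, abs_mul, abs_of_pos s0]
    exact mul_le_mul_of_nonneg_left (hc u hu) s0.le
  have e0 : Real.exp (-(l ^ 2 / (4 * U.card))) =
      Real.exp (-(s * (l * Z))) * Real.exp ((s * Z) ^ 2 * U.card) := by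
    rw [← Real.exp_add]
    congr 1
    rw [mul_left_comm s l Z, s1]
    field_simp
    ring
  have k0 := (Real.exp_pos (-(s * (l * Z)))).le
  have m3 := mul_le_mul_of_nonneg_left (add_le_add m1 m2) k0
  rw [← Ex_add, ← Ex_const_mul] at m3
  refine le_trans (Ex_mono hρ fun Q _ => ?_) (m3.trans (le_of_eq (by rw [e0]; ring)))
  set X := ∑ u ∈ Q, c u - ∑ u ∈ U, ρ u * c u with hX
  have x1 : ∑ u ∈ Q, s * c u - ∑ u ∈ U, ρ u * (s * c u) = s * X := by
    rw [hX, mul_sub, mul_sum, mul_sum]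
    congr 1
    exact sum_congr rfl fun u _ => by ring
  have x2 : ∑ u ∈ Q, -(s * c u) - ∑ u ∈ U, ρ u * -(s * c u) = -(s * X) := by
    rw [← x1]
    simp only [mul_neg, sum_neg_distrib]
    ring
  rw [x1, x2, mul_add, ← Real.exp_add, ← Real.exp_add]
  have p1 := (Real.exp_pos (-(s * (l * Z)) + s * X)).le
  have p2 := (Real.exp_pos (-(s * (l * Z)) + -(s * X))).le
  by_cases hq : l * Z < |X|
  · rw [ind_pos hq]
    rcases lt_abs.1 hq with h | h
    · have := Real.add_one_le_exp (-(s * (l * Z)) + s * X)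
      have := mul_lt_mul_of_pos_left h s0
      linarith
    · have := Real.add_one_le_exp (-(s * (l * Z)) + -(s * X))
      have := mul_lt_mul_of_pos_left h s0
      linarith
  · rw [ind_neg hq]
    linarith

end Pool.Agent.Work.MP_9a1701_nt.P
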