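import Pool.Agent.Work.MP_9a1701_nt.P.Setup

/-!
# Thinned primes: definitions
-/

set_option autoImplicit false
open Finset Filter

namespace Pool.Agent.Work.MP_9a1701_nt.P

/-- Distance to the nearest integer. -/
noncomputable def dz (z : ℝ) : ℝ := |z - round z|

/-- The primes of `[lo, hi)`. -/
def PI (lo hi : ℕ) : Finset ℕ := (Ico lo hi).filter Nat.Prime

lemma mem_PI {lo hi t : ℕ} : t ∈ PI lo hi ↔ lo ≤ t ∧ t < hi ∧ t.Prime := by
  simp only [PI, mem_filter, mem_Ico, and_assoc]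

/-- Number of elements of `W` outside the class `r` modulo `q`. -/
def exc (W : Finset ℕ) (q r : ℕ) : ℕ := (W.filter fun u => ¬ u ≡ r [MOD q]).card

/-- `q` is a common multiple of all moduli for which `W` is nearly constant. -/
def IsType (W : Finset ℕ) (Qm E0 q r : ℕ) : Prop :=
  1 ≤ q ∧ q ≤ Qm ∧ r < q ∧ exc W q r ≤ Qm * E0 ∧
    ∀ q' r' : ℕ, 1 ≤ q' → q' ≤ Qm → exc W q' r' ≤ E0 → q' ∣ q

open Classical in
/-- A chosen type. -/
noncomputable def typ (W : Finset ℕ) (Qm E0 : ℕ) : ℕ × ℕ :=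
  if h : ∃ t : ℕ × ℕ, IsType W Qm E0 t.1 t.2 then h.choose else (1, 0)

/-- Joint law of the number and the sum of the kept elements of `W`. -/
noncomputable def PW (ρ : ℕ → ℝ) (W : Finset ℕ) (k σ : ℤ) : ℝ :=
  Ex ρ W fun Q => ind ((Q.card : ℤ) = k ∧ ((∑ u ∈ Q, u : ℕ) : ℤ) = σ)

/-- Characteristic function of that law. -/
noncomputable def chi (ρ : ℕ → ℝ) (W : Finset ℕ) (φ θ : ℝ) : ℂ :=
  ∏ u ∈ W, (((1 - ρ u : ℝ) : ℂ) +
    (ρ u : ℂ) * Complex.exp (((2 * Real.pi * (φ + θ * u) : ℝ) : ℂ) * Complex.I))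

/-- The primes strictly between the segments `s.1` and `s.2`. -/
def Ws (J : ℕ) (s : ℕ × ℕ) : Finset ℕ := PI ((s.1 + 1) * J) (s.2 * J)

/-- The window is long in primes and not too long in integers. -/
def Reg (J K1 rr : ℕ) (s : ℕ × ℕ) : Prop :=
  K1 ≤ 2 * (Ws J s).card ∧ (s.2 - s.1 - 1) * J ≤ K1 * rr

/-- The type of the class `s`. -/
noncomputable def ty (J rr : ℕ) (s : ℕ × ℕ) : ℕ × ℕ := typ (Ws J s) (4 * rr) (1024 * rr ^ 4)

/-- All primes of the two end segments lie in the majority class. -/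
def Clean (J rr : ℕ) (s : ℕ × ℕ) : Prop :=
  ∀ p : ℕ, p.Prime → (p / J = s.1 ∨ p / J = s.2) → p ≡ (ty J rr s).2 [MOD (ty J rr s).1]

/-- Regular and clean. -/
def GoodC (J K1 rr : ℕ) (s : ℕ × ℕ) : Prop := Reg J K1 rr s ∧ Clean J rr s

/-- The block has more than `ks` points in each of its end segments. -/
def NonEdge (A : Set ℕ) (J ks : ℕ) (p : ℕ × ℕ) : Prop :=
  ks < bcard A p.1 ((p.1 / J + 1) * J - 1) ∧ ks < bcard A (p.2 / J * J) p.2

open Classical in
/-- Blocks of class `s`, away from the segment ends, with `K` elements and sum `n`. -/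
noncomputable def cntS (A : Set ℕ) (lo hi J ks : ℕ) (s : ℕ × ℕ) (K n : ℕ) : ℕ :=
  ((blk A lo hi).filter fun p => bcard A p.1 p.2 = K ∧ bsum A p.1 p.2 = n ∧
    (p.1 / J, p.2 / J) = s ∧ NonEdge A J ks p).card

open Classical in
/-- Good blocks with `K` elements and sum `n`. -/
noncomputable def cntGood (A : Set ℕ) (lo hi J K1 rr ks K n : ℕ) : ℕ :=
  ((blk A lo hi).filter fun p => bcard A p.1 p.2 = K ∧ bsum A p.1 p.2 = n ∧
    GoodC J K1 rr (p.1 / J, p.2 / J) ∧ NonEdge A J ks p).card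

open Classical in
/-- Bad blocks with `K` elements. -/
noncomputable def badK (A : Set ℕ) (lo hi J K1 rr ks K : ℕ) : ℕ :=
  ((blk A lo hi).filter fun p => bcard A p.1 p.2 = K ∧
    ¬ (GoodC J K1 rr (p.1 / J, p.2 / J) ∧ NonEdge A J ks p)).card

open Classical in
/-- Index of the block of `K` elements whose sum is the last one not above `t`. -/
noncomputable def idx (A : Set ℕ) (K t : ℕ) : ℕ := Nat.findGreatest (fun i => TT A K i ≤ t) t

/-- Class of that block. -/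
noncomputable def cls (A : Set ℕ) (K J t : ℕ) : ℕ × ℕ :=
  (dd A (idx A K t) / J, dd A (idx A K t + K - 1) / J)

/-- Residue defect of the kept primes of the window. -/
noncomputable def sig (J rr : ℕ) (s : ℕ × ℕ) (Q : Finset ℕ) : ℤ :=
  ∑ u ∈ Q ∩ Ws J s, ((u : ℤ) - (ty J rr s).2)

/-- The residue weight of the class `s`. -/
noncomputable def om (J K1 rr : ℕ) (s : ℕ × ℕ) (Q : Finset ℕ) (K n : ℕ) : ℝ :=
  (ty J rr s).1 * ind (GoodC J K1 rr s ∧
    ((ty J rr s).1 : ℤ) ∣ sig J rr s Q + (ty J rr s).2 * K - n)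

/-- The configuration: kept primes and all integers above `x`. -/
def cx (x : ℕ) (Q : Finset ℕ) : Set ℕ := cfg (Set.Ioi x) Q

lemma cx_infinite (x : ℕ) (Q : Finset ℕ) : (cx x Q).Infinite :=
  (Set.Ioi_infinite x).mono Set.subset_union_left

lemma mem_cx {x t : ℕ} {Q : Finset ℕ} : t ∈ cx x Q ↔ x < t ∨ t ∈ Q := mem_cfg

/-- Coefficients of the twisted sums; `f` is the cosine or the sine. -/
noncomputable def gam (f : ℝ → ℝ) (al : ℕ → ℝ) (x w rr K1 q r a m : ℕ) : ℝ :=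
  Ex al (PI 1 (x + 1)) fun Q => ((K1 - w : ℕ) : ℝ) * Phi (cx x Q) (K1 - w) ((K1 - w) * m) *
    ind (GoodC (w * rr) K1 rr (cls (cx x Q) (K1 - w) (w * rr) ((K1 - w) * m)) ∧
      ty (w * rr) rr (cls (cx x Q) (K1 - w) (w * rr) ((K1 - w) * m)) = (q, r)) *
    f (2 * Real.pi * a * sig (w * rr) rr (cls (cx x Q) (K1 - w) (w * rr) ((K1 - w) * m)) Q / q)

/-- A twisted sum over a short range of lengths. -/
noncomputable def tws (K1 w N H q c n : ℕ) (b : ℕ → ℝ) : ℂ :=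
  ∑ K ∈ Ioc K1 (K1 + w), Complex.exp (((2 * Real.pi * c * K / q : ℝ) : ℂ) * Complex.I) *
    ∑ m ∈ (Icc 1 N).filter (fun m => n < K * m ∧ K * m ≤ n + H), (b m : ℂ)

/-- All twisted sums of a short range. -/
noncomputable def tw (al : ℕ → ℝ) (x w rr K1 N H n : ℕ) : ℝ :=
  ∑ q ∈ Icc 1 (4 * rr), ∑ r ∈ (range q).filter (fun r => r.Coprime q), ∑ a ∈ Ico 1 q,
    (‖tws K1 w N H q (a * r) n (gam Real.cos al x w rr K1 q r a)‖ +
      ‖tws K1 w N H q (a * r) n (gam Real.sin al x w rr K1 q r a)‖)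

/-- Sizes of the parameters of a short range. -/
structure Par (x rr w K1 : ℕ) : Prop where
  h8 : 8 ≤ rr
  lo : w * rr ^ 9 ≤ K1
  hi : K1 ≤ w * rr ^ 10
  big : rr ^ 199 ≤ K1
  lex : K1 ≤ x
  ex : (x : ℝ) ^ 5 ≤ Real.exp rr

/-- Hypotheses on the probabilities of keeping an integer. -/
structure Thin (al : ℕ → ℝ) (α : ℝ) : Prop where
  prob : Prob al
  lim : Tendsto al atTop (nhds α)
  var : ∀ κ : ℝ, 0 < κ → ∀ᶠ n : ℕ in atTop, (n : ℝ) ^ (-κ) ≤ al n * (1 - al n)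

/-- Probability that `t` is a kept prime. -/
noncomputable def rhoC (al : ℕ → ℝ) (t : ℕ) : ℝ := if t.Prime then al t else 0

end Pool.Agent.Work.MP_9a1701_nt.P
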