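import Pool.Agent.Work.MP_9a1701_nt.T.TSetup

/-!
# The type of a window
-/

set_option autoImplicit false
open Finset Filter

namespace Pool.Agent.Work.MP_9a1701_nt.P

lemma Typ_count {G : Finset ℕ} {y0 Z q : ℕ} (hG : G ⊆ Ico y0 (y0 + Z))
    (h : ∀ u ∈ G, ∀ v ∈ G, u ≡ v [MOD q]) : G.card ≤ Z / q + 1 := by
  rw [← card_range (Z / q + 1)]
  refine card_le_card_of_injOn (fun u => (u - y0) / q) (fun u hu => ?_) fun u hu v hv huv => ?_
  · have := mem_Ico.1 (hG hu)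
    exact mem_coe.2 (mem_range.2 (Nat.lt_succ_of_le (Nat.div_le_div_right (by omega))))
  · have h1 := (mem_Ico.1 (hG hu)).1
    have h2 := (mem_Ico.1 (hG hv)).1
    have h3 : u - y0 ≡ v - y0 [MOD q] := Nat.ModEq.add_right_cancel' y0 (by
      rw [Nat.sub_add_cancel h1, Nat.sub_add_cancel h2]
      exact h u hu v hv)
    have h4 := Nat.div_add_mod (u - y0) q
    have h5 := Nat.div_add_mod (v - y0) q
    simp only at huv
    rw [huv, h3] at h4
    omega

/-- (C1) of the paper: `q` is the lcm of the `q' ∈ [1, Qm]` that have a class with at most `E0`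
exceptions; the elements in all these classes are congruent modulo `q`, there are more than
`card / 2` of them in an interval of length `Z`. -/
theorem exists_type {W : Finset ℕ} {y0 Z Qm E0 : ℕ} (hW : W ⊆ Ico y0 (y0 + Z))
    (hZ : 2 * Z ≤ Qm * W.card) (hN : 2 * (Qm * E0 + 1) ≤ W.card) :
    ∃ t : ℕ × ℕ, IsType W Qm E0 t.1 t.2 := by
  classical
  let S := (Icc 1 Qm).filter fun q' => ∃ r', exc W q' r' ≤ E0
  have hc : ∀ q' : ℕ, ∃ r', q' ∈ S → exc W q' r' ≤ E0 := fun q' => by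
    by_cases h : q' ∈ S
    · exact (mem_filter.1 h).2.imp fun _ h' _ => h'
    · exact ⟨0, fun h' => absurd h' h⟩
  choose c hc using hc
  let B := S.biUnion fun q' => W.filter fun u => ¬ u ≡ c q' [MOD q']
  have hB : B.card ≤ Qm * E0 := by
    refine (card_biUnion_le_card_mul _ _ E0 hc).trans (Nat.mul_le_mul_right _ ?_)
    exact (card_filter_le _ _).trans (by simp)
  have hq : 0 < S.lcm id := Nat.pos_of_ne_zero (Finset.lcm_ne_zero_iff.2 fun q' h => by
    have := (mem_Icc.1 (mem_filter.1 h).1).1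
    simp only [id]
    omega)
  have hG : ∀ u ∈ W \ B, ∀ v ∈ W \ B, u ≡ v [MOD S.lcm id] := fun u hu v hv => by
    have h1 : ∀ u ∈ W \ B, ∀ q' ∈ S, u ≡ c q' [MOD q'] := fun u hu q' h => by
      by_contra h'
      exact (mem_sdiff.1 hu).2 (mem_biUnion.2 ⟨q', h, mem_filter.2 ⟨(mem_sdiff.1 hu).1, h'⟩⟩)
    rw [Nat.modEq_iff_dvd, Int.natCast_dvd]
    exact Finset.lcm_dvd fun q' h =>
      Int.natCast_dvd.1 ((h1 u hu q' h).trans (h1 v hv q' h).symm).dvd
  have hk : W.card ≤ (W \ B).card + B.card := card_le_card_sdiff_add_card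
  have hle := Typ_count (sdiff_subset.trans hW) hG
  obtain ⟨u, hu⟩ : (W \ B).Nonempty := card_pos.1 (by omega)
  refine ⟨(S.lcm id, u % S.lcm id), hq, ?_, Nat.mod_lt _ hq, ?_, fun q' r' h1 h2 h3 => ?_⟩
  · obtain ⟨g, hg⟩ : ∃ g, (W \ B).card = g + 1 := ⟨(W \ B).card - 1, by omega⟩
    have h1 : g ≤ Z / S.lcm id := by omega
    have h2 : g * S.lcm id ≤ Z := (Nat.le_div_iff_mul_le hq).1 h1
    have h3 : Qm * W.card ≤ Qm * (2 * g) := Nat.mul_le_mul_left _ (by omega)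
    exact Nat.le_of_mul_le_mul_left (c := g) (by nlinarith only [h2, h3, hZ]) (by omega)
  · refine le_trans (card_le_card fun v hv => ?_) hB
    by_contra h
    exact (mem_filter.1 hv).2 ((hG v (mem_sdiff.2 ⟨(mem_filter.1 hv).1, h⟩) u hu).trans
      (Nat.mod_modEq _ _).symm)
  · exact Finset.dvd_lcm (f := id) (mem_filter.2 ⟨mem_Icc.2 ⟨h1, h2⟩, r', h3⟩)

lemma typ_spec {W : Finset ℕ} {Qm E0 : ℕ} (h : ∃ t : ℕ × ℕ, IsType W Qm E0 t.1 t.2) :
    IsType W Qm E0 (typ W Qm E0).1 (typ W Qm E0).2 := by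
  rw [typ, dif_pos h]
  exact h.choose_spec

/-- Some prime above `Qm` lies in the class. -/
lemma type_coprime {W : Finset ℕ} {Qm E0 q r : ℕ} (hW : ∀ u ∈ W, u.Prime)
    (h : IsType W Qm E0 q r) (hN : Qm * E0 + Qm + 1 < W.card) : r.Coprime q := by
  obtain ⟨h1, h2, -, h4, -⟩ := h
  by_contra hc
  have hs : W ⊆ (W.filter fun u => ¬ u ≡ r [MOD q]) ∪ range (Qm + 1) := fun u hu => by
    by_contra h
    rw [mem_union, not_or, mem_filter, mem_range, not_and, not_not] at h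
    have h5 : u.Coprime q := (hW u hu).coprime_iff_not_dvd.2
      (Nat.not_dvd_of_pos_of_lt h1 (by omega))
    exact hc ((h.1 hu).gcd_eq.symm.trans h5)
  have h6 := (card_le_card hs).trans (card_union_le _ _)
  rw [card_range] at h6
  unfold exc at h4
  omega

lemma Ws_subset {J : ℕ} {s : ℕ × ℕ} :
    Ws J s ⊆ Ico ((s.1 + 1) * J) ((s.1 + 1) * J + (s.2 - s.1 - 1) * J) := by
  intro u hu
  obtain ⟨h1, h2, -⟩ := mem_PI.1 hu
  rw [mem_Ico, ← add_mul]
  exact ⟨h1, h2.trans_le (Nat.mul_le_mul_right _ (by omega))⟩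

lemma card_Ws_le (J : ℕ) (s : ℕ × ℕ) : (Ws J s).card ≤ (s.2 - s.1 - 1) * J := by
  simpa only [Nat.card_Ico, Nat.add_sub_cancel_left] using card_le_card (Ws_subset (J := J) (s := s))

/-- For a regular class `card ≥ K1 / 2 ≥ rr ^ 199 / 2`. -/
theorem ty_spec {x rr w K1 : ℕ} (hP : Par x rr w K1) {J : ℕ} {s : ℕ × ℕ} (h : Reg J K1 rr s) :
    IsType (Ws J s) (4 * rr) (1024 * rr ^ 4) (ty J rr s).1 (ty J rr s).2 ∧
      ((ty J rr s).2).Coprime (ty J rr s).1 := by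
  obtain ⟨h1, h2⟩ := h
  have h8 := hP.h8
  have h3 : 8 ^ 6 * rr ^ 5 ≤ K1 :=
    calc 8 ^ 6 * rr ^ 5 ≤ rr ^ 6 * rr ^ 5 := Nat.mul_le_mul_right _ (Nat.pow_le_pow_left h8 _)
      _ = rr ^ 11 := by ring
      _ ≤ rr ^ 199 := Nat.pow_le_pow_right (by omega) (by omega)
      _ ≤ K1 := hP.big
  have h4 : rr ≤ rr ^ 5 := Nat.le_self_pow (by omega) _
  have h5 : 4 * rr * (1024 * rr ^ 4) = 4096 * rr ^ 5 := by ring
  have h6 : K1 * rr ≤ 2 * (Ws J s).card * rr := Nat.mul_le_mul_right _ h1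
  have ht := typ_spec (exists_type (Qm := 4 * rr) (E0 := 1024 * rr ^ 4) (Ws_subset (J := J) (s := s))
    (by linarith only [h2, h6]) (by omega))
  exact ⟨ht, type_coprime (W := Ws J s) (fun u hu => (mem_PI.1 hu).2.2) ht (by omega)⟩

end Pool.Agent.Work.MP_9a1701_nt.P
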