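import Pool.Agent.Work.MP_9a1701_nt.T.Inv
import Pool.Agent.Work.MP_9a1701_nt.T.Typ
import Pool.Agent.Work.MP_9a1701_nt.T.Hoeff
import Pool.Agent.Work.MP_9a1701_nt.P.Bridge
import Pool.Agent.Work.MP_9a1701_nt.T.TSetup
import Pool.Agent.Work.MP_9a1701_nt.P.PtB
import Pool.Agent.Work.MP_9a1701_nt.P.Ex1

-- merged part: Pool.Agent.Work.MP_9a1701_nt.T.Flat
section
/-!
# Flatness for a regular class
-/

set_option autoImplicit false
open Finset Filter

namespace Pool.Agent.Work.MP_9a1701_nt.P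

lemma Flat_pow {R c : ℝ} (hR : 8 ≤ R) {a b : ℕ} (hc : c ≤ 8 ^ b) (h : a + b ≤ 199) :
    c * R ^ a ≤ R ^ 199 := by
  have h1 : (8 : ℝ) ^ b ≤ R ^ b := pow_le_pow_left₀ (by norm_num) hR b
  calc c * R ^ a ≤ R ^ b * R ^ a := mul_le_mul_of_nonneg_right (hc.trans h1) (by positivity)
    _ = R ^ (a + b) := by ring
    _ ≤ R ^ 199 := pow_le_pow_right₀ (by linarith) h

lemma Flat_sqrt {R N c : ℝ} (hR : 8 ≤ R) (hN : R ^ 199 ≤ 2 * N) {a b : ℕ}
    (hc : 2 * c ^ 2 ≤ 8 ^ b) (h : 2 * a + b ≤ 199) : c * R ^ a ≤ √N := by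
  refine Real.le_sqrt_of_sq_le ?_
  have h1 := Flat_pow hR hc h
  have h2 : (c * R ^ a) ^ 2 * 2 = 2 * c ^ 2 * R ^ (2 * a) := by ring
  linarith

/-- `inversion` with `D0 = rr ^ 2`, `ε = 1 / rr`, `τ = 2 rr / √N`, `β = 128 τ rr / N`, `bohr`,
`loc` and `ty_spec` (`q' ∣ q` puts `a / q'` over the denominator `q ≤ 4 rr`). The first term is at
most `4 · 10 ^ 8 rr ^ 30 K1 / (N ^ 3 √N)`. -/
theorem flat_reg {al : ℕ → ℝ} (hρ : Prob al) {x rr w K1 : ℕ} (hP : Par x rr w K1) {J : ℕ}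
    {s : ℕ × ℕ} (h : Reg J K1 rr s) (hε : ∀ u ∈ Ws J s, 1 / (rr : ℝ) ≤ al u * (1 - al u))
    (k σ : ℤ) {j : ℕ} (hj : j ≤ K1 * rr ^ 23) :
    PW al (Ws J s) k σ ≤ PW al (Ws J s) k (σ - ((ty J rr s).1 * j : ℕ)) +
      (10 ^ 9 * (rr : ℝ) ^ 30 * K1 / (((Ws J s).card : ℝ) ^ 3 * √((Ws J s).card : ℝ)) +
        2 * Real.exp (-(8 * (rr : ℝ)))) := by
  obtain ⟨⟨hq1, hq2, -, -, hdiv⟩, -⟩ := ty_spec hP h
  obtain ⟨hK, hZ⟩ := h
  have hR : (8 : ℝ) ≤ rr := by exact_mod_cast hP.h8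
  have hN : (rr : ℝ) ^ 199 ≤ 2 * ((Ws J s).card : ℝ) := by exact_mod_cast hP.big.trans hK
  have hN8 : (8 : ℝ) ≤ ((Ws J s).card : ℝ) := by
    have := Flat_pow (c := 16) (a := 0) (b := 2) hR (by norm_num) (by norm_num)
    linarith
  have hS4 := Flat_sqrt (c := 4096) (a := 4) (b := 9) hR hN (by norm_num) (by norm_num)
  have hZ' : 2 * ((s.2 - s.1 - 1) * J) ≤ 4 * rr * (Ws J s).card := by
    calc 2 * ((s.2 - s.1 - 1) * J) ≤ 2 * ((2 * (Ws J s).card) * rr) :=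
          Nat.mul_le_mul_left _ (hZ.trans (Nat.mul_le_mul_right _ hK))
      _ = _ := by ring
  generalize hq : (ty J rr s).1 = q at hq1 hq2 hdiv ⊢
  have hsq : √((Ws J s).card : ℝ) ^ 2 = (Ws J s).card := Real.sq_sqrt (by positivity)
  have hS0 : 0 < √((Ws J s).card : ℝ) := Real.sqrt_pos.2 (by linarith)
  generalize √((Ws J s).card : ℝ) = S at hsq hS0 hS4 ⊢
  have hR0 : (0 : ℝ) < rr := by linarith
  have hτ : 0 < 2 * (rr : ℝ) / S := by positivity
  have hD : 4 * (rr : ℝ) ^ 2 ≤ (2 * (rr : ℝ) / S) ^ 2 * (Ws J s).card := by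
    rw [← hsq]; apply le_of_eq; field_simp; norm_num
  have hQ : 2 * (rr : ℝ) / S * ((4 * rr : ℕ) : ℝ) ^ 3 ≤ 1 / 32 := by
    rw [div_mul_eq_mul_div, div_le_iff₀ hS0]
    push_cast
    linarith
  have hinv := inversion (W := Ws J s) hρ (ε := 1 / (rr : ℝ)) (D0 := (rr : ℝ) ^ 2)
    (τ := 2 * (rr : ℝ) / S) (β := 32 * (2 * (rr : ℝ) / S) * ((4 * rr : ℕ) : ℝ) / (Ws J s).card)
    hq1 (by positivity) hε hτ.le (by positivity)
    (fun φ θ hφ => by
      obtain ⟨q', r', a, h1, h2, h3, h4⟩ := bohr (E0 := 1024 * rr ^ 4) Ws_subset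
        (by exact_mod_cast hN8) hZ' hτ hD hQ (by push_cast; linarith) hφ
      obtain ⟨c, hc⟩ := hdiv q' r' h1 h2 h3
      refine ⟨a * c, ?_⟩
      have hc0 : (c : ℝ) ≠ 0 := by
        have : c ≠ 0 := by rintro rfl; omega
        exact_mod_cast this
      have e : ((a * c : ℤ) : ℝ) / q = a / q' := by
        rw [hc]; push_cast; exact mul_div_mul_right _ _ hc0
      rwa [e])
    (fun φ φ' θ h1 h2 => loc (by exact_mod_cast (by linarith : (1 : ℝ) ≤ (Ws J s).card))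
      hτ hD h1 h2) k σ j
  have e1 : 8 * (1 / (rr : ℝ)) * (rr : ℝ) ^ 2 = 8 * rr := by field_simp
  rw [e1] at hinv
  have hq3 : (q : ℝ) ≤ 4 * rr := by exact_mod_cast hq2
  have hq4 : (q : ℝ) + 1 ≤ 5 * rr := by linarith
  have hj' : (j : ℝ) ≤ K1 * (rr : ℝ) ^ 23 := by exact_mod_cast hj
  have hmain : 12 * (2 * (rr : ℝ) / S) * (((q : ℝ) + 1) *
      (2 * (32 * (2 * (rr : ℝ) / S) * ((4 * rr : ℕ) : ℝ) / (Ws J s).card))) *
      (2 * Real.pi * ((q : ℝ) * j) *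
        (32 * (2 * (rr : ℝ) / S) * ((4 * rr : ℕ) : ℝ) / (Ws J s).card)) ≤
      10 ^ 9 * (rr : ℝ) ^ 30 * K1 / (((Ws J s).card : ℝ) ^ 3 * S) := by
    calc _ ≤ 12 * (2 * (rr : ℝ) / S) * ((5 * (rr : ℝ)) *
          (2 * (32 * (2 * (rr : ℝ) / S) * ((4 * rr : ℕ) : ℝ) / (Ws J s).card))) *
          (2 * 4 * ((4 * (rr : ℝ)) * (K1 * (rr : ℝ) ^ 23)) *
            (32 * (2 * (rr : ℝ) / S) * ((4 * rr : ℕ) : ℝ) / (Ws J s).card)) := by
          have := Real.pi_le_four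
          have := Real.pi_pos
          gcongr
      _ = 503316480 * (rr : ℝ) ^ 30 * K1 / (((Ws J s).card : ℝ) ^ 3 * S) := by
          rw [← hsq]; push_cast; field_simp; ring
      _ ≤ _ := by gcongr; norm_num
  have := (abs_le.1 hinv).2
  linarith

/-- The error of `class_flat` with `l = 2 √(N rr)`, `K1 ≤ 2 N`, `Z ≤ K1 rr`, `N ≤ x`, `J ≤ x`:
the box holds at most `45 N rr ^ 2` points. -/
theorem err_le {x rr w K1 N Z J : ℕ} (hP : Par x rr w K1) (h1 : K1 ≤ 2 * N) (h2 : Z ≤ K1 * rr)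
    (h3 : N ≤ x) (h4 : J ≤ x) :
    (10 ^ 9 * (rr : ℝ) ^ 30 * K1 / ((N : ℝ) ^ 3 * √(N : ℝ)) + 2 * Real.exp (-(8 * (rr : ℝ)))) *
        ((2 * (2 * √((N : ℝ) * rr)) + 1) * (2 * (2 * √((N : ℝ) * rr)) * Z / N + 1)) +
      (J : ℝ) ^ 2 * (4 * Real.exp (-((2 * √((N : ℝ) * rr)) ^ 2 / (4 * N)))) ≤
        1 / ((K1 : ℝ) * (rr : ℝ) ^ 23) := by
  have hR : (8 : ℝ) ≤ rr := by exact_mod_cast hP.h8
  have hK : (rr : ℝ) ^ 199 ≤ K1 := by exact_mod_cast hP.big
  have h1' : (K1 : ℝ) ≤ 2 * N := by exact_mod_cast h1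
  have h2' : (Z : ℝ) ≤ K1 * rr := by exact_mod_cast h2
  have h3' : (N : ℝ) ≤ x := by exact_mod_cast h3
  have h4' : (J : ℝ) ≤ x := by exact_mod_cast h4
  have h5 : (K1 : ℝ) ≤ x := by exact_mod_cast hP.lex
  have hex := hP.ex
  have hJ : (0 : ℝ) ≤ J := by positivity
  have hZ : (0 : ℝ) ≤ Z := by positivity
  have hS := Flat_sqrt (c := 54 * 10 ^ 10) (a := 55) (b := 30) hR (hK.trans h1')
    (by norm_num) (by norm_num)
  have hx1 := (Flat_pow (c := 270) (a := 25) (b := 3) hR (by norm_num) (by norm_num)).trans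
    (hK.trans h5)
  have hx2 := (Flat_pow (c := 12) (a := 23) (b := 2) hR (by norm_num) (by norm_num)).trans
    (hK.trans h5)
  have hK2 : (2 : ℝ) ≤ K1 := by
    have := Flat_pow (c := 2) (a := 0) (b := 1) hR (by norm_num) (by norm_num)
    linarith
  generalize (rr : ℝ) = R at *
  generalize (K1 : ℝ) = K at *
  generalize (N : ℝ) = n at *
  generalize (x : ℝ) = X at *
  generalize (J : ℝ) = j at *
  generalize (Z : ℝ) = z at *
  have hR0 : 0 < R := by linarith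
  have hK0 : 0 < K := by linarith
  have hn : 1 ≤ n := by linarith
  have hn0 : 0 < n := by linarith
  have hX : 1 ≤ X := by linarith
  have hT2 : √(n * R) ^ 2 = n * R := Real.sq_sqrt (by positivity)
  have hT1 : 1 ≤ √(n * R) := Real.one_le_sqrt.2 (one_le_mul_of_one_le_of_one_le hn (by linarith))
  generalize √(n * R) = T at *
  have hS0 : 0 < √n := Real.sqrt_pos.2 hn0
  generalize √n = S at *
  have hB : (2 * (2 * T) + 1) * (2 * (2 * T) * z / n + 1) ≤ 45 * n * R ^ 2 := by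
    have a1 : 2 * (2 * T) * z / n ≤ 8 * (T * R) := by
      rw [div_le_iff₀ hn0]
      calc 2 * (2 * T) * z ≤ 2 * (2 * T) * (2 * n * R) := by
            gcongr
            exact h2'.trans (by gcongr)
        _ = _ := by ring
    have a2 : 1 ≤ T * R := one_le_mul_of_one_le_of_one_le hT1 (by linarith)
    calc _ ≤ (5 * T) * (9 * (T * R)) :=
          mul_le_mul (by linarith) (by linarith) (by positivity) (by positivity)
      _ = 45 * T ^ 2 * R := by ring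
      _ = _ := by rw [hT2]; ring
  have e1 : (2 * T) ^ 2 / (4 * n) = R := by
    rw [mul_pow, hT2]; field_simp; norm_num
  rw [e1]
  have hE : Real.exp (-R) ≤ 1 / X ^ 5 := by
    rw [Real.exp_neg, ← one_div]
    exact one_div_le_one_div_of_le (by positivity) hex
  have hE8 : Real.exp (-(8 * R)) ≤ 1 / X ^ 5 :=
    (Real.exp_le_exp.2 (by linarith)).trans hE
  have t1 : 10 ^ 9 * R ^ 30 * K / (n ^ 3 * S) * (45 * n * R ^ 2) ≤ 1 / (K * R ^ 23) / 3 := by
    rw [div_mul_eq_mul_div, div_div, div_le_div_iff₀ (by positivity) (by positivity)]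
    calc _ = 135 * 10 ^ 9 * R ^ 55 * n * K ^ 2 := by ring
      _ ≤ 135 * 10 ^ 9 * R ^ 55 * n * (2 * n) ^ 2 := by gcongr
      _ = n ^ 3 * (54 * 10 ^ 10 * R ^ 55) := by ring
      _ ≤ n ^ 3 * S := by gcongr
      _ = _ := (one_mul _).symm
  have t2 : 2 * (1 / X ^ 5) * (45 * n * R ^ 2) ≤ 1 / (K * R ^ 23) / 3 := by
    rw [mul_one_div, div_mul_eq_mul_div, div_div, div_le_div_iff₀ (by positivity) (by positivity)]
    calc _ = 270 * R ^ 25 * n * K := by ring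
      _ ≤ X * X * X := by gcongr
      _ = X ^ 3 := by ring
      _ ≤ X ^ 5 := pow_le_pow_right₀ hX (by norm_num)
      _ = _ := (one_mul _).symm
  have t3 : j ^ 2 * (4 * (1 / X ^ 5)) ≤ 1 / (K * R ^ 23) / 3 := by
    rw [mul_one_div, ← mul_div_assoc, div_div, div_le_div_iff₀ (by positivity) (by positivity)]
    calc _ = 12 * R ^ 23 * K * j ^ 2 := by ring
      _ ≤ X * X * X ^ 2 := by gcongr
      _ = X ^ 4 := by ring
      _ ≤ X ^ 5 := pow_le_pow_right₀ hX (by norm_num)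
      _ = _ := (one_mul _).symm
  calc _ ≤ (10 ^ 9 * R ^ 30 * K / (n ^ 3 * S) + 2 * (1 / X ^ 5)) * (45 * n * R ^ 2) +
        j ^ 2 * (4 * (1 / X ^ 5)) := by gcongr
    _ ≤ _ := by rw [add_mul]; linarith

end Pool.Agent.Work.MP_9a1701_nt.P
end

-- merged part: Pool.Agent.Work.MP_9a1701_nt.T.ClassFlat
section
/-!
# Flatness of the number of blocks of one class
-/

set_option autoImplicit false
open Finset Filter

namespace Pool.Agent.Work.MP_9a1701_nt.P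

open Classical in
/-- Admissible end points; they depend only on the configuration outside the window. -/
noncomputable def ends (A : Set ℕ) (lo hi J ks : ℕ) (s : ℕ × ℕ) : Finset (ℕ × ℕ) :=
  (blk A lo hi).filter fun p => (p.1 / J, p.2 / J) = s ∧ NonEdge A J ks p

lemma ClassFlat_seg {a J k : ℕ} (hJ : 1 ≤ J) (h : a / J = k) : k * J ≤ a ∧ a < (k + 1) * J := by
  subst h
  refine ⟨Nat.div_mul_le_self a J, ?_⟩
  rw [add_mul, one_mul]
  exact Nat.lt_div_mul_add hJ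

lemma ClassFlat_sum_ind {ι : Type*} (S : Finset ι) (P : ι → Prop) [DecidablePred P] :
    ((S.filter P).card : ℝ) = ∑ p ∈ S, ind (P p) := by
  rw [card_filter]
  push_cast
  refine sum_congr rfl fun p _ => ?_
  by_cases h : P p
  · rw [if_pos h, ind_pos h]
  · rw [if_neg h, ind_neg h]

lemma ClassFlat_mem_ends {A : Set ℕ} {lo hi J ks : ℕ} {s p : ℕ × ℕ} :
    p ∈ ends A lo hi J ks s ↔
      p ∈ blk A lo hi ∧ (p.1 / J, p.2 / J) = s ∧ NonEdge A J ks p := by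
  classical
  unfold ends
  rw [mem_filter]

lemma ClassFlat_mem_Ws {J t : ℕ} {s : ℕ × ℕ} (h : t ∈ Ws J s) :
    (s.1 + 1) * J ≤ t ∧ t < s.2 * J := by
  have := mem_PI.1 h
  exact ⟨this.1, this.2.1⟩

lemma ClassFlat_bounds {J : ℕ} (hJ : 1 ≤ J) {s p : ℕ × ℕ} (h : (p.1 / J, p.2 / J) = s) :
    s.1 * J ≤ p.1 ∧ p.1 < (s.1 + 1) * J ∧ s.2 * J ≤ p.2 ∧ p.2 < (s.2 + 1) * J := by
  have h1 := ClassFlat_seg hJ (show p.1 / J = s.1 from congrArg Prod.fst h)
  have h2 := ClassFlat_seg hJ (show p.2 / J = s.2 from congrArg Prod.snd h)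
  exact ⟨h1.1, h1.2, h2.1, h2.2⟩

lemma ClassFlat_out {x J t : ℕ} {s : ℕ × ℕ} {o Q : Finset ℕ} (hQ : Q ⊆ Ws J s)
    (ht : t < (s.1 + 1) * J ∨ s.2 * J ≤ t) : t ∈ cx x (o ∪ Q) ↔ t ∈ cx x o := by
  rw [mem_cx, mem_cx, mem_union]
  constructor
  · rintro (h | h | h)
    · exact Or.inl h
    · exact Or.inr h
    · have := ClassFlat_mem_Ws (hQ h)
      omega
  · rintro (h | h)
    · exact Or.inl h
    · exact Or.inr (Or.inl h)

lemma ClassFlat_edge {x J ks : ℕ} (hJ : 1 ≤ J) {s p : ℕ × ℕ} {o Q : Finset ℕ} (hQ : Q ⊆ Ws J s)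
    (h : (p.1 / J, p.2 / J) = s) : NonEdge (cx x (o ∪ Q)) J ks p ↔ NonEdge (cx x o) J ks p := by
  have h1 : p.1 / J = s.1 := congrArg Prod.fst h
  have h2 : p.2 / J = s.2 := congrArg Prod.snd h
  have h3 : 1 ≤ (s.1 + 1) * J := Nat.mul_pos (Nat.succ_pos _) hJ
  unfold NonEdge
  rw [h1, h2, bcard_congr (A := cx x (o ∪ Q)) (A' := cx x o) (a := p.1)
      fun t _ ht => ClassFlat_out hQ (Or.inl (by omega)),
    bcard_congr (A := cx x (o ∪ Q)) (A' := cx x o) (b := p.2)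
      fun t ht _ => ClassFlat_out hQ (Or.inr ht)]

lemma ClassFlat_S {x J : ℕ} (hJ : 1 ≤ J) {s p : ℕ × ℕ} (hW : Ws J s ⊆ PI 1 (x + 1))
    {o Q : Finset ℕ} (ho : Disjoint o (Ws J s)) (hQ : Q ⊆ Ws J s)
    (h : (p.1 / J, p.2 / J) = s) :
    bcard (cx x (o ∪ Q)) p.1 p.2 = bcard (cx x o) p.1 p.2 + Q.card ∧
      bsum (cx x (o ∪ Q)) p.1 p.2 = bsum (cx x o) p.1 p.2 + ∑ u ∈ Q, u := by
  have hb := ClassFlat_bounds hJ h
  have hS : Blk1_S (cx x (o ∪ Q)) p.1 p.2 = Blk1_S (cx x o) p.1 p.2 ∪ Q := by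
    ext t
    rw [mem_union, Blk1_mem, Blk1_mem, mem_cx, mem_cx, mem_union]
    constructor
    · rintro ⟨h1, h2, h3 | h3 | h3⟩
      · exact Or.inl ⟨h1, h2, Or.inl h3⟩
      · exact Or.inl ⟨h1, h2, Or.inr h3⟩
      · exact Or.inr h3
    · rintro (⟨h1, h2, h3 | h3⟩ | h3)
      · exact ⟨h1, h2, Or.inl h3⟩
      · exact ⟨h1, h2, Or.inr (Or.inl h3)⟩
      · have := ClassFlat_mem_Ws (hQ h3)
        exact ⟨by omega, by omega, Or.inr (Or.inr h3)⟩
  have hD : Disjoint (Blk1_S (cx x o) p.1 p.2) Q := by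
    refine disjoint_left.2 fun t h1 h2 => ?_
    rcases mem_cx.1 (Blk1_mem.1 h1).2.2 with h3 | h3
    · have := (mem_PI.1 (hW (hQ h2))).2.1
      omega
    · exact disjoint_left.1 ho h3 (hQ h2)
  rw [Blk1_bcard, Blk1_bcard, Blk1_bsum, Blk1_bsum, hS, card_union_of_disjoint hD, sum_union hD]
  exact ⟨rfl, rfl⟩

/-- The window lies strictly between the end points and misses the end segments and `cx x o`. -/
lemma cntS_split {x lo hi J ks K n : ℕ} {s : ℕ × ℕ} (hJ : 1 ≤ J) (hW : Ws J s ⊆ PI 1 (x + 1))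
    {o Q : Finset ℕ} (ho : Disjoint o (Ws J s)) (hQ : Q ⊆ Ws J s) :
    (cntS (cx x (o ∪ Q)) lo hi J ks s K n : ℝ) = ∑ p ∈ ends (cx x o) lo hi J ks s,
      ind ((Q.card : ℤ) = (K : ℤ) - bcard (cx x o) p.1 p.2 ∧
        ((∑ u ∈ Q, u : ℕ) : ℤ) = (n : ℤ) - bsum (cx x o) p.1 p.2) := by
  classical
  rw [← ClassFlat_sum_ind]
  unfold cntS
  refine congrArg (fun S : Finset (ℕ × ℕ) => (S.card : ℝ)) ?_
  ext p
  rw [mem_filter, mem_filter, ClassFlat_mem_ends]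
  by_cases h : (p.1 / J, p.2 / J) = s
  · have hb := ClassFlat_bounds hJ h
    obtain ⟨e1, e2⟩ := ClassFlat_S hJ hW ho hQ h
    rw [mem_blk, mem_blk, ClassFlat_edge hJ hQ h, ClassFlat_out hQ (Or.inl hb.2.1),
      ClassFlat_out hQ (Or.inr hb.2.2.1), e1, e2]
    generalize (∑ u ∈ Q, u) = σ
    constructor
    · rintro ⟨h1, h2, h3, h4, h5⟩
      exact ⟨⟨h1, h4, h5⟩, by omega, by omega⟩
    · rintro ⟨⟨h1, h4, h5⟩, h2, h3⟩
      exact ⟨h1, by omega, by omega, h4, h5⟩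
  · exact ⟨fun h1 => absurd h1.2.2.2.1 h, fun h1 => absurd h1.1.2.1 h⟩

lemma card_ends_le (A : Set ℕ) (lo hi : ℕ) {J : ℕ} (hJ : 1 ≤ J) (ks : ℕ) (s : ℕ × ℕ) :
    (ends A lo hi J ks s).card ≤ J ^ 2 := by
  have hc : (Ico (s.1 * J) ((s.1 + 1) * J) ×ˢ Ico (s.2 * J) ((s.2 + 1) * J)).card = J ^ 2 := by
    rw [card_product, Nat.card_Ico, Nat.card_Ico, add_mul, add_mul, one_mul,
      Nat.add_sub_cancel_left, Nat.add_sub_cancel_left, sq]
  rw [← hc]
  refine card_le_card fun p hp => ?_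
  have hb := ClassFlat_bounds hJ (ClassFlat_mem_ends.1 hp).2.1
  exact mem_product.2 ⟨mem_Ico.2 ⟨hb.1, hb.2.1⟩, mem_Ico.2 ⟨hb.2.2.1, hb.2.2.2⟩⟩

/-- Two different pairs of end points with the same count: the set differences have equal
positive size, one lies below `(s.1 + 1) J`, the other from `s.2 J` on. -/
lemma ends_gap {A : Set ℕ} {lo hi J ks : ℕ} {s : ℕ × ℕ} (hJ : 1 ≤ J) {p p' : ℕ × ℕ}
    (hp : p ∈ ends A lo hi J ks s) (hp' : p' ∈ ends A lo hi J ks s) (hne : p ≠ p')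
    (hc : bcard A p.1 p.2 = bcard A p'.1 p'.2) :
    (((s.2 - s.1 - 1) * J : ℕ) : ℤ) ≤ |(bsum A p.1 p.2 : ℤ) - bsum A p'.1 p'.2| := by
  have key : ∀ p q : ℕ × ℕ, p ∈ ends A lo hi J ks s → q ∈ ends A lo hi J ks s → p ≠ q →
      p.1 ≤ q.1 → bcard A p.1 p.2 = bcard A q.1 q.2 →
      (s.2 - s.1 - 1) * J + bsum A p.1 p.2 ≤ bsum A q.1 q.2 := by
    intro p q hp hq hpq h1 hc
    rw [ClassFlat_mem_ends] at hp hq
    have bp := ClassFlat_bounds hJ hp.2.1
    have bq := ClassFlat_bounds hJ hq.2.1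
    have hp := mem_blk.1 hp.1
    have hq := mem_blk.1 hq.1
    have hne : Blk1_S A p.1 p.2 ≠ Blk1_S A q.1 q.2 := by
      intro hne
      have m1 : q.1 ∈ Blk1_S A p.1 p.2 := hne ▸ Blk1_mem.2 ⟨le_rfl, hq.2.1, hq.2.2.2.1⟩
      have m2 : q.2 ∈ Blk1_S A p.1 p.2 := hne ▸ Blk1_mem.2 ⟨hq.2.1, le_rfl, hq.2.2.2.2⟩
      have m3 : p.1 ∈ Blk1_S A q.1 q.2 := hne ▸ Blk1_mem.2 ⟨le_rfl, hp.2.1, hp.2.2.2.1⟩
      have m4 : p.2 ∈ Blk1_S A q.1 q.2 := hne ▸ Blk1_mem.2 ⟨hp.2.1, le_rfl, hp.2.2.2.2⟩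
      rw [Blk1_mem] at m1 m2 m3 m4
      exact hpq (Prod.ext (by omega) (by omega))
    obtain ⟨e, e', h2, h3, h4, h5⟩ := Blk1_cmp h1 hc hne
    rw [Blk1_bsum, Blk1_bsum]
    have h6 : (s.2 - s.1 - 1) * J = s.2 * J - (s.1 + 1) * J := by
      rw [Nat.sub_sub, Nat.sub_mul]
    rw [h6]
    omega
  rcases le_total p.1 p'.1 with h | h
  · have := key p p' hp hp' hne h hc
    rw [le_abs]
    right
    omega
  · have := key p' p hp' hp hne.symm h hc.symm
    rw [le_abs]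
    left
    omega

lemma ClassFlat_sep {ι : Type*} (S : Finset ι) (f : ι → ℝ) {c r N : ℝ} (hN : 0 < N) (hr : 0 ≤ r)
    (h1 : ∀ p ∈ S, |f p - c| ≤ r) (h2 : ∀ p ∈ S, ∀ q ∈ S, p ≠ q → N ≤ |f p - f q|) :
    (S.card : ℝ) ≤ 2 * r / N + 1 := by
  have h0 : 0 ≤ 2 * r / N := by positivity
  have key : S.card ≤ (range (⌊2 * r / N⌋₊ + 1)).card := by
    refine card_le_card_of_injOn (fun p => ⌊(f p - c + r) / N⌋₊) ?_ ?_
    · intro p hp
      have := abs_le.1 (h1 p (mem_coe.1 hp))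
      refine mem_coe.2 (mem_range.2 (Nat.lt_succ_of_le (Nat.floor_le_floor ?_)))
      exact div_le_div_of_nonneg_right (by linarith only [this.2]) hN.le
    · intro p hp q hq hpq
      by_contra hne
      have h3 := h2 p (mem_coe.1 hp) q (mem_coe.1 hq) hne
      have a1 := abs_le.1 (h1 p (mem_coe.1 hp))
      have a2 := abs_le.1 (h1 q (mem_coe.1 hq))
      have b1 : 0 ≤ (f p - c + r) / N := div_nonneg (by linarith only [a1.1]) hN.le
      have b2 : 0 ≤ (f q - c + r) / N := div_nonneg (by linarith only [a2.1]) hN.le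
      have c1 := Nat.floor_le b1
      have c2 := Nat.floor_le b2
      have d1 := Nat.lt_floor_add_one ((f p - c + r) / N)
      have d2 := Nat.lt_floor_add_one ((f q - c + r) / N)
      have hpq' : ⌊(f p - c + r) / N⌋₊ = ⌊(f q - c + r) / N⌋₊ := hpq
      rw [hpq'] at c1 d1
      rw [le_div_iff₀ hN] at c1 c2
      rw [div_lt_iff₀ hN] at d1 d2
      refine absurd h3 (not_le.2 (abs_lt.2 ⟨?_, ?_⟩))
      · linarith only [c1, d2]
      · linarith only [c2, d1]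
  rw [Finset.card_range] at key
  calc (S.card : ℝ) ≤ ((⌊2 * r / N⌋₊ + 1 : ℕ) : ℝ) := Nat.cast_le.2 key
    _ ≤ 2 * r / N + 1 := by
      push_cast
      linarith only [Nat.floor_le h0]

open Classical in
/-- At most `2 l + 1` values of the count; for each, the sums are `N`-separated in an interval
of length `2 l Z`. -/
lemma box_count {A : Set ℕ} {lo hi J ks N : ℕ} {s : ℕ × ℕ} (hJ : 1 ≤ J) (hN : 1 ≤ N)
    (hNZ : N ≤ (s.2 - s.1 - 1) * J) {l Z c1 c2 y : ℝ} (hl : 0 ≤ l) (hZ : 0 ≤ Z) :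
    (((ends A lo hi J ks s).filter fun p => |(bcard A p.1 p.2 : ℝ) - c1| ≤ l ∧
      |(bsum A p.1 p.2 : ℝ) - y * bcard A p.1 p.2 - c2| ≤ l * Z).card : ℝ) ≤
      (2 * l + 1) * (2 * l * Z / N + 1) := by
  set E := (ends A lo hi J ks s).filter fun p => |(bcard A p.1 p.2 : ℝ) - c1| ≤ l ∧
      |(bsum A p.1 p.2 : ℝ) - y * bcard A p.1 p.2 - c2| ≤ l * Z with hE
  have hN' : (0 : ℝ) < N := by exact_mod_cast hN
  have hlZ : 0 ≤ l * Z := mul_nonneg hl hZ
  have h1 : ((E.image fun p => bcard A p.1 p.2).card : ℝ) ≤ 2 * l + 1 := by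
    have := ClassFlat_sep (E.image fun p => bcard A p.1 p.2) (fun k => (k : ℝ)) (c := c1)
      one_pos hl (fun k hk => by
        obtain ⟨p, hp, rfl⟩ := mem_image.1 hk
        exact (mem_filter.1 hp).2.1) (fun k _ k' _ hne => by
        have h2 : (1 : ℤ) ≤ |(k : ℤ) - k'| := Int.one_le_abs (by omega)
        exact_mod_cast h2)
    rwa [div_one] at this
  have h2 : ∀ k ∈ E.image fun p => bcard A p.1 p.2,
      ((E.filter fun p => bcard A p.1 p.2 = k).card : ℝ) ≤ 2 * l * Z / N + 1 := by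
    intro k _
    rw [mul_assoc]
    refine ClassFlat_sep _ (fun p => (bsum A p.1 p.2 : ℝ)) (c := y * k + c2) hN' hlZ ?_ ?_
    · intro p hp
      obtain ⟨hp1, hp2⟩ := mem_filter.1 hp
      have := (mem_filter.1 hp1).2.2
      rwa [hp2, sub_sub] at this
    · intro p hp q hq hne
      obtain ⟨hp1, hp2⟩ := mem_filter.1 hp
      obtain ⟨hq1, hq2⟩ := mem_filter.1 hq
      have h3 := ends_gap hJ (mem_filter.1 hp1).1 (mem_filter.1 hq1).1 hne (hp2.trans hq2.symm)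
      have h4 : (N : ℤ) ≤ |(bsum A p.1 p.2 : ℤ) - bsum A q.1 q.2| :=
        le_trans (by exact_mod_cast hNZ) h3
      exact_mod_cast h4
  rw [card_eq_sum_card_image (fun p => bcard A p.1 p.2) E]
  push_cast
  refine (sum_le_card_nsmul _ _ _ h2).trans ?_
  rw [nsmul_eq_mul]
  exact mul_le_mul_of_nonneg_right h1 (by positivity)

lemma ClassFlat_PW_nonneg {al : ℕ → ℝ} (hρ : Prob al) (W : Finset ℕ) (k σ : ℤ) :
    0 ≤ PW al W k σ := Ex_nonneg hρ fun _ _ => ind_nonneg _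

lemma ClassFlat_ind_mono {P R : Prop} (h : P → R) : ind P ≤ ind R := by
  by_cases hP : P
  · rw [ind_pos hP, ind_pos (h hP)]
  · rw [ind_neg hP]
    exact ind_nonneg _

/-- Outside the box the joint law is small. -/
lemma ClassFlat_tail {al : ℕ → ℝ} (hρ : Prob al) {W : Finset ℕ} {y Z : ℕ}
    (hW : W ⊆ Ico y (y + Z)) (hZ : 1 ≤ Z) {l : ℝ} (hl : 0 < l) (hl2 : l ≤ 2 * W.card)
    (K n b σ : ℕ) (h : ¬ (|(b : ℝ) - (K - ∑ u ∈ W, al u * 1)| ≤ l ∧
      |(σ : ℝ) - y * b - (n - y * K - ∑ u ∈ W, al u * ((u : ℝ) - y))| ≤ l * Z)) :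
    PW al W ((K : ℤ) - b) ((n : ℤ) - σ) ≤ 2 * Real.exp (-(l ^ 2 / (4 * W.card))) := by
  have hZ' : (0 : ℝ) < Z := by exact_mod_cast hZ
  rw [not_and_or, not_le, not_le] at h
  rcases h with h | h
  · refine le_trans (Ex_mono hρ fun Q _ => ClassFlat_ind_mono fun hQ => ?_)
      (hoeffding hρ (fun _ => 1) one_pos (fun _ _ => by rw [abs_one]) hl hl2)
    have h1 : (Q.card : ℝ) = K - b := by exact_mod_cast hQ.1
    rw [mul_one, sum_const, nsmul_eq_mul, mul_one, h1, abs_sub_comm]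
    refine h.trans_le (le_of_eq (congrArg _ ?_))
    ring
  · refine le_trans (Ex_mono hρ fun Q _ => ClassFlat_ind_mono fun hQ => ?_)
      (hoeffding hρ (fun u => (u : ℝ) - y) hZ' (fun u hu => ?_) hl hl2)
    · have h1 : (Q.card : ℝ) = K - b := by exact_mod_cast hQ.1
      have h2 : ∑ u ∈ Q, (u : ℝ) = n - σ := by
        rw [← Nat.cast_sum]
        exact_mod_cast hQ.2
      rw [sum_sub_distrib, sum_const, nsmul_eq_mul, h1, h2, abs_sub_comm]
      refine h.trans_le (le_of_eq (congrArg _ ?_))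
      ring
    · have h1 := mem_Ico.1 (hW hu)
      have h2 : (y : ℝ) ≤ u := by exact_mod_cast h1.1
      have h3 : (u : ℝ) ≤ y + Z := by exact_mod_cast h1.2.le
      rw [abs_of_nonneg (by linarith only [h2])]
      linarith only [h3]

lemma ClassFlat_inner {al : ℕ → ℝ} {x lo hi J ks K n : ℕ} {s : ℕ × ℕ} (hJ : 1 ≤ J)
    (hW : Ws J s ⊆ PI 1 (x + 1)) {o : Finset ℕ} (ho : Disjoint o (Ws J s)) :
    Ex al (Ws J s) (fun Q => (cntS (cx x (o ∪ Q)) lo hi J ks s K n : ℝ)) =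
      ∑ p ∈ ends (cx x o) lo hi J ks s, PW al (Ws J s) ((K : ℤ) - bcard (cx x o) p.1 p.2)
        ((n : ℤ) - bsum (cx x o) p.1 p.2) := by
  rw [Ex_congr fun Q hQ => cntS_split hJ hW ho hQ, Ex_sum]
  rfl

/-- (C4) of the paper. `Ex_union` over `PI 1 (x+1) = (PI \ W) ∪ W`, `cntS_split`. Outside the
box `PW ≤ 4 exp (..)` by `hoeffding` for `c = 1` and for `c u = u - (s.1 + 1) J`. -/
theorem class_flat {al : ℕ → ℝ} (hρ : Prob al) {x lo hi J ks K n h' : ℕ} {s : ℕ × ℕ} (hJ : 1 ≤ J)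
    (hW : Ws J s ⊆ PI 1 (x + 1)) (hN : 1 ≤ (Ws J s).card) {κ l : ℝ} (hκ : 0 ≤ κ) (hl : 0 < l)
    (hl2 : l ≤ 2 * (Ws J s).card) (hn : h' ≤ n)
    (hflat : ∀ k σ : ℤ, PW al (Ws J s) k σ ≤ PW al (Ws J s) k (σ - h') + κ) :
    Ex al (PI 1 (x + 1)) (fun Q => (cntS (cx x Q) lo hi J ks s K n : ℝ)) ≤
      Ex al (PI 1 (x + 1)) (fun Q => (cntS (cx x Q) lo hi J ks s K (n - h') : ℝ)) +
        (κ * ((2 * l + 1) * (2 * l * (((s.2 - s.1 - 1) * J : ℕ) : ℝ) / (Ws J s).card + 1)) +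
          (J : ℝ) ^ 2 * (4 * Real.exp (-(l ^ 2 / (4 * (Ws J s).card))))) := by
  classical
  have hZ : 1 ≤ (s.2 - s.1 - 1) * J := hN.trans (card_Ws_le J s)
  rw [← sdiff_union_of_subset hW, Ex_union sdiff_disjoint, Ex_union sdiff_disjoint,
    ← Ex_const (ρ := al) (U := PI 1 (x + 1) \ Ws J s) (κ * _ + _), ← Ex_add]
  refine Ex_mono hρ fun o ho => ?_
  have ho' : Disjoint o (Ws J s) := disjoint_of_subset_left ho sdiff_disjoint
  rw [ClassFlat_inner hJ hW ho', ClassFlat_inner hJ hW ho']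
  have hb := box_count (A := cx x o) (lo := lo) (hi := hi) (ks := ks) hJ hN (card_Ws_le J s)
    (l := l) (Z := (((s.2 - s.1 - 1) * J : ℕ) : ℝ)) (c1 := K - ∑ u ∈ Ws J s, al u * 1)
    (c2 := n - (((s.1 + 1) * J : ℕ) : ℝ) * K -
      ∑ u ∈ Ws J s, al u * ((u : ℝ) - (((s.1 + 1) * J : ℕ) : ℝ)))
    (y := (((s.1 + 1) * J : ℕ) : ℝ)) hl.le (Nat.cast_nonneg _)
  rw [ClassFlat_sum_ind] at hb
  have hc : ((ends (cx x o) lo hi J ks s).card : ℝ) ≤ (J : ℝ) ^ 2 := by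
    exact_mod_cast card_ends_le (cx x o) lo hi hJ ks s
  have he : 0 < Real.exp (-(l ^ 2 / (4 * (Ws J s).card))) := Real.exp_pos _
  refine le_trans ?_ (add_le_add le_rfl (add_le_add (mul_le_mul_of_nonneg_left hb hκ)
    (mul_le_mul_of_nonneg_right hc (by positivity))))
  rw [← nsmul_eq_mul (ends (cx x o) lo hi J ks s).card, ← sum_const, mul_sum,
    ← sum_add_distrib, ← sum_add_distrib]
  refine sum_le_sum fun p _ => ?_
  have hcast : ((n - h' : ℕ) : ℤ) - bsum (cx x o) p.1 p.2 =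
      (n : ℤ) - bsum (cx x o) p.1 p.2 - h' := by omega
  rw [hcast]
  by_cases hp : |(bcard (cx x o) p.1 p.2 : ℝ) - (K - ∑ u ∈ Ws J s, al u * 1)| ≤ l ∧
      |(bsum (cx x o) p.1 p.2 : ℝ) - (((s.1 + 1) * J : ℕ) : ℝ) * bcard (cx x o) p.1 p.2 -
        (n - (((s.1 + 1) * J : ℕ) : ℝ) * K -
          ∑ u ∈ Ws J s, al u * ((u : ℝ) - (((s.1 + 1) * J : ℕ) : ℝ)))| ≤
        l * (((s.2 - s.1 - 1) * J : ℕ) : ℝ)
  · rw [ind_pos hp]
    have := hflat ((K : ℤ) - bcard (cx x o) p.1 p.2) ((n : ℤ) - bsum (cx x o) p.1 p.2)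
    linarith only [this, he]
  · rw [ind_neg hp]
    have h1 := ClassFlat_tail hρ Ws_subset hZ hl hl2 K n _ _ hp
    have h2 := ClassFlat_PW_nonneg hρ (Ws J s) ((K : ℤ) - bcard (cx x o) p.1 p.2)
      ((n : ℤ) - bsum (cx x o) p.1 p.2 - h')
    linarith only [h1, h2, he]

end Pool.Agent.Work.MP_9a1701_nt.P
end

-- merged part: Pool.Agent.Work.MP_9a1701_nt.T.Base
section
/-!
# Blocks of one class against the base block
-/

set_option autoImplicit false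
open Finset Filter

namespace Pool.Agent.Work.MP_9a1701_nt.P

variable {A : Set ℕ}

lemma Base_cnt (hA : A.Infinite) (z : ℕ) : ∃ c, ∀ j, j < c ↔ dd A j < z := by
  classical
  exact ⟨Nat.count (fun t => t ∈ A) z, fun j => Nat.lt_nth_iff_count_lt (p := fun t => t ∈ A) hA⟩

lemma Base_surj {t : ℕ} (ht : t ∈ A) : ∃ j, dd A j = t := by
  classical
  exact ⟨Nat.count (fun t => t ∈ A) t, Nat.nth_count (p := fun t => t ∈ A) ht⟩

lemma Base_S (hA : A.Infinite) {a b c c' : ℕ} (l1 : ∀ j, j < c ↔ dd A j < a)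
    (l2 : ∀ j, j < c' ↔ dd A j < b + 1) : Blk1_S A a b = (Ico c c').image (dd A) := by
  ext t
  rw [Blk1_mem, mem_image]
  constructor
  · rintro ⟨t1, t2, ht⟩
    obtain ⟨j, rfl⟩ := Base_surj ht
    have b1 := l1 j
    have b2 := l2 j
    exact ⟨j, mem_Ico.2 ⟨by omega, by omega⟩, rfl⟩
  · rintro ⟨j, hj, rfl⟩
    have b0 := mem_Ico.1 hj
    have b1 := l1 j
    have b2 := l2 j
    exact ⟨by omega, by omega, dd_mem hA _⟩

lemma Base_card (hA : A.Infinite) {a b c c' : ℕ} (l1 : ∀ j, j < c ↔ dd A j < a)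
    (l2 : ∀ j, j < c' ↔ dd A j < b + 1) : bcard A a b = c' - c := by
  rw [Blk1_bcard, Base_S hA l1 l2, card_image_of_injective _ (dd_strictMono hA).injective,
    Nat.card_Ico]

lemma Base_lt (hA : A.Infinite) (i j : ℕ) : j < i ↔ dd A j < dd A i :=
  (dd_strictMono hA).lt_iff_lt.symm

lemma Base_le (hA : A.Infinite) (i j : ℕ) : j < i + 1 ↔ dd A j < dd A i + 1 := by
  rw [Nat.lt_succ_iff, Nat.lt_succ_iff]
  exact (dd_strictMono hA).le_iff_le.symm

lemma idx_eq (hA : A.Infinite) {K i t : ℕ} (hK : 1 ≤ K) (h1 : TT A K i ≤ t)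
    (h2 : t < TT A K (i + 1)) : idx A K t = i := by
  have hm := TT_strictMono hA hK
  have h3 : i ≤ TT A K i := hm.le_apply
  unfold idx
  rw [Nat.findGreatest_eq_iff]
  refine ⟨by omega, fun _ => h1, fun m hm1 _ => ?_⟩
  have h4 := hm.monotone (show i + 1 ≤ m from hm1)
  omega

/-- The index form of `Phi_mono` (see its proof in `P/Enum`). -/
lemma idx_mono (hA : A.Infinite) {K k h t t' j : ℕ} (hK : 1 ≤ K) (hk : 2 * h ≤ k)
    (h1 : t' * K ≤ t * (K + k)) (h2 : t * (K + k) ≤ t' * K + h * K * (K + k))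
    (h3 : TT A (K + k) j ≤ t') (h4 : t' < TT A (K + k) (j + 1)) :
    ∃ i, j ≤ i ∧ i ≤ j + k ∧ TT A K i ≤ t ∧ t < TT A K (i + 1) := by
  have hm := TT_strictMono hA hK
  have hK' : 1 ≤ K + k := by omega
  have a1 : TT A K j ≤ t := by
    have b1 := Enum_TT_add A K k j
    have b2 := Enum_TT_up hA K j
    have b3 := Enum_TT_low hA k (j + K)
    have b4 : k * TT A K j ≤ K * TT A k (j + K) := by
      have c1 : TT A K j ≤ K * dd A (j + K) := by omega
      have c2 : k * dd A (j + K) ≤ TT A k (j + K) := by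
        have c3 : k ≤ k * k := Nat.le_mul_self k
        omega
      calc k * TT A K j ≤ k * (K * dd A (j + K)) := Nat.mul_le_mul_left _ c1
        _ = K * (k * dd A (j + K)) := by ring
        _ ≤ _ := Nat.mul_le_mul_left _ c2
    have b5 : K * TT A (K + k) j ≤ K * t' := Nat.mul_le_mul_left _ h3
    refine Nat.le_of_mul_le_mul_left (c := K + k) ?_ hK'
    rw [b1] at b5
    nlinarith
  have a2 : t < TT A K (j + 1 + k) := by
    have b1 := Enum_TT_add A k K (j + 1)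
    have b2 := Enum_TT_up hA k (j + 1)
    have b3 := Enum_TT_low hA K (j + 1 + k)
    rw [add_comm k K] at b1
    have b5 : K * t' < K * TT A (K + k) (j + 1) := Nat.mul_lt_mul_of_pos_left h4 hK
    rw [b1] at b5
    generalize TT A k (j + 1) = X at *
    generalize TT A K (j + 1 + k) = Y at *
    generalize dd A (j + 1 + k) = M at *
    have c1 := Nat.mul_le_mul_left K b2
    have c2 := Nat.mul_le_mul_left k b3
    have c3 := Nat.mul_le_mul_right (K * (K + k)) hk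
    refine Nat.lt_of_mul_lt_mul_left (a := K + k) ?_
    nlinarith
  rcases Phi_cases hA hK t with ⟨h0, -⟩ | ⟨i, i1, i2⟩
  · have := hm.monotone (Nat.zero_le j)
    omega
  have a3 := hm.lt_iff_lt.1 (a1.trans_lt i2)
  have a4 := hm.lt_iff_lt.1 (i1.trans_lt a2)
  exact ⟨i, by omega, by omega, i1, i2⟩

/-- A block is an index: `j` is the number of elements of `A` below `a`. -/
lemma block_index (hA : A.Infinite) {a b K : ℕ} (hab : a ≤ b) (ha : a ∈ A) (hb : b ∈ A)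
    (hc : bcard A a b = K) : ∃ j, dd A j = a ∧ dd A (j + K - 1) = b ∧ TT A K j = bsum A a b := by
  obtain ⟨j, rfl⟩ := Base_surj ha
  obtain ⟨j', rfl⟩ := Base_surj hb
  have h1 : j ≤ j' := (dd_strictMono hA).le_iff_le.1 hab
  have h2 := Base_card hA (Base_lt hA j) (Base_le hA j')
  rw [hc] at h2
  refine ⟨j, rfl, by rw [show j + K - 1 = j' by omega], ?_⟩
  rw [Blk1_bsum, Base_S hA (Base_lt hA j) (Base_le hA j'),
    sum_image fun i _ i' _ h => (dd_strictMono hA).injective h, sum_Ico_eq_sum_range, ← h2, TT]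

/-- More than `ks` points in both end segments. -/
lemma nonEdge_seg (hA : A.Infinite) {J ks j K : ℕ} (hJ : 1 ≤ J) (hK : 1 ≤ K)
    (h : NonEdge A J ks (dd A j, dd A (j + K - 1))) :
    (∀ i, j ≤ i → i ≤ j + ks → dd A i / J = dd A j / J) ∧
      ∀ i, i ≤ j + K - 1 → j + K - 1 ≤ i + ks → dd A i / J = dd A (j + K - 1) / J := by
  obtain ⟨h1, h2⟩ := h
  have hm := (dd_strictMono hA).monotone
  constructor
  · intro i i1 i2
    obtain ⟨c', l2⟩ := Base_cnt hA ((dd A j / J + 1) * J - 1 + 1)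
    rw [Base_card hA (Base_lt hA j) l2] at h1
    have b1 := (l2 i).1 (by omega)
    have b2 : 1 ≤ (dd A j / J + 1) * J := Nat.mul_pos (Nat.succ_pos _) hJ
    have b3 : dd A i / J < dd A j / J + 1 := (Nat.div_lt_iff_lt_mul hJ).2 (by omega)
    have b4 : dd A j / J ≤ dd A i / J := Nat.div_le_div_right (hm i1)
    omega
  · intro i i1 i2
    obtain ⟨c, l1⟩ := Base_cnt hA (dd A (j + K - 1) / J * J)
    rw [Base_card hA l1 (Base_le hA (j + K - 1))] at h2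
    have b1 := mt (l1 i).2 (by omega)
    have b3 : dd A (j + K - 1) / J ≤ dd A i / J := (Nat.le_div_iff_mul_le hJ).2 (by omega)
    have b4 : dd A i / J ≤ dd A (j + K - 1) / J := Nat.div_le_div_right (hm i1)
    omega

/-- (C5), counting. Order the blocks by their index `j`; all but the last satisfy
`n - M < TT j`, `TT (j + 1) ≤ n`, so `idx_mono` with `t' = TT j` shows that the base block at `t`
has class `s` and a gap at most `TT (j + 1) - TT j`; these gaps add up to at most `M`. -/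
theorem count_window (hA : A.Infinite) {lo hi J ks K0 k h t n M : ℕ} {s : ℕ × ℕ} (hJ : 1 ≤ J)
    (hK0 : 1 ≤ K0) (hk : 2 * h ≤ k) (hks : k ≤ ks) (h1 : n * K0 ≤ t * (K0 + k))
    (h2 : t * (K0 + k) + M * K0 ≤ n * K0 + h * K0 * (K0 + k)) :
    ∑ n' ∈ Ioc (n - M) n, (cntS A lo hi J ks s (K0 + k) n' : ℝ) ≤
      1 + M * (Phi A K0 t * ind (cls A K0 J t = s)) := by
  classical
  have hK : 1 ≤ K0 + k := by omega
  have hm := TT_strictMono hA hK
  obtain ⟨I, hI⟩ : ∃ I : Finset ℕ, ∀ j, j ∈ I ↔ (n - M < TT A (K0 + k) j ∧ TT A (K0 + k) j ≤ n) ∧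
      (dd A j / J, dd A (j + (K0 + k) - 1) / J) = s ∧
      NonEdge A J ks (dd A j, dd A (j + (K0 + k) - 1)) := by
    refine ⟨(range (n + 1)).filter fun j => (n - M < TT A (K0 + k) j ∧ TT A (K0 + k) j ≤ n) ∧
      (dd A j / J, dd A (j + (K0 + k) - 1) / J) = s ∧
      NonEdge A J ks (dd A j, dd A (j + (K0 + k) - 1)), fun j => ?_⟩
    rw [mem_filter, mem_range]
    refine ⟨fun h => h.2, fun h => ⟨?_, h⟩⟩
    have h3 : j ≤ TT A (K0 + k) j := hm.le_apply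
    have h4 := h.1.2
    omega
  have e1 : ∑ n' ∈ Ioc (n - M) n, cntS A lo hi J ks s (K0 + k) n' ≤ I.card := by
    rw [card_eq_sum_card_fiberwise (f := TT A (K0 + k)) (s := I) (t := Ioc (n - M) n)
      fun j hj => mem_coe.2 (mem_Ioc.2 ((hI j).1 (mem_coe.1 hj)).1)]
    refine sum_le_sum fun n' hn' => ?_
    unfold cntS
    refine le_trans (card_le_card ?_) (card_image_le
      (f := fun j => (dd A j, dd A (j + (K0 + k) - 1))))
    intro p hp
    obtain ⟨p1, p2, p3, p4, p5⟩ := mem_filter.1 hp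
    obtain ⟨-, q2, -, q4, q5⟩ := mem_blk.1 p1
    obtain ⟨j, j1, j2, j3⟩ := block_index hA q2 q4 q5 p2
    refine mem_image.2 ⟨j, mem_filter.2 ⟨(hI j).2 ?_, j3.trans p3⟩, by rw [j1, j2]⟩
    rw [j1, j2, j3, p3]
    exact ⟨mem_Ioc.1 hn', p4, p5⟩
  have e2 : (I.filter fun j => ¬ TT A (K0 + k) (j + 1) ≤ n).card ≤ 1 := by
    refine card_le_one.2 fun i hi j hj => ?_
    obtain ⟨i1, i2⟩ := mem_filter.1 hi
    obtain ⟨j1, j2⟩ := mem_filter.1 hj
    have b1 := hm.lt_iff_lt.1 (((hI i).1 i1).1.2.trans_lt (not_le.1 j2))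
    have b2 := hm.lt_iff_lt.1 (((hI j).1 j1).1.2.trans_lt (not_le.1 i2))
    omega
  have e3 : ∑ j ∈ I.filter fun j => TT A (K0 + k) (j + 1) ≤ n,
      (TT A (K0 + k) (j + 1) - TT A (K0 + k) j) ≤ M := by
    have b1 := card_biUnion (s := I.filter fun j => TT A (K0 + k) (j + 1) ≤ n)
      (t := fun j => Ico (TT A (K0 + k) j) (TT A (K0 + k) (j + 1))) fun i _ j _ hij =>
        disjoint_left.2 fun u u1 u2 => by
          have c1 := mem_Ico.1 u1
          have c2 := mem_Ico.1 u2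
          have c3 := hm.lt_iff_lt.1 (c1.1.trans_lt c2.2)
          have c4 := hm.lt_iff_lt.1 (c2.1.trans_lt c1.2)
          omega
    simp only [Nat.card_Ico] at b1
    rw [← b1]
    refine (card_le_card (t := Ioc (n - M) n) (biUnion_subset.2 fun j hj u hu => ?_)).trans ?_
    · obtain ⟨j1, j2⟩ := mem_filter.1 hj
      have c1 := ((hI j).1 j1).1.1
      have c2 := mem_Ico.1 hu
      exact mem_Ioc.2 ⟨by omega, by omega⟩
    · rw [Nat.card_Ioc]
      omega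
  have hF : 0 ≤ Phi A K0 t * ind (cls A K0 J t = s) :=
    mul_nonneg (Phi_nonneg hA hK0 t) (ind_nonneg _)
  have e4 : ∀ j ∈ I.filter fun j => TT A (K0 + k) (j + 1) ≤ n, (1 : ℝ) ≤
      ((TT A (K0 + k) (j + 1) - TT A (K0 + k) j : ℕ) : ℝ) *
        (Phi A K0 t * ind (cls A K0 J t = s)) := by
    intro j hj
    obtain ⟨⟨j1, j2⟩, j3, j4⟩ := (hI j).1 (mem_filter.1 hj).1
    have c1 := Nat.mul_le_mul_right K0 j2
    have c2 := Nat.mul_le_mul_right K0 (show n ≤ TT A (K0 + k) j + M by omega)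
    rw [add_mul] at c2
    obtain ⟨i, i1, i2, i3, i4⟩ := idx_mono hA hK0 hk (c1.trans h1) (by omega) le_rfl
      (hm (Nat.lt_succ_self j))
    obtain ⟨s1, s2⟩ := nonEdge_seg hA hJ hK j4
    have c3 : cls A K0 J t = s := by
      rw [cls, idx_eq hA hK0 i3 i4, s1 i i1 (by omega), s2 (i + K0 - 1) (by omega) (by omega), j3]
    have c4 := TT_succ A (K0 + k) j
    have c5 := (dd_strictMono hA).monotone i1
    have c6 := (dd_strictMono hA).monotone (show i + K0 ≤ j + (K0 + k) by omega)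
    have c7 := dd_strictMono hA (show i < i + K0 by omega)
    have c8 : (0 : ℝ) < (dd A (i + K0) : ℝ) - dd A i := sub_pos.2 (by exact_mod_cast c7)
    rw [ind_pos c3, mul_one, Phi_eq hA hK0 i3 i4, mul_one_div, one_le_div c8,
      ← Nat.cast_sub c7.le, Nat.cast_le]
    omega
  have e5 := card_nsmul_le_sum _ _ _ e4
  rw [← sum_mul, nsmul_eq_mul, mul_one, ← Nat.cast_sum] at e5
  have e6 := mul_le_mul_of_nonneg_right (Nat.cast_le (α := ℝ).2 e3) hF
  have e7 := card_filter_add_card_filter_not (s := I) fun j => TT A (K0 + k) (j + 1) ≤ n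
  have e8 : ((∑ n' ∈ Ioc (n - M) n, cntS A lo hi J ks s (K0 + k) n' : ℕ) : ℝ) ≤
      ((1 + (I.filter fun j => TT A (K0 + k) (j + 1) ≤ n).card : ℕ) : ℝ) :=
    Nat.cast_le.2 (by omega)
  rw [Nat.cast_sum, Nat.cast_add, Nat.cast_one] at e8
  linarith

/-- All elements of the block outside the window are primes of the end segments. -/
theorem res_class {x lo hi J rr ks K n : ℕ} {s : ℕ × ℕ} (hJ : 1 ≤ J) (hhi : hi ≤ x + 1)
    (hs : s.1 < s.2) (hC : Clean J rr s) {Q : Finset ℕ} (hQ : Q ⊆ PI 1 (x + 1))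
    (h : cntS (cx x Q) lo hi J ks s K n ≠ 0) :
    ((ty J rr s).1 : ℤ) ∣ sig J rr s Q + (ty J rr s).2 * K - n := by
  classical
  unfold cntS at h
  obtain ⟨p, hp⟩ := card_ne_zero.1 h
  obtain ⟨p1, p2, p3, p4, -⟩ := mem_filter.1 hp
  obtain ⟨-, q2, q3, -, -⟩ := mem_blk.1 p1
  have s1 : p.1 / J = s.1 := congrArg Prod.fst p4
  have s2 : p.2 / J = s.2 := congrArg Prod.snd p4
  have a1 : p.1 < (s.1 + 1) * J := (Nat.div_lt_iff_lt_mul hJ).1 (by omega)
  have a2 : s.2 * J ≤ p.2 := (Nat.le_div_iff_mul_le hJ).1 s2.ge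
  have hsub : Q ∩ Ws J s ⊆ Blk1_S (cx x Q) p.1 p.2 := fun u hu => by
    obtain ⟨u1, u2⟩ := mem_inter.1 hu
    obtain ⟨u3, u4, -⟩ := mem_PI.1 u2
    exact Blk1_mem.2 ⟨by omega, by omega, mem_cx.2 (Or.inr u1)⟩
  have e1 : ∑ u ∈ Blk1_S (cx x Q) p.1 p.2, ((u : ℤ) - (ty J rr s).2) =
      n - (ty J rr s).2 * K := by
    rw [sum_sub_distrib, sum_const, nsmul_eq_mul, ← Blk1_bcard, p2, ← Nat.cast_sum, ← Blk1_bsum,
      p3, mul_comm]
  have e2 := sum_sdiff (f := fun u : ℕ => (u : ℤ) - (ty J rr s).2) hsub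
  have e3 : ((ty J rr s).1 : ℤ) ∣
      ∑ u ∈ Blk1_S (cx x Q) p.1 p.2 \ (Q ∩ Ws J s), ((u : ℤ) - (ty J rr s).2) := by
    refine dvd_sum fun u hu => ?_
    obtain ⟨u1, u2⟩ := mem_sdiff.1 hu
    obtain ⟨u3, u4, u5⟩ := Blk1_mem.1 u1
    have u6 : u ∈ Q := (mem_cx.1 u5).resolve_left (by omega)
    have u7 := (mem_PI.1 (hQ u6)).2.2
    have u8 : ¬ ((s.1 + 1) * J ≤ u ∧ u < s.2 * J) := fun k =>
      u2 (mem_inter.2 ⟨u6, mem_PI.2 ⟨k.1, k.2, u7⟩⟩)
    have b1 : p.1 / J ≤ u / J := Nat.div_le_div_right u3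
    have b2 : u / J ≤ p.2 / J := Nat.div_le_div_right u4
    have b3 := Nat.div_lt_iff_lt_mul (x := u) (y := s.1 + 1) hJ
    have b4 := Nat.le_div_iff_mul_le (x := s.2) (y := u) hJ
    exact (hC u u7 (by omega)).symm.dvd
  have e4 : sig J rr s Q + (ty J rr s).2 * K - n =
      -∑ u ∈ Blk1_S (cx x Q) p.1 p.2 \ (Q ∩ Ws J s), ((u : ℤ) - (ty J rr s).2) := by
    unfold sig
    linarith
  rw [e4]
  exact e3.neg_right

end Pool.Agent.Work.MP_9a1701_nt.P
end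

-- merged part: Pool.Agent.Work.MP_9a1701_nt.T.GoodPt
section
/-!
# The pointwise bound for good blocks
-/

set_option autoImplicit false
open Finset Filter

namespace Pool.Agent.Work.MP_9a1701_nt.P

variable {al : ℕ → ℝ} {x rr w K1 : ℕ}

lemma GoodPt_par (hP : Par x rr w K1) :
    10 * rr ^ 24 ≤ w ∧ 2 * w ≤ K1 ∧ w * rr ≤ K1 ∧ 2 * rr ≤ K1 ∧ 1 ≤ w := by
  have h8 := hP.h8
  have h0 : 0 < rr := by omega
  have h1 : rr ^ 189 ≤ w := by
    refine Nat.le_of_mul_le_mul_right (c := rr ^ 10) ?_ (by positivity)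
    rw [← pow_add]
    exact hP.big.trans hP.hi
  have h2 : 10 * rr ^ 24 ≤ rr ^ 189 := by
    calc 10 * rr ^ 24 ≤ rr ^ 2 * rr ^ 24 := Nat.mul_le_mul_right _ (by nlinarith)
      _ = rr ^ 26 := by rw [← pow_add]
      _ ≤ rr ^ 189 := Nat.pow_le_pow_right h0 (by norm_num)
  have h3 : rr ≤ rr ^ 9 := Nat.le_self_pow (by norm_num) rr
  have h4 : w * rr ≤ K1 := (Nat.mul_le_mul_left w h3).trans hP.lo
  have h5 : 1 ≤ rr ^ 24 := Nat.one_le_pow _ _ h0
  have h6 : 2 * w ≤ K1 := by nlinarith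
  have h7 : 2 * rr ≤ K1 := by nlinarith
  exact ⟨h2.trans h1, h6, h4, h7, by omega⟩

lemma GoodPt_om_nonneg (J K1 rr : ℕ) (s : ℕ × ℕ) (Q : Finset ℕ) (K n : ℕ) :
    0 ≤ om J K1 rr s Q K n :=
  mul_nonneg (Nat.cast_nonneg _) (ind_nonneg _)

lemma GoodPt_ex {A : Set ℕ} {lo hi J ks K n : ℕ} {s : ℕ × ℕ} (hJ : 1 ≤ J)
    (h : cntS A lo hi J ks s K n ≠ 0) : lo < (s.1 + 1) * J ∧ s.2 * J < hi := by
  classical
  obtain ⟨p, hp⟩ := card_ne_zero.1 h
  obtain ⟨h1, -, -, rfl, -⟩ := mem_filter.1 hp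
  rw [mem_blk] at h1
  have a := Nat.lt_mul_div_succ p.1 hJ
  have b := Nat.div_mul_le_self p.2 J
  rw [mul_comm] at a
  exact ⟨h1.1.trans_lt a, b.trans_lt h1.2.2.1⟩

/-- The pointwise bound for the sum over the shifts. -/
lemma GoodPt_shift (hP : Par x rr w K1) {lo hi K n m Hav : ℕ} (hhi : hi ≤ x + 1)
    (hK : K ∈ Ioc K1 (K1 + w)) (hn : 4 * K1 * rr ^ 24 ≤ n) (hH : Hav ≤ K1 * rr ^ 8)
    (h1 : n < K * m) (h2 : K * m ≤ n + Hav) {s : ℕ × ℕ} (hs : GoodC (w * rr) K1 rr s)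
    (hlt : s.1 < s.2) {Q : Finset ℕ} (hQ : Q ⊆ PI 1 (x + 1)) :
    ∑ j ∈ range (K1 * rr ^ 23),
        (cntS (cx x Q) lo hi (w * rr) (2 * w) s K (n - (ty (w * rr) rr s).1 * j) : ℝ) ≤
      1 + (K1 * rr ^ 23 : ℕ) * (Phi (cx x Q) (K1 - w) ((K1 - w) * m) *
          ind (cls (cx x Q) (K1 - w) (w * rr) ((K1 - w) * m) = s) *
          om (w * rr) K1 rr s Q K n) := by
  obtain ⟨p1, p2, p3, p4, p5⟩ := GoodPt_par hP
  obtain ⟨⟨q1, q2, -⟩, -⟩ := ty_spec hP hs.1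
  obtain ⟨k1, k2⟩ := mem_Ioc.1 hK
  have h8 := hP.h8
  have hJ : 1 ≤ w * rr := Nat.mul_pos p5 (by omega)
  have hK0 : 1 ≤ K1 - w := by omega
  have hM : (ty (w * rr) rr s).1 * (K1 * rr ^ 23) ≤ 4 * K1 * rr ^ 24 :=
    (Nat.mul_le_mul_right _ q2).trans (le_of_eq (by ring))
  by_cases hD : ((ty (w * rr) rr s).1 : ℤ) ∣ sig (w * rr) rr s Q + (ty (w * rr) rr s).2 * K - n
  · have e : om (w * rr) K1 rr s Q K n = (ty (w * rr) rr s).1 := by
      rw [om, ind_pos ⟨hs, hD⟩, mul_one]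
    rw [e]
    generalize (ty (w * rr) rr s).1 = q at *
    obtain ⟨k, rfl⟩ : ∃ k, K = K1 - w + k := ⟨K - (K1 - w), by omega⟩
    have c := count_window (cx_infinite x Q) (lo := lo) (hi := hi) (ks := 2 * w) (k := k)
      (h := 5 * rr ^ 24) (t := (K1 - w) * m) (n := n) (M := q * (K1 * rr ^ 23)) (s := s) hJ hK0
      (by omega) (by omega)
      (by
        calc n * (K1 - w) ≤ (K1 - w + k) * m * (K1 - w) := Nat.mul_le_mul_right _ h1.le
          _ = _ := by ring)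
      (by
        have a1 : rr ^ 8 ≤ rr ^ 24 := Nat.pow_le_pow_right (by omega) (by norm_num)
        have a2 : K1 * rr ^ 8 ≤ K1 * rr ^ 24 := Nat.mul_le_mul_left _ a1
        have a3 : K1 * rr ^ 24 ≤ (K1 - w + k) * rr ^ 24 := Nat.mul_le_mul_right _ k1.le
        have a4 : (K1 - w + k) * m + q * (K1 * rr ^ 23) ≤ n + 5 * rr ^ 24 * (K1 - w + k) := by
          nlinarith
        calc _ = ((K1 - w + k) * m + q * (K1 * rr ^ 23)) * (K1 - w) := by ring
          _ ≤ (n + 5 * rr ^ 24 * (K1 - w + k)) * (K1 - w) := Nat.mul_le_mul_right _ a4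
          _ = _ := by ring)
    refine le_trans ?_ (c.trans (le_of_eq ?_))
    · have hi' : ∀ j ∈ range (K1 * rr ^ 23), q * j < q * (K1 * rr ^ 23) := fun j hj =>
        Nat.mul_lt_mul_of_pos_left (mem_range.1 hj) q1
      rw [← sum_image (s := range (K1 * rr ^ 23)) (g := fun j => n - q * j)
        (f := fun n' => (cntS (cx x Q) lo hi (w * rr) (2 * w) s (K1 - w + k) n' : ℝ))]
      · refine sum_le_sum_of_subset_of_nonneg (fun n' hn' => ?_) fun _ _ _ => Nat.cast_nonneg _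
        obtain ⟨j, hj, rfl⟩ := mem_image.1 hn'
        have := hi' j hj
        exact mem_Ioc.2 ⟨by omega, by omega⟩
      · intro j hj j' hj' he
        have a := hi' j (mem_coe.1 hj)
        have b := hi' j' (mem_coe.1 hj')
        have c : q * j = q * j' := by
          simp only at he
          omega
        exact Nat.eq_of_mul_eq_mul_left q1 c
    · push_cast
      ring
  · rw [sum_eq_zero fun j hj => ?_]
    · exact add_nonneg zero_le_one (mul_nonneg (Nat.cast_nonneg _) (mul_nonneg (mul_nonneg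
        (Phi_nonneg (cx_infinite x Q) hK0 _) (ind_nonneg _)) (GoodPt_om_nonneg _ _ _ _ _ _ _)))
    by_contra hc
    have a := res_class hJ hhi hlt hs.2 hQ (Nat.cast_ne_zero.1 hc)
    have b : (ty (w * rr) rr s).1 * j ≤ n :=
      (Nat.mul_le_mul_left _ (mem_range.1 hj).le).trans (hM.trans hn)
    rw [Nat.cast_sub b, Nat.cast_mul] at a
    have c := dvd_sub a (dvd_mul_right ((ty (w * rr) rr s).1 : ℤ) j)
    exact hD (by rwa [show ∀ u v z : ℤ, u - (v - z) - z = u - v from fun u v z => by ring] at c)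

/-- One good class. If `lo < (s.1 + 1) J` and `s.2 J ≤ x` fail the count vanishes. Otherwise
average `class_flat` (with `flat_reg`, `err_le`, `l = 2 √(N rr)`) over `h' = q j`,
`j < H = K1 rr ^ 23`; `res_class` and `count_window` with `K0 = K1 - w`, `k = K - K0 ≤ 2 w`,
`h = 5 rr ^ 24`, `t = K0 m`, `M = q H`. -/
theorem class_point (hρ : Prob al) (hP : Par x rr w K1) {lo hi K n m Hav : ℕ} (hhi : hi ≤ x + 1)
    (hε : ∀ u : ℕ, u.Prime → lo ≤ u → u ≤ x → 1 / (rr : ℝ) ≤ al u * (1 - al u))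
    (hK : K ∈ Ioc K1 (K1 + w)) (hn : 4 * K1 * rr ^ 24 ≤ n) (hH : Hav ≤ K1 * rr ^ 8)
    (h1 : n < K * m) (h2 : K * m ≤ n + Hav) {s : ℕ × ℕ} (hs : GoodC (w * rr) K1 rr s) :
    Ex al (PI 1 (x + 1)) (fun Q => (cntS (cx x Q) lo hi (w * rr) (2 * w) s K n : ℝ)) ≤
      2 / ((K1 : ℝ) * (rr : ℝ) ^ 23) + Ex al (PI 1 (x + 1)) fun Q =>
        Phi (cx x Q) (K1 - w) ((K1 - w) * m) *
          ind (cls (cx x Q) (K1 - w) (w * rr) ((K1 - w) * m) = s) *
          om (w * rr) K1 rr s Q K n := by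
  obtain ⟨p1, p2, p3, p4, p5⟩ := GoodPt_par hP
  have h8 := hP.h8
  have hx := hP.lex
  have hJ : 1 ≤ w * rr := Nat.mul_pos p5 (by omega)
  have hK0 : 1 ≤ K1 - w := by omega
  have hH0 : 0 < K1 * rr ^ 23 := Nat.mul_pos (by omega) (Nat.pow_pos (by omega))
  have hH1 : (0 : ℝ) < (K1 : ℝ) * (rr : ℝ) ^ 23 := by exact_mod_cast hH0
  by_cases hv : lo < (s.1 + 1) * (w * rr) ∧ s.2 * (w * rr) < hi
  swap
  · refine (Ex_le_const hρ (c := 0) fun Q _ => ?_).trans (add_nonneg (by positivity)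
      (Ex_nonneg hρ fun Q _ => mul_nonneg (mul_nonneg (Phi_nonneg (cx_infinite x Q) hK0 _)
        (ind_nonneg _)) (GoodPt_om_nonneg _ _ _ _ _ _ _)))
    by_contra hc
    exact hv (GoodPt_ex hJ fun h0 => hc (by rw [h0, Nat.cast_zero]))
  obtain ⟨v1, v2⟩ := hv
  obtain ⟨r1, r2⟩ := hs.1
  obtain ⟨⟨q1, q2, -⟩, -⟩ := ty_spec hP hs.1
  have hN : 1 ≤ (Ws (w * rr) s).card := by omega
  have hW : Ws (w * rr) s ⊆ PI 1 (x + 1) := fun u hu => by
    obtain ⟨-, b, c⟩ := mem_PI.1 hu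
    exact mem_PI.2 ⟨c.one_le, by omega, c⟩
  have hNx : (Ws (w * rr) s).card ≤ x := by
    refine (card_le_card (hW.trans (filter_subset _ _))).trans ?_
    simp
  have hlt : s.1 < s.2 := by
    obtain ⟨u, hu⟩ := card_pos.1 hN
    obtain ⟨a, b, -⟩ := mem_PI.1 hu
    have := Nat.lt_of_mul_lt_mul_right (a.trans_lt b)
    omega
  have hε' : ∀ u ∈ Ws (w * rr) s, 1 / (rr : ℝ) ≤ al u * (1 - al u) := fun u hu => by
    obtain ⟨a, b, c⟩ := mem_PI.1 hu
    exact hε u c (by omega) (by omega)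
  have hN0 : (0 : ℝ) < (Ws (w * rr) s).card := by exact_mod_cast hN
  have hr0 : (0 : ℝ) < rr := by exact_mod_cast (show 0 < rr by omega)
  have hl2 : 2 * √(((Ws (w * rr) s).card : ℝ) * rr) ≤ 2 * (Ws (w * rr) s).card := by
    have a : (rr : ℝ) ≤ (Ws (w * rr) s).card := by
      exact_mod_cast (show rr ≤ (Ws (w * rr) s).card by omega)
    refine mul_le_mul_of_nonneg_left (Real.sqrt_le_iff.2 ⟨hN0.le, ?_⟩) zero_le_two
    rw [sq]
    exact mul_le_mul_of_nonneg_left a hN0.le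
  have step : ∀ j ∈ range (K1 * rr ^ 23),
      Ex al (PI 1 (x + 1)) (fun Q => (cntS (cx x Q) lo hi (w * rr) (2 * w) s K n : ℝ)) ≤
        Ex al (PI 1 (x + 1)) (fun Q => (cntS (cx x Q) lo hi (w * rr) (2 * w) s K
          (n - (ty (w * rr) rr s).1 * j) : ℝ)) + 1 / ((K1 : ℝ) * (rr : ℝ) ^ 23) := by
    intro j hj
    have b : (ty (w * rr) rr s).1 * j ≤ n :=
      (Nat.mul_le_mul q2 (mem_range.1 hj).le).trans (le_trans (le_of_eq (by ring)) hn)
    exact (class_flat hρ hJ hW hN (by positivity) (by positivity) hl2 b fun k σ =>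
      flat_reg hρ hP hs.1 hε' k σ (mem_range.1 hj).le).trans
      (add_le_add le_rfl (err_le hP r1 r2 hNx (p3.trans hx)))
  have t1 := sum_le_sum step
  rw [sum_const, sum_add_distrib, sum_const, Finset.card_range, nsmul_eq_mul, nsmul_eq_mul,
    ← Ex_sum] at t1
  have t2 := Ex_mono (U := PI 1 (x + 1)) hρ fun Q hQ =>
    GoodPt_shift (lo := lo) hP hhi hK hn hH h1 h2 hs hlt hQ
  rw [Ex_add, Ex_const, Ex_const_mul] at t2
  have t3 := t1.trans (add_le_add t2 le_rfl)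
  push_cast at t3
  rw [mul_one_div_cancel hH1.ne'] at t3
  refine le_of_mul_le_mul_left (t3.trans (le_of_eq ?_)) hH1
  rw [mul_add, mul_div_cancel₀ _ hH1.ne']
  ring

/-- A block with `K` elements and sum `n` has `a ≤ n / K ≤ b`; a regular class has
`s.2 - s.1 - 1 ≤ rr ^ 10`; so at most `(rr ^ 10 + 2) ^ 2 ≤ 4 rr ^ 20` classes occur. -/
theorem good_point (hρ : Prob al) (hP : Par x rr w K1) {lo hi K n m Hav : ℕ} (hhi : hi ≤ x + 1)
    (hε : ∀ u : ℕ, u.Prime → lo ≤ u → u ≤ x → 1 / (rr : ℝ) ≤ al u * (1 - al u))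
    (hK : K ∈ Ioc K1 (K1 + w)) (hn : 4 * K1 * rr ^ 24 ≤ n) (hH : Hav ≤ K1 * rr ^ 8)
    (h1 : n < K * m) (h2 : K * m ≤ n + Hav) :
    Ex al (PI 1 (x + 1)) (fun Q => (cntGood (cx x Q) lo hi (w * rr) K1 rr (2 * w) K n : ℝ)) ≤
      1 / ((K1 : ℝ) * rr) + Ex al (PI 1 (x + 1)) fun Q =>
        Phi (cx x Q) (K1 - w) ((K1 - w) * m) *
          om (w * rr) K1 rr (cls (cx x Q) (K1 - w) (w * rr) ((K1 - w) * m)) Q K n := by
  classical
  obtain ⟨p1, p2, p3, p4, p5⟩ := GoodPt_par hP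
  obtain ⟨k1, k2⟩ := mem_Ioc.1 hK
  have h8 := hP.h8
  have hJ : 1 ≤ w * rr := Nat.mul_pos p5 (by omega)
  have hK0 : 1 ≤ K1 - w := by omega
  set c := n / K / (w * rr) with hc
  set S := (Icc (c - (rr ^ 10 + 1)) c ×ˢ Icc c (c + (rr ^ 10 + 1))).filter
    (GoodC (w * rr) K1 rr) with hS
  have hcard : S.card ≤ 4 * rr ^ 20 := by
    refine (card_filter_le _ _).trans ?_
    rw [card_product, Nat.card_Icc, Nat.card_Icc]
    have a : 2 ≤ rr ^ 10 := le_trans (by omega) (Nat.le_self_pow (by norm_num) rr)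
    calc _ ≤ 2 * rr ^ 10 * (2 * rr ^ 10) := Nat.mul_le_mul (by omega) (by omega)
      _ = _ := by ring
  have hpt : ∀ A : Set ℕ, (cntGood A lo hi (w * rr) K1 rr (2 * w) K n : ℝ) ≤
      ∑ s ∈ S, (cntS A lo hi (w * rr) (2 * w) s K n : ℝ) := by
    intro A
    rw [← Nat.cast_sum, Nat.cast_le]
    unfold cntGood cntS
    refine le_trans (card_le_card fun p hp => ?_) card_biUnion_le
    obtain ⟨a1, a2, a3, a4, a5⟩ := mem_filter.1 hp
    refine mem_biUnion.2 ⟨(p.1 / (w * rr), p.2 / (w * rr)), mem_filter.2 ⟨?_, a4⟩,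
      mem_filter.2 ⟨a1, a2, a3, rfl, a5⟩⟩
    have b1 := bcard_mul_le A p.1 p.2
    have b2 := bsum_le_bcard_mul A p.1 p.2
    rw [a2, a3] at b1 b2
    have b3 : p.1 / (w * rr) ≤ c :=
      Nat.div_le_div_right ((Nat.le_div_iff_mul_le (by omega)).2 (by rwa [mul_comm]))
    have b4 : c ≤ p.2 / (w * rr) := Nat.div_le_div_right (Nat.div_le_of_le_mul b2)
    have b5 : p.2 / (w * rr) - p.1 / (w * rr) - 1 ≤ rr ^ 10 := by
      refine Nat.le_of_mul_le_mul_right (a4.1.2.trans ?_) hJ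
      exact (Nat.mul_le_mul_right _ hP.hi).trans (le_of_eq (by ring))
    generalize p.1 / (w * rr) = s1 at *
    generalize p.2 / (w * rr) = s2 at *
    exact mem_product.2 ⟨mem_Icc.2 ⟨show _ ≤ s1 by omega, b3⟩,
      mem_Icc.2 ⟨b4, show s2 ≤ _ by omega⟩⟩
  refine (Ex_mono hρ fun Q _ => hpt _).trans ?_
  rw [Ex_sum]
  refine (sum_le_sum fun s hs => class_point hρ hP hhi hε hK hn hH h1 h2
    (mem_filter.1 hs).2).trans ?_
  rw [sum_add_distrib, sum_const, nsmul_eq_mul, ← Ex_sum]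
  refine add_le_add ?_ (Ex_mono hρ fun Q _ => ?_)
  · have a1 : (S.card : ℝ) ≤ 4 * (rr : ℝ) ^ 20 := by exact_mod_cast hcard
    have a2 : (8 : ℝ) ≤ rr := by exact_mod_cast h8
    have a3 : (0 : ℝ) < K1 := by exact_mod_cast (show 0 < K1 by omega)
    have a4 : (0 : ℝ) < rr := by linarith
    refine (mul_le_mul_of_nonneg_right a1 (by positivity)).trans ?_
    rw [← mul_div_assoc, div_le_div_iff₀ (by positivity) (by positivity)]
    have a5 : (8 : ℝ) ≤ (rr : ℝ) ^ 2 := by nlinarith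
    have a6 := mul_le_mul_of_nonneg_left a5 (show (0 : ℝ) ≤ K1 * (rr : ℝ) ^ 21 by positivity)
    calc _ = (K1 : ℝ) * (rr : ℝ) ^ 21 * 8 := by ring
      _ ≤ _ := a6
      _ = _ := by ring
  · have a := mul_nonneg (Phi_nonneg (cx_infinite x Q) hK0 ((K1 - w) * m)) (GoodPt_om_nonneg
      (w * rr) K1 rr (cls (cx x Q) (K1 - w) (w * rr) ((K1 - w) * m)) Q K n)
    generalize cls (cx x Q) (K1 - w) (w * rr) ((K1 - w) * m) = s0 at *
    by_cases h0 : s0 ∈ S
    · rw [sum_eq_single_of_mem s0 h0 fun s _ hs => by rw [ind_neg hs.symm, mul_zero, zero_mul],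
        ind_pos rfl, mul_one]
    · rw [sum_eq_zero fun s hs => by
        rw [ind_neg fun h : s0 = s => h0 (h ▸ hs), mul_zero, zero_mul]]
      exact a

end Pool.Agent.Work.MP_9a1701_nt.P
end

-- merged part: Pool.Agent.Work.MP_9a1701_nt.T.Expand
section
/-!
# Expansion of the residue weight in additive characters
-/

set_option autoImplicit false
open Finset Filter

namespace Pool.Agent.Work.MP_9a1701_nt.P

variable {al : ℕ → ℝ} {x rr w K1 : ℕ}

/-- Orthogonality (real part of a geometric sum). -/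
lemma sum_cos_eq {q : ℕ} (hq : 1 ≤ q) (u : ℤ) :
    (q : ℝ) * ind ((q : ℤ) ∣ u) = ∑ a ∈ range q, Real.cos (2 * Real.pi * a * u / q) := by
  have hq0 : (q : ℝ) ≠ 0 := by exact_mod_cast (by omega : q ≠ 0)
  by_cases h : (q : ℤ) ∣ u
  · obtain ⟨k, rfl⟩ := h
    rw [ind_pos (dvd_mul_right _ _), mul_one]
    have h1 : ∀ a ∈ range q,
        Real.cos (2 * Real.pi * a * (((q : ℤ) * k : ℤ) : ℝ) / q) = 1 := fun a _ => by
      rw [← Real.cos_int_mul_two_pi ((a : ℤ) * k)]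
      congr 1
      push_cast
      field_simp
    rw [sum_congr rfl h1, sum_const, Finset.card_range, nsmul_eq_mul, mul_one]
  · rw [ind_neg h, mul_zero]
    set z : ℂ := Complex.exp (((2 * Real.pi * u / q : ℝ) : ℂ) * Complex.I) with hz
    have hqc : (q : ℂ) ≠ 0 := by exact_mod_cast (by omega : q ≠ 0)
    have h1 : ∀ a ∈ range q, Real.cos (2 * Real.pi * a * u / q) = (z ^ a).re := fun a _ => by
      rw [hz, ← Complex.exp_nat_mul, ← Complex.exp_ofReal_mul_I_re]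
      congr 2
      push_cast
      ring
    have h2 : z ^ q = 1 := by
      rw [hz, ← Complex.exp_nat_mul, ← Complex.exp_int_mul_two_pi_mul_I u]
      congr 1
      push_cast
      field_simp
    have h3 : z ≠ 1 := by
      intro h4
      obtain ⟨k, hk⟩ := Complex.exp_eq_one_iff.1 h4
      refine h ⟨k, ?_⟩
      have hp : (Real.pi : ℂ) ≠ 0 := by exact_mod_cast Real.pi_ne_zero
      have h5 : (u : ℂ) = q * k := by
        push_cast at hk
        field_simp at hk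
        linear_combination hk
      exact_mod_cast h5
    rw [sum_congr rfl h1, ← Complex.re_sum, geom_sum_eq h3, h2, sub_self, zero_div,
      Complex.zero_re]

lemma Expand_one_le (hP : Par x rr w K1) : 1 ≤ K1 - w := by
  have h1 : 2 ≤ rr ^ 9 := le_trans (by norm_num) (Nat.pow_le_pow_left hP.h8 9)
  have h2 : 1 ≤ rr ^ 199 := Nat.one_le_pow _ _ (by have := hP.h8; omega)
  have h3 := (Nat.mul_le_mul_left w h1).trans hP.lo
  have h4 := h2.trans hP.big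
  omega

lemma abs_gam_le (hρ : Prob al) (hP : Par x rr w K1) {f : ℝ → ℝ} (hf : ∀ z, |f z| ≤ 1)
    (q r a m : ℕ) : |gam f al x w rr K1 q r a m| ≤ 1 := by
  have hK := Expand_one_le hP
  have hK0 : (0 : ℝ) < ((K1 - w : ℕ) : ℝ) := by exact_mod_cast hK
  have key : ∀ (Q : Finset ℕ) (G : Prop) (z : ℝ),
      |((K1 - w : ℕ) : ℝ) * Phi (cx x Q) (K1 - w) ((K1 - w) * m) * ind G * f z| ≤ 1 := by
    intro Q G z
    have h1 := Phi_nonneg (cx_infinite x Q) hK ((K1 - w) * m)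
    have h2 := Phi_le (cx_infinite x Q) hK ((K1 - w) * m)
    rw [le_div_iff₀' hK0] at h2
    have h3 := mul_nonneg hK0.le h1
    rw [abs_mul, abs_of_nonneg (mul_nonneg h3 (ind_nonneg G))]
    exact mul_le_one₀ (mul_le_one₀ h2 (ind_nonneg G) (ind_le_one G)) (abs_nonneg _) (hf z)
  exact abs_le.2 ⟨const_le_Ex hρ fun Q _ => (abs_le.1 (key Q _ _)).1,
    Ex_le_const hρ fun Q _ => (abs_le.1 (key Q _ _)).2⟩

/-- The expansion for one configuration. -/
lemma Expand_pt {φ k : ℝ} (hφ : 0 ≤ φ) (hk : k ≠ 0) {G : Prop} {t : ℕ × ℕ} {Qm : ℕ}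
    (ht : G → 1 ≤ t.1 ∧ t.1 ≤ Qm ∧ t.2 < t.1 ∧ t.2.Coprime t.1) (σ : ℤ) (K n : ℕ) :
    φ * (t.1 * ind (G ∧ (t.1 : ℤ) ∣ σ + t.2 * K - n)) ≤ φ + 1 / k *
      ∑ q ∈ Icc 1 Qm, ∑ r ∈ (range q).filter (fun r => r.Coprime q), ∑ a ∈ Ico 1 q,
        (Real.cos (2 * Real.pi * a * ((r : ℝ) * K - n) / q) *
            (k * φ * ind (G ∧ t = (q, r)) * Real.cos (2 * Real.pi * a * σ / q)) -
          Real.sin (2 * Real.pi * a * ((r : ℝ) * K - n) / q) *
            (k * φ * ind (G ∧ t = (q, r)) * Real.sin (2 * Real.pi * a * σ / q))) := by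
  by_cases hG : G
  · obtain ⟨q, r⟩ := t
    obtain ⟨h1, h2, h3, h4⟩ := ht hG
    dsimp only at h1 h2 h3 h4 ⊢
    rw [sum_eq_single_of_mem q (mem_Icc.2 ⟨h1, h2⟩), sum_eq_single_of_mem r
      (mem_filter.2 ⟨mem_range.2 h3, h4⟩), ind_congr (and_iff_right hG), sum_cos_eq h1,
      ind_pos (P := G ∧ (q, r) = (q, r)) ⟨hG, rfl⟩, range_eq_Ico,
      sum_eq_sum_Ico_succ_bot (by omega : 0 < q), mul_add, mul_sum, mul_sum]
    · refine le_of_eq ?_
      congr 1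
      · simp
      refine sum_congr rfl fun a _ => ?_
      have e : 2 * Real.pi * a * ((σ + r * K - n : ℤ) : ℝ) / q =
          2 * Real.pi * a * ((r : ℝ) * K - n) / q + 2 * Real.pi * a * σ / q := by
        push_cast
        ring
      rw [e, Real.cos_add]
      field_simp
    · intro r' _ hr
      refine sum_eq_zero fun a _ => ?_
      rw [ind_neg fun h => hr (Prod.ext_iff.1 h.2).2.symm]
      ring
    · intro q' _ hq
      refine sum_eq_zero fun r' _ => sum_eq_zero fun a _ => ?_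
      rw [ind_neg fun h => hq (Prod.ext_iff.1 h.2).1.symm]
      ring
  · rw [ind_neg fun h => hG h.1, mul_zero, mul_zero, sum_eq_zero, mul_zero, add_zero]
    · exact hφ
    refine fun q _ => sum_eq_zero fun r _ => sum_eq_zero fun a _ => ?_
    rw [ind_neg fun h => hG h.1]
    ring

/-- (C6) for one pair `K, m`: for a good class the type `(q, r)` is one of the summation
indices (`ty_spec`), `cos (A + B) = cos A cos B - sin A sin B`. -/
lemma expand_point (hρ : Prob al) (hP : Par x rr w K1) (K n m : ℕ) :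
    Ex al (PI 1 (x + 1)) (fun Q => Phi (cx x Q) (K1 - w) ((K1 - w) * m) *
        om (w * rr) K1 rr (cls (cx x Q) (K1 - w) (w * rr) ((K1 - w) * m)) Q K n) ≤
      Ex al (PI 1 (x + 1)) (fun Q => Phi (cx x Q) (K1 - w) ((K1 - w) * m)) +
        1 / ((K1 - w : ℕ) : ℝ) *
          ∑ q ∈ Icc 1 (4 * rr), ∑ r ∈ (range q).filter (fun r => r.Coprime q), ∑ a ∈ Ico 1 q,
            (Real.cos (2 * Real.pi * a * ((r : ℝ) * K - n) / q) *
                gam Real.cos al x w rr K1 q r a m -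
              Real.sin (2 * Real.pi * a * ((r : ℝ) * K - n) / q) *
                gam Real.sin al x w rr K1 q r a m) := by
  have hK := Expand_one_le hP
  have hK0 : ((K1 - w : ℕ) : ℝ) ≠ 0 := by exact_mod_cast (by omega : K1 - w ≠ 0)
  simp only [gam, ← Ex_const_mul, ← Ex_sub, ← Ex_sum, ← Ex_add]
  refine Ex_mono hρ fun Q _ => ?_
  refine Expand_pt (Phi_nonneg (cx_infinite x Q) hK _) hK0 (fun hG => ?_) _ K n
  obtain ⟨h1, h2⟩ := ty_spec hP hG.1
  exact ⟨h1.1, h1.2.1, h1.2.2.1, h2⟩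

lemma Expand_tws (N H q a r n : ℕ) (b : ℕ → ℝ) :
    Complex.exp (((-(2 * Real.pi * a * n / q) : ℝ) : ℂ) * Complex.I) *
        tws K1 w N H q (a * r) n b =
      ∑ K ∈ Ioc K1 (K1 + w),
        Complex.exp (((2 * Real.pi * a * ((r : ℝ) * K - n) / q : ℝ) : ℂ) * Complex.I) *
          ((∑ m ∈ (Icc 1 N).filter (fun m => n < K * m ∧ K * m ≤ n + H), b m : ℝ) : ℂ) := by
  unfold tws
  rw [mul_sum]
  refine sum_congr rfl fun K _ => ?_
  rw [← mul_assoc, ← Complex.exp_add, Complex.ofReal_sum]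
  congr 2
  push_cast
  ring

lemma Expand_le (N H q a r n : ℕ) (b b' : ℕ → ℝ) :
    ∑ K ∈ Ioc K1 (K1 + w), ∑ m ∈ (Icc 1 N).filter (fun m => n < K * m ∧ K * m ≤ n + H),
      (Real.cos (2 * Real.pi * a * ((r : ℝ) * K - n) / q) * b m -
        Real.sin (2 * Real.pi * a * ((r : ℝ) * K - n) / q) * b' m) ≤
      ‖tws K1 w N H q (a * r) n b‖ + ‖tws K1 w N H q (a * r) n b'‖ := by
  have h1 := Complex.abs_re_le_norm (Complex.exp (((-(2 * Real.pi * a * n / q) : ℝ) : ℂ) *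
    Complex.I) * tws K1 w N H q (a * r) n b)
  have h2 := Complex.abs_im_le_norm (Complex.exp (((-(2 * Real.pi * a * n / q) : ℝ) : ℂ) *
    Complex.I) * tws K1 w N H q (a * r) n b')
  rw [norm_mul, Complex.norm_exp_ofReal_mul_I, one_mul, Expand_tws] at h1 h2
  rw [Complex.re_sum] at h1
  rw [Complex.im_sum] at h2
  simp only [Complex.mul_re, Complex.mul_im, Complex.ofReal_re, Complex.ofReal_im, mul_zero,
    sub_zero, zero_add, Complex.exp_ofReal_mul_I_re, Complex.exp_ofReal_mul_I_im] at h1 h2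
  simp only [sum_sub_distrib, ← mul_sum]
  linarith [(abs_le.1 h1).2, (abs_le.1 h2).1]

/-- The cosine and the sine are the real and imaginary parts of
`e(a r K / q) e(- a n / q)`, and the second factor has norm one. -/
theorem expand_sum (hρ : Prob al) (hP : Par x rr w K1) (N H n : ℕ) :
    ∑ K ∈ Ioc K1 (K1 + w), ∑ m ∈ (Icc 1 N).filter (fun m => n < K * m ∧ K * m ≤ n + H),
      Ex al (PI 1 (x + 1)) (fun Q => Phi (cx x Q) (K1 - w) ((K1 - w) * m) *
        om (w * rr) K1 rr (cls (cx x Q) (K1 - w) (w * rr) ((K1 - w) * m)) Q K n) ≤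
      ∑ K ∈ Ioc K1 (K1 + w), ∑ m ∈ (Icc 1 N).filter (fun m => n < K * m ∧ K * m ≤ n + H),
        Ex al (PI 1 (x + 1)) (fun Q => Phi (cx x Q) (K1 - w) ((K1 - w) * m)) +
      1 / ((K1 - w : ℕ) : ℝ) * tw al x w rr K1 N H n := by
  refine (sum_le_sum fun K _ => sum_le_sum fun m _ => expand_point hρ hP K n m).trans ?_
  simp only [sum_add_distrib, ← mul_sum]
  refine add_le_add le_rfl (mul_le_mul_of_nonneg_left ?_ (by positivity))
  unfold tw
  have e : ∀ (S : Finset ℕ) (T : ℕ → Finset ℕ) (I : Finset ℕ) (F : ℕ → ℕ → ℕ → ℝ),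
      ∑ K ∈ S, ∑ m ∈ T K, ∑ i ∈ I, F K m i = ∑ i ∈ I, ∑ K ∈ S, ∑ m ∈ T K, F K m i := by
    intro S T I F
    rw [sum_comm (s := I)]
    exact sum_congr rfl fun K _ => sum_comm
  rw [e]
  refine sum_le_sum fun q _ => ?_
  rw [e]
  refine sum_le_sum fun r _ => ?_
  rw [e]
  exact sum_le_sum fun a _ => Expand_le N H q a r n _ _

end Pool.Agent.Work.MP_9a1701_nt.P
end
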