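import Pool.Agent.Work.MP_9a1701_nt.T.ModC2
import Pool.Agent.Work.MP_9a1701_nt.P.Bridge

/-!
# The almost sure statement for the thinned primes
-/

set_option autoImplicit false
open Finset Filter MeasureTheory ProbabilityTheory Topology

namespace Pool.Agent.Work.MP_9a1701_nt.P

theorem thmC {Ω : Type*} [MeasurableSpace Ω] (μ : Measure Ω) [IsProbabilityMeasure μ]
    (E : ℕ → Set Ω) (hm : ∀ n, MeasurableSet (E n)) (hind : iIndepSet E μ) {α : ℝ}
    (hT : Thin (fun n => μ.real (E n)) α) :
    ∀ᵐ ω ∂μ, ∀ k : ℕ, Tendsto (fun x : ℕ => Rk {t | t.Prime ∧ ω ∈ E t} k x / x) atTop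
      (𝓝 (poi k (α * Real.log 2))) := by
  classical
  set E' : ℕ → Set Ω := fun n => if n.Prime then E n else ∅ with hE'
  have hm' : ∀ n, MeasurableSet (E' n) := fun n => by
    by_cases h : n.Prime <;> simp [hE', h, hm n]
  have hind' : iIndepSet E' μ := by
    rw [iIndepSet_iff_meas_biInter hm']
    intro s
    by_cases h : ∀ n ∈ s, n.Prime
    · have e : ∀ n ∈ s, E' n = E n := fun n hn => by simp [hE', h n hn]
      rw [Set.iInter₂_congr e, prod_congr rfl fun n hn => by rw [e n hn]]
      exact hind.meas_biInter s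
    · push Not at h
      obtain ⟨n, hn, hp⟩ := h
      have e : E' n = ∅ := by simp [hE', hp]
      rw [prod_eq_zero hn (by rw [e, measure_empty])]
      exact measure_mono_null ((Set.biInter_subset_of_mem hn).trans e.subset) measure_empty
  have hρ : (fun n => μ.real (E' n)) = rhoC fun n => μ.real (E n) := by
    funext n
    by_cases h : n.Prime <;> simp [hE', rhoC, h]
  have h := bridge μ E' hm' hind' ∅ (mul_nonneg hT.nonneg (Real.log_nonneg (by norm_num)))
    (hρ ▸ coreg (prob_rhoC hT.prob) hT.nonneg (hmertC hT) (hsparseC hT) (hfinC hT))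
  filter_upwards [h] with ω hω k
  have e : (∅ : Set ℕ) ∪ {t | ω ∈ E' t} = {t | t.Prime ∧ ω ∈ E t} := by
    ext t
    by_cases h : t.Prime <;> simp [hE', h]
  rw [← e]
  exact hω k

end Pool.Agent.Work.MP_9a1701_nt.P
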