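import Pool.Agent.Work.MP_9a1701_nt.T.Chi

/-!
# Flatness of the joint law
-/

set_option autoImplicit false
open Finset Filter

namespace Pool.Agent.Work.MP_9a1701_nt.P

variable {ρ : ℕ → ℝ} {W : Finset ℕ}

lemma Inv_ii (c r A : ℝ) :
    IntervalIntegrable ((Set.Icc (c - r) (c + r)).indicator fun _ : ℝ => A)
      MeasureTheory.volume 0 1 := by
  rw [intervalIntegrable_iff]
  exact (intervalIntegrable_iff.1 (intervalIntegrable_const (c := A))).indicator measurableSet_Icc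

lemma Inv_ind (c : ℝ) {r A : ℝ} (hr : 0 ≤ r) (hA : 0 ≤ A) :
    ∫ x in (0 : ℝ)..1, (Set.Icc (c - r) (c + r)).indicator (fun _ : ℝ => A) x ≤ A * (2 * r) := by
  rw [intervalIntegral.integral_of_le zero_le_one]
  have hi : MeasureTheory.Integrable ((Set.Icc (c - r) (c + r)).indicator fun _ : ℝ => A)
      MeasureTheory.volume := by
    rw [MeasureTheory.integrable_indicator_iff measurableSet_Icc]
    exact MeasureTheory.integrableOn_const (by simp)
  refine (MeasureTheory.setIntegral_le_integral hi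
    (Eventually.of_forall fun x => Set.indicator_nonneg (fun _ _ => hA) x)).trans (le_of_eq ?_)
  rw [MeasureTheory.integral_indicator_const _ measurableSet_Icc, Real.volume_real_Icc,
    max_eq_left (by linarith), smul_eq_mul]
  ring

/-- A function that is small outside finitely many intervals. -/
lemma Inv_cover {ι : Type} (S : Finset ι) (c : ι → ℝ) {f : ℝ → ℝ} (hf : Continuous f)
    {r A B : ℝ} (hr : 0 ≤ r) (hA : 0 ≤ A)
    (h : ∀ x ∈ Set.Icc (0 : ℝ) 1, f x ≤ B ∨ (f x ≤ A + B ∧ ∃ i ∈ S, |x - c i| ≤ r)) :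
    ∫ x in (0 : ℝ)..1, f x ≤ A * (S.card * (2 * r)) + B := by
  have i1 : IntervalIntegrable (fun x => ∑ i ∈ S,
      (Set.Icc (c i - r) (c i + r)).indicator (fun _ : ℝ => A) x) MeasureTheory.volume 0 1 := by
    have := IntervalIntegrable.sum S fun i _ => Inv_ii (c i) r A
    rwa [Finset.sum_fn] at this
  have h1 : ∫ x in (0 : ℝ)..1, f x ≤ ∫ x in (0 : ℝ)..1, ((∑ i ∈ S,
      (Set.Icc (c i - r) (c i + r)).indicator (fun _ : ℝ => A) x) + B) := by
    refine intervalIntegral.integral_mono_on zero_le_one (hf.intervalIntegrable _ _)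
      (i1.add intervalIntegrable_const) fun x hx => ?_
    have n0 : ∀ i ∈ S, 0 ≤ (Set.Icc (c i - r) (c i + r)).indicator (fun _ : ℝ => A) x :=
      fun i _ => Set.indicator_nonneg (fun _ _ => hA) x
    rcases h x hx with h2 | ⟨h2, i, hi, h3⟩
    · have := sum_nonneg n0
      linarith
    · have h4 := single_le_sum n0 hi
      have h5 : x ∈ Set.Icc (c i - r) (c i + r) := by
        have := abs_le.1 h3
        constructor <;> linarith [this.1, this.2]
      rw [Set.indicator_of_mem h5] at h4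
      linarith
  rw [intervalIntegral.integral_add i1 intervalIntegrable_const,
    intervalIntegral.integral_finsetSum fun i _ => Inv_ii (c i) r A] at h1
  have h2 : ∑ i ∈ S, ∫ x in (0 : ℝ)..1,
      (Set.Icc (c i - r) (c i + r)).indicator (fun _ : ℝ => A) x ≤ ∑ _i ∈ S, A * (2 * r) :=
    sum_le_sum fun i _ => Inv_ind (c i) hr hA
  rw [sum_const, nsmul_eq_mul] at h2
  simp only [intervalIntegral.integral_const, sub_zero, one_smul] at h1
  nlinarith

lemma Inv_cont (ρ : ℕ → ℝ) (W : Finset ℕ) (θ : ℝ) : Continuous fun φ : ℝ => chi ρ W φ θ := by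
  have h1 : Continuous fun φ : ℝ => (φ, θ) := by fun_prop
  have h2 := (continuous_chi ρ W).comp h1
  simpa only [Function.comp_def] using h2

/-- The inner integral. -/
noncomputable def Inv_G (ρ : ℕ → ℝ) (W : Finset ℕ) (k σ : ℤ) (θ : ℝ) : ℂ :=
  ∫ φ in (0 : ℝ)..1, chi ρ W φ θ *
    Complex.exp (((-(2 * Real.pi * (k * φ + σ * θ)) : ℝ) : ℂ) * Complex.I)

lemma Inv_G_cont (ρ : ℕ → ℝ) (W : Finset ℕ) (k σ : ℤ) : Continuous (Inv_G ρ W k σ) := by
  refine intervalIntegral.continuous_parametric_intervalIntegral_of_continuous'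
    (f := fun θ φ : ℝ => chi ρ W φ θ *
      Complex.exp (((-(2 * Real.pi * (k * φ + σ * θ)) : ℝ) : ℂ) * Complex.I)) ?_ 0 1
  have h1 : Continuous fun z : ℝ × ℝ => chi ρ W z.2 z.1 := by
    have h2 := (continuous_chi ρ W).comp continuous_swap
    simpa only [Function.comp_def, Prod.fst_swap, Prod.snd_swap] using h2
  have h3 : Continuous fun z : ℝ × ℝ =>
      Complex.exp (((-(2 * Real.pi * (k * z.2 + σ * z.1)) : ℝ) : ℂ) * Complex.I) := by fun_prop
  exact h1.mul h3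

lemma Inv_G_shift (ρ : ℕ → ℝ) (W : Finset ℕ) (k σ : ℤ) (n : ℕ) (θ : ℝ) :
    Inv_G ρ W k (σ - n) θ =
      Inv_G ρ W k σ θ * Complex.exp (Complex.I * ((2 * Real.pi * n * θ : ℝ) : ℂ)) := by
  unfold Inv_G
  rw [← intervalIntegral.integral_mul_const]
  refine intervalIntegral.integral_congr fun φ _ => ?_
  simp only [mul_assoc (chi ρ W φ θ), ← Complex.exp_add]
  congr 2
  push_cast
  ring

lemma Inv_G_le (ρ : ℕ → ℝ) (W : Finset ℕ) (k σ : ℤ) (θ : ℝ) :
    ‖Inv_G ρ W k σ θ‖ ≤ ∫ φ in (0 : ℝ)..1, ‖chi ρ W φ θ‖ := by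
  refine (intervalIntegral.norm_integral_le_integral_norm zero_le_one).trans (le_of_eq ?_)
  refine intervalIntegral.integral_congr fun φ _ => ?_
  simp only [norm_mul, Complex.norm_exp_ofReal_mul_I, mul_one]

lemma Inv_two (x : ℝ) : ‖(1 : ℂ) - Complex.exp (Complex.I * (x : ℂ))‖ ≤ 2 := by
  refine (norm_sub_le _ _).trans ?_
  rw [mul_comm, Complex.norm_exp_ofReal_mul_I, norm_one]
  norm_num

lemma Inv_near {q : ℕ} (hq : 1 ≤ q) (h : ℕ) (a : ℤ) {θ β : ℝ} (ha : |θ - a / q| ≤ β) :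
    ‖(1 : ℂ) - Complex.exp (Complex.I * ((2 * Real.pi * (q * h : ℕ) * θ : ℝ) : ℂ))‖ ≤
      2 * Real.pi * (q * h) * β := by
  have q0 : (0 : ℝ) < q := by exact_mod_cast hq
  have e1 : 2 * Real.pi * (q * h : ℕ) * θ =
      2 * Real.pi * (q * h) * (θ - a / q) + (h * a : ℤ) * (2 * Real.pi) := by
    push_cast
    field_simp
    ring
  have e2 : Complex.exp (Complex.I * ((2 * Real.pi * (q * h : ℕ) * θ : ℝ) : ℂ)) =
      Complex.exp (Complex.I * ((2 * Real.pi * (q * h) * (θ - a / q) : ℝ) : ℂ)) := by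
    rw [e1, Complex.ofReal_add, mul_add, Complex.exp_add]
    have : Complex.I * ((((h * a : ℤ) : ℝ) * (2 * Real.pi) : ℝ) : ℂ) =
        ((h * a : ℤ) : ℂ) * (2 * Real.pi * Complex.I) := by
      push_cast
      ring
    rw [this, Complex.exp_int_mul_two_pi_mul_I, mul_one]
  rw [e2, norm_sub_rev]
  refine Real.norm_exp_I_mul_ofReal_sub_one_le.trans ?_
  have p0 : 0 ≤ 2 * Real.pi * ((q : ℝ) * h) := by positivity
  rw [Real.norm_eq_abs, abs_mul, abs_of_nonneg p0]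
  exact mul_le_mul_of_nonneg_left ha p0

lemma Inv_clamp {q : ℕ} (hq : 1 ≤ q) (a : ℤ) {θ β : ℝ} (hθ : θ ∈ Set.Icc (0 : ℝ) 1)
    (ha : |θ - a / q| ≤ β) : ∃ i ∈ range (q + 1), |θ - (i : ℝ) / q| ≤ β := by
  have q0 : (0 : ℝ) < q := by exact_mod_cast hq
  obtain ⟨h1, h2⟩ := abs_le.1 ha
  rcases le_total a 0 with a0 | a0
  · refine ⟨0, mem_range.2 (by omega), ?_⟩
    have : (a : ℝ) / q ≤ 0 := div_nonpos_of_nonpos_of_nonneg (by exact_mod_cast a0) q0.le
    rw [Nat.cast_zero, zero_div, sub_zero, abs_of_nonneg hθ.1]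
    linarith
  rcases le_total (q : ℤ) a with a1 | a1
  · refine ⟨q, mem_range.2 (by omega), ?_⟩
    have : 1 ≤ (a : ℝ) / q := (one_le_div q0).2 (by exact_mod_cast a1)
    rw [div_self q0.ne', abs_of_nonpos (by linarith [hθ.2])]
    linarith
  · obtain ⟨n, rfl⟩ := Int.eq_ofNat_of_zero_le a0
    exact ⟨n, mem_range.2 (by omega), by simpa using ha⟩

/-- For fixed `θ`: off the large set `‖chi‖ ≤ exp (-8 ε D0)`; the large set lies in three
intervals of length `4 τ`, and is empty unless `θ` is near some `a / q`. -/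
lemma inner_le (hρ : Prob ρ) {ε D0 τ : ℝ} (hε0 : 0 ≤ ε) (hε : ∀ u ∈ W, ε ≤ ρ u * (1 - ρ u))
    (hτ : 0 ≤ τ) (θ : ℝ)
    (hloc : ∀ φ φ' : ℝ, ∑ u ∈ W, dz (φ + θ * u) ^ 2 ≤ D0 → ∑ u ∈ W, dz (φ' + θ * u) ^ 2 ≤ D0 →
      dz (φ - φ') ≤ 2 * τ) :
    ∫ φ in (0 : ℝ)..1, ‖chi ρ W φ θ‖ ≤
      12 * τ * ind (∃ φ : ℝ, ∑ u ∈ W, dz (φ + θ * u) ^ 2 ≤ D0) + Real.exp (-(8 * ε * D0)) := by
  have big : ∀ φ : ℝ, ¬ ∑ u ∈ W, dz (φ + θ * u) ^ 2 ≤ D0 →
      ‖chi ρ W φ θ‖ ≤ Real.exp (-(8 * ε * D0)) := fun φ hφ => by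
    refine (norm_chi_le hρ hε0 hε φ θ).trans (Real.exp_le_exp.2 (neg_le_neg ?_))
    exact mul_le_mul_of_nonneg_left (not_le.1 hφ).le (by positivity)
  have hc : Continuous fun φ : ℝ => ‖chi ρ W φ θ‖ := (Inv_cont ρ W θ).norm
  by_cases hx : ∃ φ : ℝ, ∑ u ∈ W, dz (φ + θ * u) ^ 2 ≤ D0
  · rw [ind_pos hx]
    obtain ⟨φ0, h0⟩ := hx
    have key := Inv_cover (Icc (round (-φ0)) (round (-φ0) + 1)) (fun m : ℤ => φ0 + m) hc
      (r := 2 * τ) (A := 1) (B := Real.exp (-(8 * ε * D0))) (by positivity) zero_le_one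
      fun φ hφ => by
        by_cases h1 : ∑ u ∈ W, dz (φ + θ * u) ^ 2 ≤ D0
        · refine Or.inr ⟨?_, round (φ - φ0), mem_Icc.2 ⟨?_, ?_⟩, ?_⟩
          · have h2 : 0 ≤ 8 * ε * ∑ u ∈ W, dz (φ + θ * u) ^ 2 := by positivity
            have h3 := (norm_chi_le hρ hε0 hε φ θ).trans
              (Real.exp_le_one_iff.2 (neg_nonpos.2 h2))
            linarith [Real.exp_pos (-(8 * ε * D0))]
          · rw [round_eq, round_eq]
            exact Int.floor_mono (by linarith [hφ.1])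
          · rw [round_eq, round_eq, ← Int.floor_add_one]
            exact Int.floor_mono (by linarith [hφ.2])
          · have h2 := hloc φ φ0 h1 h0
            unfold dz at h2
            rwa [← sub_sub]
        · exact Or.inl (big φ h1)
    have h3 : ((Icc (round (-φ0)) (round (-φ0) + 1)).card : ℝ) = 2 := by
      rw [Int.card_Icc, show round (-φ0) + 1 + 1 - round (-φ0) = 2 by ring]
      rfl
    rw [h3] at key
    linarith
  · rw [ind_neg hx]
    have key := Inv_cover (∅ : Finset ℕ) (fun _ => 0) hc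
      (r := 0) (A := 0) (B := Real.exp (-(8 * ε * D0))) le_rfl le_rfl
      fun φ _ => Or.inl (big φ fun h1 => hx ⟨φ, h1⟩)
    linarith

/-- (C3) of the paper. The difference is the integral of
`chi · e(-kφ - σθ) · (1 - e(q h θ))`; near `a / q`, `0 ≤ a ≤ q`, the last factor is at most
`2 π q h β`, everywhere at most `2`. -/
theorem inversion (hρ : Prob ρ) {ε D0 τ β : ℝ} {q : ℕ} (hq : 1 ≤ q) (hε0 : 0 ≤ ε)
    (hε : ∀ u ∈ W, ε ≤ ρ u * (1 - ρ u)) (hτ : 0 ≤ τ) (hβ : 0 ≤ β)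
    (harc : ∀ φ θ : ℝ, ∑ u ∈ W, dz (φ + θ * u) ^ 2 ≤ D0 → ∃ a : ℤ, |θ - a / q| ≤ β)
    (hloc : ∀ φ φ' θ : ℝ, ∑ u ∈ W, dz (φ + θ * u) ^ 2 ≤ D0 →
      ∑ u ∈ W, dz (φ' + θ * u) ^ 2 ≤ D0 → dz (φ - φ') ≤ 2 * τ) (k σ : ℤ) (h : ℕ) :
    |PW ρ W k σ - PW ρ W k (σ - (q * h : ℕ))| ≤
      12 * τ * ((q + 1) * (2 * β)) * (2 * Real.pi * (q * h) * β) +
        2 * Real.exp (-(8 * ε * D0)) := by
  have ce : Continuous fun θ : ℝ =>
      Complex.exp (Complex.I * ((2 * Real.pi * (q * h : ℕ) * θ : ℝ) : ℂ)) := by fun_prop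
  have cG := Inv_G_cont ρ W k σ
  have e1 : ((PW ρ W k σ - PW ρ W k (σ - (q * h : ℕ)) : ℝ) : ℂ) = ∫ θ in (0 : ℝ)..1,
      Inv_G ρ W k σ θ *
        (1 - Complex.exp (Complex.I * ((2 * Real.pi * (q * h : ℕ) * θ : ℝ) : ℂ))) := by
    rw [Complex.ofReal_sub, PW_eq, PW_eq]
    change (∫ θ in (0 : ℝ)..1, Inv_G ρ W k σ θ) -
      ∫ θ in (0 : ℝ)..1, Inv_G ρ W k (σ - (q * h : ℕ)) θ = _
    rw [← intervalIntegral.integral_sub (cG.intervalIntegrable _ _)
      ((Inv_G_cont ρ W k _).intervalIntegrable _ _)]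
    refine intervalIntegral.integral_congr fun θ _ => ?_
    simp only [Inv_G_shift, mul_sub, mul_one]
  rw [← Real.norm_eq_abs, ← Complex.norm_real, e1]
  refine (intervalIntegral.norm_integral_le_integral_norm zero_le_one).trans ?_
  have p0 : 0 ≤ 2 * Real.pi * ((q : ℝ) * h) * β := by positivity
  have E0 := (Real.exp_pos (-(8 * ε * D0))).le
  have cf : Continuous fun θ : ℝ => ‖Inv_G ρ W k σ θ *
      (1 - Complex.exp (Complex.I * ((2 * Real.pi * (q * h : ℕ) * θ : ℝ) : ℂ)))‖ :=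
    (cG.mul (continuous_const.sub ce)).norm
  have key := Inv_cover (range (q + 1)) (fun i : ℕ => (i : ℝ) / q) cf (r := β)
    (A := 12 * τ * (2 * Real.pi * (q * h) * β)) (B := 2 * Real.exp (-(8 * ε * D0))) hβ
    (by positivity) fun θ hθ => by
      have h1 := (Inv_G_le ρ W k σ θ).trans
        (inner_le hρ hε0 hε hτ θ fun φ φ' => hloc φ φ' θ)
      have h2 := Inv_two (2 * Real.pi * (q * h : ℕ) * θ)
      have n2 := norm_nonneg
        ((1 : ℂ) - Complex.exp (Complex.I * ((2 * Real.pi * (q * h : ℕ) * θ : ℝ) : ℂ)))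
      have h3 := mul_le_mul_of_nonneg_right h1 n2
      have h4 := mul_le_mul_of_nonneg_left h2 E0
      simp only [norm_mul]
      by_cases hx : ∃ φ : ℝ, ∑ u ∈ W, dz (φ + θ * u) ^ 2 ≤ D0
      · rw [ind_pos hx] at h3
        obtain ⟨φ, hφ⟩ := hx
        obtain ⟨a, ha⟩ := harc φ θ hφ
        have h5 := mul_le_mul_of_nonneg_left (Inv_near hq h a ha) (by positivity : 0 ≤ 12 * τ)
        exact Or.inr ⟨by linarith, Inv_clamp hq a hθ ha⟩
      · rw [ind_neg hx] at h3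
        exact Or.inl (by linarith)
  rw [card_range] at key
  refine key.trans (le_of_eq ?_)
  push_cast
  ring

end Pool.Agent.Work.MP_9a1701_nt.P
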