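import Pool.Agent.Work.MP_9a1701_nt.T.Hoeff
import Pool.Agent.Work.MP_9a1701_nt.P.Range3

-- merged part: Pool.Agent.Work.MP_9a1701_nt.T.PrimesC
section
/-!
# Prime number estimates for the thinned primes
-/

set_option autoImplicit false
open Finset Filter

namespace Pool.Agent.Work.MP_9a1701_nt.P

variable {al : ℕ → ℝ} {α : ℝ}

lemma Thin.nonneg (hT : Thin al α) : 0 ≤ α :=
  ge_of_tendsto' hT.lim fun t => (hT.prob t).1

lemma Thin.le_one (hT : Thin al α) : α ≤ 1 :=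
  le_of_tendsto' hT.lim fun t => (hT.prob t).2

lemma PrimesC_eq (al : ℕ → ℝ) (t : ℕ) : rhoC al t = al t * ind t.Prime := by
  unfold rhoC
  by_cases h : t.Prime
  · rw [if_pos h, ind_pos h, mul_one]
  · rw [if_neg h, ind_neg h, mul_zero]

lemma PrimesC_pit (al : ℕ → ℝ) (t : ℕ) : pit ∅ (rhoC al) t = al t * ind t.Prime := by
  have e : pit ∅ (rhoC al) t = rhoC al t := if_neg (Set.notMem_empty t)
  rw [e, PrimesC_eq]

/-- The number of primes in a short interval. -/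
lemma PrimesC_short {ε : ℝ} (hε : 0 < ε) (a : ℕ) :
    ∀ᶠ z : ℕ in atTop, ∀ B : ℕ, (z : ℝ) / Real.log z ^ a ≤ B → B ≤ z →
      ∑ t ∈ Ico z (z + B), ind t.Prime ≤ (1 + ε) * B / Real.log (2 * z) := by
  have h2 := (tendsto_id.const_mul_atTop' (two_pos : 0 < 2)).eventually
    (Pool.Agent.Lib.ANT.pnt_error (a + 1))
  filter_upwards [h2, Primes_log.eventually_ge_atTop ((18 + ε) / ε),
    eventually_ge_atTop 1] with z hz hl hz1 B hB1 hB2
  simp only [id] at hz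
  have z0 : (0 : ℝ) < z := by exact_mod_cast hz1
  have hl' : 18 + ε ≤ Real.log z * ε := (div_le_iff₀ hε).1 hl
  have l1 : 1 ≤ Real.log z := le_of_mul_le_mul_right (by linarith) hε
  have l0 : 0 < Real.log z := by linarith
  have e2 : Real.log (2 * z) = Real.log 2 + Real.log z := Real.log_mul two_ne_zero z0.ne'
  have g0 := Real.log_two_gt_d9
  have g1 := Real.log_two_lt_d9
  have B0 : (0 : ℝ) ≤ B := Nat.cast_nonneg _
  have k1 : Real.log z * ∑ t ∈ Ico z (z + B), ind t.Prime ≤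
      ∑ t ∈ Ico z (z + B), ArithmeticFunction.vonMangoldt t + B * (ε / 2) := by
    refine le_trans ?_ (le_add_of_nonneg_right (mul_nonneg B0 (half_pos hε).le))
    rw [mul_sum]
    refine sum_le_sum fun t ht => ?_
    have ht1 := (mem_Ico.1 ht).1
    have hlog : Real.log z ≤ Real.log t := Real.log_le_log z0 (Nat.cast_le.2 ht1)
    by_cases h : t.Prime
    · rw [ind_pos h, mul_one, ArithmeticFunction.vonMangoldt_apply_prime h]
      exact hlog
    · rw [ind_neg h, mul_zero]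
      exact ArithmeticFunction.vonMangoldt_nonneg
  have k2 : ((2 * z : ℕ) : ℝ) / Real.log ((2 * z : ℕ) : ℝ) ^ (a + 1) ≤ 2 * B / Real.log z := by
    rw [Nat.cast_mul, Nat.cast_ofNat, e2]
    have a1 : Real.log z ^ (a + 1) ≤ (Real.log 2 + Real.log z) ^ (a + 1) :=
      pow_le_pow_left₀ l0.le (by linarith) _
    refine (div_le_div_of_nonneg_left (by positivity) (by positivity) a1).trans ?_
    rw [pow_succ, ← div_div, mul_div_assoc]
    exact div_le_div_of_nonneg_right (by linarith) l0.le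
  have k3 : ∑ t ∈ Ico z (z + B), ArithmeticFunction.vonMangoldt t ≤ B + 4 * B / Real.log z := by
    have a1 := (abs_le.1 (hz (z + B - 1) (by omega))).2
    have a2 := (abs_le.1 (hz (z - 1) (by omega))).1
    have a3 : ((z + B - 1 : ℕ) : ℝ) = ((z - 1 : ℕ) : ℝ) + B := by
      rw [← Nat.cast_add]
      exact congrArg _ (by omega)
    have a4 : 4 * (B : ℝ) / Real.log z = 2 * B / Real.log z + 2 * B / Real.log z := by ring
    rw [Primes_psi hz1]
    linarith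
  have k4 : 4 * (B : ℝ) / Real.log z * (Real.log z + 1) ≤ 8 * B := by
    rw [div_mul_eq_mul_div, div_le_iff₀ l0]
    nlinarith [mul_le_mul_of_nonneg_left l1 B0]
  have k5 : 0 ≤ ∑ t ∈ Ico z (z + B), ind t.Prime := sum_nonneg fun t _ => ind_nonneg _
  generalize ∑ t ∈ Ico z (z + B), ind t.Prime = S at k1 k5 ⊢
  rw [e2, le_div_iff₀ (by linarith)]
  refine le_of_mul_le_mul_left ?_ l0
  have k6 : Real.log z * S ≤ B + 4 * B / Real.log z + B * (ε / 2) := by linarith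
  have k7 := mul_le_mul_of_nonneg_right k6 (show 0 ≤ Real.log z + 1 by linarith)
  have k8 : Real.log z * (S * (Real.log 2 + Real.log z)) ≤ Real.log z * S * (Real.log z + 1) := by
    rw [← mul_assoc]
    exact mul_le_mul_of_nonneg_left (by linarith) (mul_nonneg l0.le k5)
  have k9 := mul_le_mul_of_nonneg_left hl' B0
  rw [add_mul, add_mul] at k7
  linarith

/-- As `short_pnt` in `P/Primes`; `al t ≤ α + ε / 2` for large `t`. -/
theorem short_pntC (hT : Thin al α) {ε : ℝ} (hε : 0 < ε) (a : ℕ) :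
    ∀ᶠ z : ℕ in atTop, ∀ B : ℕ, (z : ℝ) / Real.log z ^ a ≤ B → B ≤ z →
      ∑ t ∈ Ico z (z + B), rhoC al t ≤ (α + ε) * B / Real.log (2 * z) := by
  obtain ⟨η, hη, hη1, hη2⟩ : ∃ η : ℝ, 0 < η ∧ η ≤ 1 ∧ η ≤ ε / 3 :=
    ⟨min 1 (ε / 3), lt_min one_pos (by positivity), min_le_left _ _, min_le_right _ _⟩
  have h0 := hT.nonneg
  have h1 := hT.le_one
  obtain ⟨n0, hn0⟩ := eventually_atTop.1
    (hT.lim.eventually_le_const (show α < α + η from lt_add_of_pos_right α hη))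
  filter_upwards [PrimesC_short hη a, eventually_ge_atTop n0, eventually_ge_atTop 1]
    with z hz hz0 hz1 B hB1 hB2
  have z1 : (1 : ℝ) ≤ z := by exact_mod_cast hz1
  have l0 : 0 ≤ Real.log (2 * z) := Real.log_nonneg (by linarith)
  have B0 : (0 : ℝ) ≤ B := Nat.cast_nonneg _
  have k1 : ∑ t ∈ Ico z (z + B), rhoC al t ≤ (α + η) * ∑ t ∈ Ico z (z + B), ind t.Prime := by
    rw [mul_sum]
    refine sum_le_sum fun t ht => ?_
    rw [PrimesC_eq]
    exact mul_le_mul_of_nonneg_right (hn0 t (hz0.trans (mem_Ico.1 ht).1)) (ind_nonneg _)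
  have k2 := mul_le_mul_of_nonneg_left (hz B hB1 hB2) (show 0 ≤ α + η by linarith)
  have k3 : (α + η) * (1 + η) ≤ α + ε := by
    have c1 := mul_le_mul_of_nonneg_right h1 hη.le
    have c2 := mul_le_mul_of_nonneg_right hη1 hη.le
    linarith
  refine k1.trans (k2.trans ?_)
  rw [← mul_div_assoc, ← mul_assoc]
  exact div_le_div_of_nonneg_right (mul_le_mul_of_nonneg_right k3 B0) l0

/-- Mertens' theorem for the primes in `[u, v)`. -/
lemma PrimesC_mert {ε : ℝ} (hε : 0 < ε) : ∃ z0 : ℕ, ∀ u v : ℕ, z0 ≤ u → u ≤ v →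
    |∑ t ∈ Ico u v, ind t.Prime / (t : ℝ) - (ll v - ll u)| ≤ ε := by
  obtain ⟨z1, h1⟩ := eventually_atTop.1 (Primes_log.eventually_ge_atTop (49 / ε))
  refine ⟨max 2 z1, fun u v hu huv => ?_⟩
  have u2 : 2 ≤ u := (le_max_left _ _).trans hu
  have u0 : (0 : ℝ) < u := by exact_mod_cast (by omega : 0 < u)
  have uv : (u : ℝ) ≤ v := Nat.cast_le.2 huv
  have a1 := h1 u ((le_max_right _ _).trans hu)
  have l0 : 0 < Real.log u := lt_of_lt_of_le (by positivity) a1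
  have a2 := abs_le.1 (Pool.Agent.Lib.ANT.abs_sum_inv_prime_Ioc_sub_le u v u2 huv)
  have e1 : ∑ p ∈ (Ioc u v).filter Nat.Prime, (p : ℝ)⁻¹ = ∑ t ∈ Ioc u v, ind t.Prime / t := by
    rw [sum_filter]
    refine sum_congr rfl fun t _ => ?_
    by_cases h : t.Prime
    · rw [if_pos h, ind_pos h, one_div]
    · rw [if_neg h, ind_neg h, zero_div]
  have e2 := (sum_Ico_add_eq_sum_Icc (f := fun t : ℕ => ind t.Prime / (t : ℝ)) huv).trans
    (add_sum_Ioc_eq_sum_Icc (f := fun t : ℕ => ind t.Prime / (t : ℝ)) huv).symm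
  have b0 : (1 : ℝ) / u ≤ 1 / Real.log u :=
    div_le_div_of_nonneg_left zero_le_one l0 ((Real.log_le_sub_one_of_pos u0).trans (by linarith))
  have b1 : ind u.Prime / (u : ℝ) ≤ 1 / u := div_le_div_of_nonneg_right (ind_le_one _) u0.le
  have b2 : 0 ≤ ind u.Prime / (u : ℝ) := div_nonneg (ind_nonneg _) u0.le
  have b3 : ind v.Prime / (v : ℝ) ≤ 1 / u := div_le_div₀ zero_le_one (ind_le_one _) u0 uv
  have b4 : 0 ≤ ind v.Prime / (v : ℝ) := div_nonneg (ind_nonneg _) (u0.le.trans uv)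
  have b5 : 48 / Real.log u + 1 / Real.log u ≤ ε := by
    rw [← add_div, div_le_iff₀ l0]
    rw [div_le_iff₀ hε] at a1
    linarith
  have b6 : 0 ≤ 1 / Real.log u := by positivity
  rw [e1] at a2
  unfold ll
  rw [abs_le]
  constructor <;> linarith [a2.1, a2.2]

/-- As `hmertB`: `|al p - α| ≤ ε` for large `p`, `abs_sum_inv_prime_Ioc_sub_le`. -/
theorem hmertC (hT : Thin al α) : HMert ∅ (rhoC al) α := by
  intro ε hε
  obtain ⟨η, hη, hη1, hη2⟩ : ∃ η : ℝ, 0 < η ∧ η ≤ 1 ∧ η ≤ ε / 2 :=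
    ⟨min 1 (ε / 2), lt_min one_pos (by positivity), min_le_left _ _, min_le_right _ _⟩
  have h0 := hT.nonneg
  have h1 := hT.le_one
  obtain ⟨n0, hn0⟩ := eventually_atTop.1
    ((hT.lim.eventually_le_const (show α < α + η from lt_add_of_pos_right α hη)).and
      (hT.lim.eventually_const_le (show α - η < α from sub_lt_self α hη)))
  obtain ⟨z0, hz0⟩ := PrimesC_mert hη
  refine ⟨max 2 (max n0 z0), fun u v hu huv => ?_⟩
  have u2 : 2 ≤ u := (le_max_left _ _).trans hu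
  have un : n0 ≤ u := (le_max_left _ _).trans ((le_max_right _ _).trans hu)
  have a2 := abs_le.1 (hz0 u v ((le_max_right _ _).trans ((le_max_right _ _).trans hu)) huv)
  have a3 := sub_nonneg.2 (ll_mono u2 huv)
  have c1 : ∑ t ∈ Ico u v, pit ∅ (rhoC al) t / t ≤
      (α + η) * ∑ t ∈ Ico u v, ind t.Prime / (t : ℝ) := by
    rw [mul_sum]
    refine sum_le_sum fun t ht => ?_
    rw [PrimesC_pit, mul_div_assoc]
    exact mul_le_mul_of_nonneg_right (hn0 t (un.trans (mem_Ico.1 ht).1)).1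
      (div_nonneg (ind_nonneg _) (Nat.cast_nonneg _))
  have c2 : (α - η) * ∑ t ∈ Ico u v, ind t.Prime / (t : ℝ) ≤
      ∑ t ∈ Ico u v, pit ∅ (rhoC al) t / t := by
    rw [mul_sum]
    refine sum_le_sum fun t ht => ?_
    rw [PrimesC_pit, mul_div_assoc]
    exact mul_le_mul_of_nonneg_right (hn0 t (un.trans (mem_Ico.1 ht).1)).2
      (div_nonneg (ind_nonneg _) (Nat.cast_nonneg _))
  generalize ∑ t ∈ Ico u v, pit ∅ (rhoC al) t / t = S at c1 c2 ⊢
  generalize ∑ t ∈ Ico u v, ind t.Prime / (t : ℝ) = P at c1 c2 a2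
  generalize ll v - ll u = Δ at a2 a3 ⊢
  have d1 := mul_le_mul_of_nonneg_left a2.1 h0
  have d2 := mul_le_mul_of_nonneg_left a2.2 h0
  have d3 := mul_le_mul_of_nonneg_left a2.2 hη.le
  have d4 := mul_le_mul_of_nonneg_right h1 hη.le
  have d5 := mul_le_mul_of_nonneg_right hη1 hη.le
  have d6 := mul_le_mul_of_nonneg_right hη2 a3
  have d7 := mul_nonneg hε.le a3
  rw [abs_le]
  constructor <;> linarith

theorem hsparseC (hT : Thin al α) : HSparse ∅ (rhoC al) := by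
  intro ε hε
  have h1 := (Pool.Agent.Lib.ANT.tendsto_primeCounting_mul_log_div.comp
    tendsto_natCast_atTop_atTop).eventually_le_const one_lt_two
  filter_upwards [h1, Primes_log.eventually_ge_atTop (2 / ε), eventually_ge_atTop 1]
    with z a1 a3 a4
  have z0 : (0 : ℝ) < z := by exact_mod_cast a4
  simp only [Function.comp_apply, Nat.floor_natCast] at a1
  rw [div_le_iff₀ z0] at a1
  rw [div_le_iff₀ hε] at a3
  have b1 : ∑ t ∈ Ico 1 z, ind t.Prime ≤ (Nat.primeCounting z : ℝ) := by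
    have e : (Nat.primeCounting z : ℝ) = ∑ t ∈ range (z + 1), ind t.Prime := by
      rw [Nat.primeCounting, Nat.primeCounting', Nat.count_eq_card_filter_range, card_filter,
        Nat.cast_sum]
      refine sum_congr rfl fun t _ => ?_
      by_cases h : t.Prime
      · rw [if_pos h, ind_pos h, Nat.cast_one]
      · rw [if_neg h, ind_neg h, Nat.cast_zero]
    rw [e]
    refine sum_le_sum_of_subset_of_nonneg (fun t ht => ?_) fun t _ _ => ind_nonneg _
    have := (mem_Ico.1 ht).2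
    exact mem_range.2 (by omega)
  have b2 : (Nat.primeCounting z : ℝ) ≤ ε * z := by
    have c1 := mul_le_mul_of_nonneg_left a3 (Nat.cast_nonneg (α := ℝ) (Nat.primeCounting z))
    have c2 := mul_le_mul_of_nonneg_right a1 hε.le
    rw [← mul_assoc] at c1
    linarith
  have b3 : ∑ t ∈ Ico 1 z, pit ∅ (rhoC al) t ≤ ∑ t ∈ Ico 1 z, ind t.Prime := by
    refine sum_le_sum fun t _ => ?_
    rw [PrimesC_pit]
    exact mul_le_of_le_one_left (ind_nonneg _) (hT.prob t).2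
  linarith

end Pool.Agent.Work.MP_9a1701_nt.P
end

-- merged part: Pool.Agent.Work.MP_9a1701_nt.T.OscC
section
/-!
# A long range of lengths with a longer averaging window
-/

set_option autoImplicit false
open Finset Filter

namespace Pool.Agent.Work.MP_9a1701_nt.P

variable {al : ℕ → ℝ} {α : ℝ}

lemma OscC_num {C η x x0 K N l B kc kE lg H : ℝ} (hC : 0 ≤ C) (hη : 0 < η) (hx : 0 < x)
    (h0 : η * x ≤ x0) (hK : 0 < K) (hN : 0 ≤ N) (hl : 1 ≤ l) (hB : 0 ≤ B) (hKN : K * N ≤ 3 * x)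
    (h1 : kc ≤ 1 / l ^ 6) (h2 : B * l ^ 9 ≤ 3 * N) (h3 : 0 ≤ lg) (h4 : lg ≤ l) (hE : 0 < kE)
    (h5 : N ^ 2 * l ^ 6 ≤ kE) (hH : K * l ^ 3 ≤ H) :
    C * H ^ 2 / x0 * (K ^ 2 * N ^ 2 * (1 / (l ^ 3) ^ 2 + kc) +
      K ^ 2 * B ^ 2 * (l ^ 3) ^ 3 * (2 + lg) ^ 2 + K ^ 2 * N ^ 4 / kE) + C * K ^ 3 * N ≤
      C * (756 / η + 3) * H ^ 2 * x / l ^ 6 := by
  have key := Range2_num hC hη hx h0 hK.le hN hl hB hKN h1 h2 h3 h4 hE h5
  have l0 : 0 < l := by linarith
  have p : 0 < K * l ^ 3 := by positivity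
  obtain ⟨r, r1, hr⟩ : ∃ r : ℝ, 1 ≤ r ∧ H ^ 2 = r * (K * l ^ 3) ^ 2 :=
    ⟨H ^ 2 / (K * l ^ 3) ^ 2, (one_le_div (pow_pos p 2)).2 (pow_le_pow_left₀ p.le hH 2),
      (div_mul_cancel₀ _ (pow_pos p 2).ne').symm⟩
  have k2 := mul_le_mul_of_nonneg_left key (zero_le_one.trans r1)
  have k3 : C * K ^ 3 * N ≤ r * (C * K ^ 3 * N) := le_mul_of_one_le_left (by positivity) r1
  rw [hr]
  generalize K ^ 2 * N ^ 2 * (1 / (l ^ 3) ^ 2 + kc) +
    K ^ 2 * B ^ 2 * (l ^ 3) ^ 3 * (2 + lg) ^ 2 + K ^ 2 * N ^ 4 / kE = S at k2 ⊢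
  calc _ ≤ C * (r * (K * l ^ 3) ^ 2) / x0 * S + r * (C * K ^ 3 * N) := add_le_add le_rfl k3
    _ = r * (C * (K * l ^ 3) ^ 2 / x0 * S + C * K ^ 3 * N) := by ring
    _ ≤ _ := k2
    _ = _ := by ring

/-- `osc` of `P/Range2` for every window `K1 l ^ 3 ≤ H ≤ x` (same proof; only the last term
`C K1 ^ 3 N ≤ 3 C H ^ 2 x / l ^ 6` uses the lower bound). -/
theorem osc' {δ η ε : ℝ} (h0 : 0 < δ) (h1 : δ ≤ 1 / 10) (hη : 0 < η) (hε : 0 < ε) :
    ∀ᶠ x : ℕ in atTop, ∀ K1 K2 l H N B : ℕ, Lp δ x ≤ 2 * K1 → K1 * (Lp δ x * sp x) ≤ 2 * x →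
      K1 ≤ K2 → K2 ≤ 2 * K1 → l = ⌈Real.log x⌉₊ → K1 * l ^ 3 ≤ H → H ≤ x →
      N = (x + H) / K1 + 1 → B = N / l ^ 9 + 1 → ∀ g : ℕ → ℝ, (∀ m, 0 ≤ g m) → (∀ m, g m ≤ 1) →
      ∑ n ∈ Ioc ⌊η * x⌋₊ x, |∑ K ∈ Ioc K1 K2,
          ∑ m ∈ (Icc 1 N).filter (fun m => n < K * m ∧ K * m ≤ n + H), (g m - gbar g B m)| ≤
        ε * H * x / (Real.log x + 1) ^ 2 := by
  obtain ⟨c, hc, C, hC, hav⟩ := avg (2 * ⌈3 / δ⌉₊)
  filter_upwards [log_pow_le_Lp h0 ⌈6 / c⌉₊ two_pos, log_pow_le_Lp h0 0 (C := 6) (by norm_num),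
    log_pow_le_sp 9 two_pos, eventually_ge_atTop 1,
    (Real.tendsto_log_atTop.comp tendsto_natCast_atTop_atTop).eventually_ge_atTop
      (max 1 (16 * (C * (756 / η + 3)) / ε ^ 2))] with x e1 e2 e3 e4 e5
  intro K1 K2 l H N B k1 k2 k3 k4 hl hH n4 hN hB g g0 g1
  have x1 : (1 : ℝ) ≤ x := Nat.one_le_cast.2 e4
  have lg1 : 1 ≤ Real.log x := le_of_max_le_left e5
  have lgl : Real.log x ≤ l := hl ▸ Nat.le_ceil _
  have llg : (l : ℝ) ≤ Real.log x + 1 := hl ▸ (Nat.ceil_lt_add_one (by linarith)).le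
  have l1 : (1 : ℝ) ≤ l := lg1.trans lgl
  have l1' : 1 ≤ l := Nat.one_le_cast.1 l1
  have L6 : 6 ≤ Lp δ x := by
    rw [pow_zero, mul_one] at e2
    exact_mod_cast e2
  have K3 : 3 ≤ K1 := by omega
  have s9 : 2 * l ^ 9 ≤ sp x := by
    have := (mul_le_mul_of_nonneg_left (pow_le_pow_left₀ (by linarith) llg 9) two_pos.le).trans e3
    exact_mod_cast this
  have n1 : x + H < K1 * N := hN ▸ Nat.lt_mul_div_succ _ (by omega)
  have n2 : K1 * N ≤ x + H + K1 := by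
    rw [hN, mul_add, mul_one]
    exact Nat.add_le_add_right (Nat.mul_div_le _ _) _
  have n3 : K1 * l ^ 9 ≤ x := by
    have : K1 * (2 * l ^ 9) ≤ K1 * (Lp δ x * sp x) :=
      Nat.mul_le_mul_left _ (s9.trans (Nat.le_mul_of_pos_left _ (by omega)))
    linarith
  have n5 : K1 ≤ x := (Nat.le_mul_of_pos_right _ (Nat.pow_pos l1')).trans n3
  have n6 : K1 * N ≤ 3 * x := by omega
  have n7 : N ≤ x := by
    have := Nat.mul_le_mul_right N K3
    omega
  have n8 : l ^ 9 ≤ N := Nat.le_of_mul_le_mul_left (by omega : K1 * l ^ 9 ≤ K1 * N) (by omega)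
  have n9 : (B + 1) * l ^ 9 ≤ 3 * N := by
    have := Nat.div_mul_le_self N (l ^ 9)
    rw [hB, add_assoc, add_mul]
    linarith
  have N1 : 1 ≤ N := (Nat.pow_pos l1').trans_le n8
  have B1 : 1 ≤ B := hB ▸ Nat.le_add_left 1 _
  have K0 : (0 : ℝ) < K1 := Nat.cast_pos.2 (by omega)
  have k1' : (Lp δ x : ℝ) ≤ 2 * K1 := by exact_mod_cast k1
  have a1 : (K1 : ℝ) ^ (-c) ≤ 1 / (l : ℝ) ^ 6 := by
    have b1 : (l : ℝ) ^ ⌈6 / c⌉₊ ≤ K1 := by
      have := pow_le_pow_left₀ (by linarith) llg ⌈6 / c⌉₊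
      linarith
    have b2 : (6 : ℝ) ≤ ⌈6 / c⌉₊ * c := (div_le_iff₀ hc).1 (Nat.le_ceil _)
    rw [Real.rpow_neg K0.le, ← one_div]
    refine one_div_le_one_div_of_le (by positivity) (le_trans ?_
      (Real.rpow_le_rpow (by positivity) b1 hc.le))
    rw [← Real.rpow_natCast, ← Real.rpow_natCast, ← Real.rpow_mul (by linarith)]
    exact Real.rpow_le_rpow_of_exponent_le l1 (by exact_mod_cast b2)
  have a2 : (N : ℝ) ^ 2 * (l : ℝ) ^ 6 ≤ (K1 : ℝ) ^ (2 * ⌈3 / δ⌉₊) := by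
    have b1 : (x : ℝ) ^ δ ≤ (K1 : ℝ) ^ 2 := by
      have : (3 : ℝ) ≤ K1 := by exact_mod_cast K3
      nlinarith [le_Lp δ x]
    have b2 : (3 : ℝ) ≤ δ * ⌈3 / δ⌉₊ := (div_le_iff₀' h0).1 (Nat.le_ceil _)
    have b3 : (N : ℝ) ^ 2 * (l : ℝ) ^ 6 ≤ (x : ℝ) ^ 3 := by
      have : N ^ 2 * l ^ 6 ≤ x ^ 2 * x := Nat.mul_le_mul (Nat.pow_le_pow_left n7 2)
        ((Nat.pow_le_pow_right l1' (by norm_num)).trans (n8.trans n7))
      rw [← pow_succ] at this
      exact_mod_cast this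
    rw [pow_mul]
    refine b3.trans (le_trans ?_ (pow_le_pow_left₀ (by positivity) b1 _))
    rw [← Real.rpow_natCast, ← Real.rpow_natCast, ← Real.rpow_mul (by linarith)]
    exact Real.rpow_le_rpow_of_exponent_le x1 (by exact_mod_cast b2)
  have N0 : (1 : ℝ) ≤ N := Nat.one_le_cast.2 N1
  have hH' : K1 * (l : ℝ) ^ 3 ≤ (H : ℝ) := by exact_mod_cast hH
  have key := hav K1 K2 N (⌊η * x⌋₊ + 1) x H (fun m => g m - gbar g B m) (B + 1) ((l : ℝ) ^ 3)
    (by omega) k3 k4 (Nat.le_add_left 1 _) N1 n1.le (abs_sub_gbar_le g0 g1 B1)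
    (abs_sum_sub_gbar_le g0 g1 B1) (one_le_pow₀ l1)
  rw [Icc_add_one_left_eq_Ioc] at key
  replace key := key.trans (OscC_num hC hη (lt_of_lt_of_le one_pos x1)
    (by push_cast; exact (Nat.lt_floor_add_one _).le) K0 (by linarith) l1 (by positivity)
    (by exact_mod_cast n6) a1 (by exact_mod_cast n9) (Real.log_nonneg N0)
    ((Real.log_le_log (by linarith) (Nat.cast_le.2 n7)).trans lgl) (by positivity) a2 hH')
  refine (pow_le_pow_iff_left₀ (sum_nonneg fun _ _ => abs_nonneg _) (by positivity) two_ne_zero).1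
    (sq_sum_le_card_mul_sum_sq.trans ?_)
  simp only [sq_abs]
  refine (mul_le_mul (b := (x : ℝ)) (Nat.cast_le.2 (by rw [Nat.card_Ioc]; omega)) key
    (sum_nonneg fun _ _ => sq_nonneg _) (by linarith)).trans ?_
  have c1 : 16 * (C * (756 / η + 3)) ≤ l * ε ^ 2 :=
    (div_le_iff₀ (by positivity)).1 ((le_of_max_le_right e5).trans lgl)
  have c2 : (Real.log x + 1) ^ 4 ≤ (2 * l) ^ 4 := pow_le_pow_left₀ (by linarith) (by linarith) 4
  have c3 : (l : ℝ) ^ 5 ≤ (l : ℝ) ^ 6 := pow_le_pow_right₀ l1 (by norm_num)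
  have c0 : 0 ≤ C * (756 / η + 3) := by positivity
  generalize C * (756 / η + 3) = D at *
  have c4 : D * (Real.log x + 1) ^ 4 ≤ ε ^ 2 * (l : ℝ) ^ 6 :=
    calc _ ≤ D * (2 * l) ^ 4 := mul_le_mul_of_nonneg_left c2 c0
      _ = 16 * D * (l : ℝ) ^ 4 := by ring
      _ ≤ l * ε ^ 2 * (l : ℝ) ^ 4 := mul_le_mul_of_nonneg_right c1 (by positivity)
      _ = ε ^ 2 * (l : ℝ) ^ 5 := by ring
      _ ≤ _ := mul_le_mul_of_nonneg_left c3 (by positivity)
  rw [← mul_div_assoc, div_pow, div_le_div_iff₀ (by positivity) (by positivity)]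
  calc _ = (H : ℝ) ^ 2 * (x : ℝ) ^ 2 * (D * (Real.log x + 1) ^ 4) := by ring
    _ ≤ (H : ℝ) ^ 2 * (x : ℝ) ^ 2 * (ε ^ 2 * (l : ℝ) ^ 6) :=
        mul_le_mul_of_nonneg_left c4 (by positivity)
    _ = _ := by ring

lemma OscC_mem (al : ℕ → ℝ) {x t : ℕ} (ht : t ≤ x) :
    Ex al (PI 1 (x + 1)) (fun Q => ind (t ∈ cx x Q)) = rhoC al t := by
  unfold rhoC
  split_ifs with hp
  · rw [← Ex_mem (ρ := al) (mem_PI.2 ⟨hp.one_le, Nat.lt_succ_of_le ht, hp⟩)]
    exact Ex_congr fun Q _ => ind_congr (by rw [mem_cx]; exact or_iff_right (not_lt.2 ht))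
  · rw [← Ex_const (ρ := al) (U := PI 1 (x + 1)) 0]
    refine Ex_congr fun Q hQ => ind_neg fun h => ?_
    rcases mem_cx.1 h with h | h
    · exact absurd ht (not_le.2 h)
    · exact hp (mem_PI.1 (hQ h)).2.2

/-- The sum of the averaged masses over a block below `x`. -/
lemma OscC_sum (hρ : Prob al) {x K z B : ℕ} (hK : 1 ≤ K) (hz : z + B ≤ x + 1) :
    ∑ m ∈ Ico z (z + B), Ex al (PI 1 (x + 1)) (fun Q => gg (cx x Q) K m) ≤
      ∑ t ∈ Ico z (z + B), rhoC al t + K := by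
  rw [← Ex_sum]
  calc Ex al (PI 1 (x + 1)) (fun Q => ∑ m ∈ Ico z (z + B), gg (cx x Q) K m)
      ≤ Ex al (PI 1 (x + 1)) (fun Q => ∑ t ∈ Ico z (z + B), ind (t ∈ cx x Q) + K) :=
        Ex_mono hρ fun Q _ => gg_sum (cx_infinite x Q) hK z B
    _ = ∑ t ∈ Ico z (z + B), Ex al (PI 1 (x + 1)) (fun Q => ind (t ∈ cx x Q)) + K := by
        rw [Ex_add, Ex_const, Ex_sum]
    _ = _ := by
        congr 1
        refine sum_congr rfl fun t ht => OscC_mem al ?_
        have := (mem_Ico.1 ht).2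
        omega

/-- Sizes of `N` and `B`. -/
lemma OscC_NB {x K1 l H N B : ℕ} (hK : 1 ≤ K1) (hl : 1 ≤ l) (hH : H ≤ x)
    (hN : N = (x + H) / K1 + 1) (hB : B = N / l ^ 9 + 1) :
    (x : ℝ) / K1 ≤ N ∧ (N : ℝ) ≤ 2 * (x / K1) + 1 ∧ (N : ℝ) / l ^ 9 ≤ B ∧
      (B : ℝ) ≤ N / l ^ 9 + 1 := by
  have hK' : (0 : ℝ) < K1 := by exact_mod_cast hK
  have hl9 : 0 < l ^ 9 := by positivity
  have hl' : (0 : ℝ) < (l : ℝ) ^ 9 := by exact_mod_cast hl9
  refine ⟨?_, ?_, ?_, ?_⟩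
  · rw [div_le_iff₀ hK']
    have h := Nat.lt_div_mul_add (a := x + H) (b := K1) hK
    have : x ≤ N * K1 := by rw [hN]; nlinarith
    exact_mod_cast this
  · have h : (((x + H) / K1 : ℕ) : ℝ) ≤ ((x + H : ℕ) : ℝ) / K1 := Nat.cast_div_le
    have h2 : ((x + H : ℕ) : ℝ) / K1 ≤ 2 * (x / K1) := by
      have h3 : (H : ℝ) ≤ x := by exact_mod_cast hH
      rw [← mul_div_assoc]
      refine div_le_div_of_nonneg_right ?_ hK'.le
      push_cast
      linarith
    rw [hN]; push_cast at h ⊢; push_cast at h2; linarith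
  · rw [div_le_iff₀ hl']
    have h := Nat.lt_div_mul_add (a := N) (b := l ^ 9) hl9
    have : N ≤ B * l ^ 9 := by rw [hB]; nlinarith
    exact_mod_cast this
  · have h : ((N / l ^ 9 : ℕ) : ℝ) ≤ (N : ℝ) / ((l ^ 9 : ℕ) : ℝ) := Nat.cast_div_le
    rw [hB]; push_cast at h ⊢; linarith

/-- `gbar_le` of `P/Range3` for the thinned primes and `H ≤ x` (so `N ≤ 3 x / K1`). The block
`[z, z + B)` lies below `x` (`z + B ≤ 2 N ≤ x`), there `Ex (ind (t ∈ cx x Q)) = rhoC al t`;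
`short_pntC`. -/
theorem gbar_leC (hT : Thin al α) {δ η ε : ℝ} (h0 : 0 < δ) (h1 : δ ≤ 1 / 10) (hη : 0 < η)
    (hε : 0 < ε) :
    ∀ᶠ x : ℕ in atTop, ∀ K0 K1 l H N B m : ℕ, 1 ≤ K0 → K0 ≤ K1 → Lp δ x ≤ 2 * K1 →
      K1 * (Lp δ x * sp x) ≤ 2 * x → l = ⌈Real.log x⌉₊ → H ≤ x →
      N = (x + H) / K1 + 1 → B = N / l ^ 9 + 1 → η * x ≤ 2 * K1 * m → m ≤ N →
      gbar (fun m' => Ex al (PI 1 (x + 1)) fun Q => gg (cx x Q) K0 m') B m ≤
        (α + ε) / Real.log m := by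
  obtain ⟨z0, hz0⟩ := eventually_atTop.1 (short_pntC hT (half_pos hε) 10)
  filter_upwards [log_pow_le_Lp h0 10 (C := 8 / ε) (by positivity),
    log_pow_le_Lp h0 0 (C := 8 / η) (by positivity), log_pow_le_Lp h0 0 (C := 12) (by norm_num),
    Range3_log_ge (12 / η), Range3_log_ge (2 ^ 19), eventually_ge_atTop (z0 ^ 2),
    eventually_ge_atTop 4] with x ha hb hc hd he hf hx4
  intro K0 K1 l H N B m hK0 hK01 hL hK hl hH hNd hB hm hmN
  have hK1 : 1 ≤ K1 := hK0.trans hK01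
  have hK1' : (1 : ℝ) ≤ K1 := by exact_mod_cast hK1
  have hx' : (4 : ℝ) ≤ x := by exact_mod_cast hx4
  set lg : ℝ := Real.log x with hlg
  have hlg1 : (1 : ℝ) ≤ lg := le_trans (by norm_num) he
  have hl1 : lg ≤ l := by rw [hl]; exact Nat.le_ceil _
  have hl2 : (l : ℝ) ≤ lg + 1 := by rw [hl]; exact (Nat.ceil_lt_add_one (by linarith)).le
  have hl0 : 1 ≤ l := by exact_mod_cast hlg1.trans hl1
  have hl0' : (1 : ℝ) ≤ l := hlg1.trans hl1
  obtain ⟨n1, n2, b1, b2⟩ := OscC_NB hK1 hl0 hH hNd hB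
  set L : ℝ := (Lp δ x : ℝ) with hLd
  set s : ℝ := (sp x : ℝ) with hsd
  set y : ℝ := (x : ℝ) / K1 with hy
  have hs1 : (1 : ℝ) ≤ s := by
    rw [hsd]; exact_mod_cast (Nat.le_add_left 1 _ : 1 ≤ Nat.sqrt x + 1)
  have hsq : √(x : ℝ) ≤ s := sqrt_le_sp x
  have hxs : (x : ℝ) ≤ s ^ 2 := by rw [hsd]; exact_mod_cast le_sp_sq x
  have hKr : (K1 : ℝ) * (L * s) ≤ 2 * x := by rw [hLd, hsd]; exact_mod_cast hK
  have hL4 : (12 : ℝ) ≤ L := by simpa using hc
  have hK6 : (6 : ℝ) ≤ K1 := by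
    have : L ≤ 2 * K1 := by rw [hLd]; exact_mod_cast hL
    linarith
  have hy1 : L * s / 2 ≤ y := by
    rw [hy, le_div_iff₀ (by linarith)]; linarith
  have hy2 : y ≤ x / 6 := by
    rw [hy]; exact div_le_div_of_nonneg_left (by linarith) (by norm_num) hK6
  have hLs : L ≤ L * s := le_mul_of_one_le_right (by linarith) hs1
  have hN2 : (N : ℝ) ≤ 3 * y := by linarith
  have hηL : 8 ≤ η * L := by
    have : 8 / η ≤ L := by simpa using hb
    rwa [div_le_iff₀' hη] at this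
  have hm1 : η * y ≤ 2 * m := by
    rw [hy, ← mul_div_assoc, div_le_iff₀ (by linarith)]; linarith
  have hl9 : (l : ℝ) ≤ (l : ℝ) ^ 9 := le_self_pow₀ hl0' (by norm_num)
  have hl9' : (0 : ℝ) < (l : ℝ) ^ 9 := by positivity
  have hηl : 12 ≤ η * (l : ℝ) ^ 9 := by
    have : 12 / η ≤ (l : ℝ) ^ 9 := hd.trans (hl1.trans hl9)
    rwa [div_le_iff₀' hη] at this
  have hηy : 4 * s ≤ η * y := by
    have h3 : η * (L * s / 2) ≤ η * y := mul_le_mul_of_nonneg_left hy1 hη.le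
    have h4 : 8 * s ≤ η * L * s := mul_le_mul_of_nonneg_right hηL (by linarith)
    linarith
  have hBm : B ≤ m := by
    have h3 : (N : ℝ) / l ^ 9 ≤ η * y / 4 := by
      rw [div_le_iff₀ hl9']
      have h4 : 0 ≤ y := by linarith
      have h5 : 12 * y ≤ η * (l : ℝ) ^ 9 * y := mul_le_mul_of_nonneg_right hηl h4
      linarith
    have : (B : ℝ) ≤ m := by linarith
    exact_mod_cast this
  have hB1 : 1 ≤ B := by rw [hB]; exact Nat.le_add_left 1 _
  have hB1' : (0 : ℝ) < B := by exact_mod_cast hB1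
  set z : ℕ := B * (m / B) with hz
  have hzB : B ≤ z := by
    have : 1 ≤ m / B := (Nat.one_le_div_iff hB1).2 hBm
    exact Nat.le_mul_of_pos_right B this
  have hzm : z ≤ m := Nat.mul_div_le m B
  have hz2 : m ≤ 2 * z := by
    have h := Nat.lt_mul_div_succ m hB1
    rw [mul_add, mul_one, ← hz] at h
    omega
  have hz2' : (m : ℝ) ≤ 2 * z := by exact_mod_cast hz2
  have hzs : √(x : ℝ) ≤ z := by linarith
  have hsx : (2 : ℝ) ≤ √(x : ℝ) := by
    rw [show (2 : ℝ) = √4 by rw [show (4 : ℝ) = 2 ^ 2 by norm_num, Real.sqrt_sq (by norm_num)]]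
    exact Real.sqrt_le_sqrt hx'
  have hzz : z0 ≤ z := by
    have h3 : (z0 : ℝ) ≤ √(x : ℝ) := by
      apply Real.le_sqrt_of_sq_le
      exact_mod_cast hf
    exact_mod_cast h3.trans hzs
  have hlz : lg / 2 ≤ Real.log z := by
    rw [hlg, ← Real.log_sqrt (by linarith)]
    exact Real.log_le_log (by linarith) hzs
  have hzlog : (z : ℝ) / Real.log z ^ 10 ≤ B := by
    refine le_trans ?_ b1
    have h3 : (l : ℝ) ^ 9 ≤ Real.log z ^ 10 := by
      calc (l : ℝ) ^ 9 ≤ (2 * lg) ^ 9 := by gcongr; linarith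
        _ = lg ^ 9 * 2 ^ 19 / 2 ^ 10 := by ring
        _ ≤ lg ^ 9 * lg / 2 ^ 10 := by gcongr
        _ = (lg / 2) ^ 10 := by ring
        _ ≤ _ := by gcongr
    have h4 : (z : ℝ) ≤ N := by exact_mod_cast hzm.trans hmN
    gcongr
  have hp := hz0 z hzz B hzlog hzB
  have hm2 : (2 : ℝ) ≤ m := by linarith
  have hlm : 0 < Real.log m := Real.log_pos (by linarith)
  have hlm2 : Real.log m ≤ lg + 1 := by
    have h3 : (m : ℝ) ≤ 2 * x := by
      have : (m : ℝ) ≤ N := by exact_mod_cast hmN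
      linarith
    have h4 : Real.log 2 ≤ 1 := by have := Real.log_two_lt_d9; linarith
    calc Real.log m ≤ Real.log (2 * x) := Real.log_le_log (by linarith) h3
      _ = Real.log 2 + lg := by rw [Real.log_mul (by norm_num) (by linarith)]
      _ ≤ _ := by linarith
  have hα := hT.nonneg
  have hp2 : (α + ε / 2) * B / Real.log (2 * z) ≤ (α + ε / 2) * B / Real.log m := by
    gcongr
  have hK2 : (K0 : ℝ) ≤ ε / 2 * B / Real.log m := by
    rw [le_div_iff₀ hlm]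
    have h3 : (K0 : ℝ) ≤ 2 * s := by
      have h4 : (K0 : ℝ) ≤ K1 := by exact_mod_cast hK01
      have h5 : (K1 : ℝ) * s ≤ 2 * s * s := by
        have h6 : (K1 : ℝ) * s * 1 ≤ K1 * s * L :=
          mul_le_mul_of_nonneg_left (by linarith) (by positivity)
        linarith
      have := le_of_mul_le_mul_right h5 (by linarith)
      linarith
    have h4 : L * s / 2 / (lg + 1) ^ 9 ≤ B := by
      refine le_trans ?_ b1
      gcongr
      linarith
    have h5 : 8 * (lg + 1) ^ 10 ≤ ε * L := by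
      have := mul_le_mul_of_nonneg_left ha hε.le
      calc 8 * (lg + 1) ^ 10 = ε * (8 / ε * (lg + 1) ^ 10) := by field_simp
        _ ≤ _ := this
    have h6 : 2 * s * (lg + 1) ≤ ε / 2 * (L * s / 2 / (lg + 1) ^ 9) := by
      rw [← mul_div_assoc, le_div_iff₀ (by positivity)]
      calc 2 * s * (lg + 1) * (lg + 1) ^ 9 = s / 4 * (8 * (lg + 1) ^ 10) := by ring
        _ ≤ s / 4 * (ε * L) := by gcongr
        _ = _ := by ring
    calc (K0 : ℝ) * Real.log m ≤ 2 * s * (lg + 1) := by gcongr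
      _ ≤ _ := h6
      _ ≤ ε / 2 * B := by gcongr
  have hzx : z + B ≤ x + 1 := by
    have h3 : 2 * N ≤ x := by
      have : 2 * (N : ℝ) ≤ x := by linarith
      exact_mod_cast this
    omega
  have hsum := OscC_sum hT.prob hK0 hzx
  unfold gbar
  rw [← hz, div_le_iff₀ hB1']
  calc _ ≤ _ := hsum
    _ ≤ (α + ε / 2) * B / Real.log m + ε / 2 * B / Real.log m := by linarith
    _ = _ := by ring

end Pool.Agent.Work.MP_9a1701_nt.P
end
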