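import Pool.Agent.Work.MP_9a1701_nt.T.Twist
import Pool.Agent.Work.MP_9a1701_nt.T.Expand
import Pool.Agent.Work.MP_9a1701_nt.P.An

/-!
# The twisted sums are small on average
-/

set_option autoImplicit false
open Finset Filter

namespace Pool.Agent.Work.MP_9a1701_nt.P

lemma TwSum_num {C1 C2 η x x0 r K N w H Y Δ : ℝ} (hC1 : 0 ≤ C1) (hC2 : 0 ≤ C2) (hη : 0 < η)
    (hx : 0 < x) (hx0 : η * x ≤ x0) (hr : 1 ≤ r) (d0 : 0 ≤ Δ) (d1 : Δ * r ^ 18 ≤ 8 * C1 * K)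
    (kn : K * N ≤ 6 * x) (w0 : 0 ≤ w) (wK : w ≤ K) (N0 : 0 ≤ N) (Y0 : 0 < Y)
    (hY : N ^ 2 * r ^ 36 ≤ Y) (hw : w * r ^ 17 ≤ H)
    (hD : C2 * ((2304 * C1 ^ 2 + 36) / η + 6) ≤ r) :
    C2 * H ^ 2 / x0 * (Δ ^ 2 * N ^ 2 + w ^ 2 * N ^ 4 / Y) + C2 * K * N * w ^ 2 ≤
      H ^ 2 * x / r ^ 32 := by
  have r0 : 0 < r := one_pos.trans_le hr
  have a1 : Δ ^ 2 * N ^ 2 ≤ 2304 * C1 ^ 2 * x ^ 2 / r ^ 36 := by
    rw [le_div_iff₀ (by positivity)]
    have b1 : Δ * r ^ 18 * N ≤ 48 * C1 * x := by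
      linarith only [mul_le_mul_of_nonneg_right d1 N0, mul_le_mul_of_nonneg_left kn hC1]
    linarith only [pow_le_pow_left₀ (by positivity) b1 2]
  have a2 : w ^ 2 * N ^ 4 / Y ≤ 36 * x ^ 2 / r ^ 36 := by
    rw [div_le_div_iff₀ Y0 (by positivity)]
    have b1 : w * N ≤ 6 * x := (mul_le_mul_of_nonneg_right wK N0).trans kn
    have b2 := mul_le_mul (pow_le_pow_left₀ (by positivity) b1 2) hY (by positivity)
      (by positivity)
    linarith only [b2]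
  have a3 : C2 * H ^ 2 / x0 ≤ C2 * H ^ 2 / (η * x) :=
    div_le_div_of_nonneg_left (by positivity) (by positivity) hx0
  have a4 : K * N * w ^ 2 ≤ 6 * x * H ^ 2 / r ^ 34 := by
    rw [le_div_iff₀ (by positivity)]
    have b2 := mul_le_mul kn (pow_le_pow_left₀ (by positivity) hw 2) (by positivity)
      (by positivity)
    linarith only [b2]
  have a5 := mul_le_mul a3 (add_le_add a1 a2) (by positivity) (by positivity)
  have a6 := mul_le_mul_of_nonneg_left a4 hC2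
  have p1 : r ^ 33 ≤ r ^ 36 := pow_le_pow_right₀ hr (by norm_num)
  have p2 : r ^ 33 ≤ r ^ 34 := pow_le_pow_right₀ hr (by norm_num)
  calc _ ≤ C2 * H ^ 2 / (η * x) * (2304 * C1 ^ 2 * x ^ 2 / r ^ 36 + 36 * x ^ 2 / r ^ 36) +
        C2 * (6 * x * H ^ 2 / r ^ 34) := by linarith only [a5, a6]
    _ = H ^ 2 * x * (C2 * ((2304 * C1 ^ 2 + 36) / η) / r ^ 36 + C2 * 6 / r ^ 34) := by field_simp
    _ ≤ H ^ 2 * x * (C2 * ((2304 * C1 ^ 2 + 36) / η) / r ^ 33 + C2 * 6 / r ^ 33) :=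
        mul_le_mul_of_nonneg_left (add_le_add
          (div_le_div_of_nonneg_left (by positivity) (by positivity) p1)
          (div_le_div_of_nonneg_left (by positivity) (by positivity) p2)) (by positivity)
    _ = H ^ 2 * x * (C2 * ((2304 * C1 ^ 2 + 36) / η + 6)) / r ^ 33 := by ring
    _ ≤ H ^ 2 * x * r / r ^ 33 :=
        div_le_div_of_nonneg_right (mul_le_mul_of_nonneg_left hD (by positivity)) (by positivity)
    _ = _ := by field_simp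

/-- One twisted sum: `DP_twist`, `avg_tw` and Cauchy-Schwarz. -/
theorem tws_small {δ : ℝ} (h0 : 0 < δ) (h1 : δ ≤ 1 / 10) : ∃ κ0 : ℝ, 0 < κ0 ∧ ∀ κ η : ℝ,
    0 < κ → κ ≤ κ0 → 0 < η → ∀ᶠ x : ℕ in atTop, ∀ rr w KL K1 H N q c : ℕ, rr = Lp κ x →
      Lp δ x ≤ 2 * KL → KL ≤ K1 → K1 + w ≤ 2 * KL → w * rr ^ 9 ≤ KL → H = KL * rr ^ 8 → H ≤ x →
      KL ≤ x → N = (x + H) / KL + 1 → 1 ≤ q → q ≤ 4 * rr → ¬ q ∣ c → ∀ b : ℕ → ℝ,
      (∀ m, |b m| ≤ 1) →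
      ∑ n ∈ Ioc ⌊η * x⌋₊ x, ‖tws K1 w N H q c n b‖ ≤ H * x / (rr : ℝ) ^ 16 := by
  obtain ⟨c, hc, C1, hC1, hD⟩ := DP_twist (2 * ⌈7 / δ⌉₊)
  obtain ⟨C2, hC2, hav⟩ := avg_tw
  have c0 : 0 < min c 1 := lt_min hc one_pos
  refine ⟨min c 1 * δ / 80, by positivity, fun κ η hκ hκ0 hη => ?_⟩
  filter_upwards [An_rpow_ev h0 6, An_rpow_ev hκ 2,
    An_rpow_ev hκ (C2 * ((2304 * C1 ^ 2 + 36) / η + 6)), eventually_ge_atTop 1] with x e1 e2 e3 e4
  intro rr w KL K1 H N q a hr k1 k2 k3 k4 hH k5 k6 hN q1 q2 q3 b hb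
  have x1 : (1 : ℝ) ≤ x := Nat.one_le_cast.2 e4
  have x0 : (0 : ℝ) < x := one_pos.trans_le x1
  have r1 : (x : ℝ) ^ κ ≤ rr := hr ▸ le_Lp κ x
  have r2 : (rr : ℝ) ≤ 2 * (x : ℝ) ^ κ := hr ▸ Lp_le hκ e4
  have r3 : (1 : ℝ) ≤ rr := by linarith only [r1, e2]
  have r4 : 1 ≤ rr := Nat.one_le_cast.1 r3
  have L6 : 6 ≤ Lp δ x := by exact_mod_cast e1.trans (le_Lp δ x)
  have K3 : 3 ≤ KL := by omega
  have n1 : x + H < KL * N := hN ▸ Nat.lt_mul_div_succ _ (by omega)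
  have n2 : KL * N ≤ x + H + KL := by
    rw [hN, mul_add, mul_one]
    exact Nat.add_le_add_right (Nat.mul_div_le _ _) _
  have n3 : KL * N ≤ K1 * N := Nat.mul_le_mul_right N k2
  have n4 : K1 * N ≤ 2 * KL * N := Nat.mul_le_mul_right N (by omega)
  have n6 : K1 * N ≤ 6 * x := by
    rw [mul_assoc] at n4
    omega
  have n7 : N ≤ x := by
    have := Nat.mul_le_mul_right N K3
    omega
  have n8 : rr ^ 8 ≤ x := (Nat.le_mul_of_pos_left _ (by omega)).trans (hH ▸ k5)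
  have n9 : w * rr ^ 17 ≤ H := by
    rw [hH, show 17 = 9 + 8 from rfl, pow_add, ← mul_assoc]
    exact Nat.mul_le_mul_right _ k4
  have K2 : (3 : ℝ) ≤ K1 := by exact_mod_cast K3.trans k2
  have K0 : (0 : ℝ) < K1 := by linarith only [K2]
  have K1' : (1 : ℝ) ≤ K1 := by linarith only [K2]
  have b1 : (x : ℝ) ^ δ ≤ (K1 : ℝ) ^ 2 := by
    have : (Lp δ x : ℝ) ≤ 2 * K1 := by exact_mod_cast k1.trans (Nat.mul_le_mul_left 2 k2)
    linarith only [this, le_Lp δ x, mul_le_mul_of_nonneg_left K2 K0.le, K0]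
  have b2 : (rr : ℝ) ^ 19 ≤ (K1 : ℝ) ^ min c 1 := by
    have d1 : (rr : ℝ) ≤ ((x : ℝ) ^ κ) ^ 2 := by
      linarith only [r2, mul_le_mul_of_nonneg_left e2 (zero_le_two.trans e2)]
    have d2 : (x : ℝ) ^ (δ / 2) ≤ K1 := by
      refine (pow_le_pow_iff_left₀ (by positivity) K0.le two_ne_zero).1 (le_trans (le_of_eq ?_) b1)
      rw [← Real.rpow_natCast, ← Real.rpow_mul x0.le]
      norm_num
    refine (pow_le_pow_left₀ (by positivity) d1 19).trans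
      (le_trans ?_ (Real.rpow_le_rpow (by positivity) d2 c0.le))
    rw [← pow_mul, ← Real.rpow_natCast, ← Real.rpow_mul x0.le, ← Real.rpow_mul x0.le]
    refine Real.rpow_le_rpow_of_exponent_le x1 ?_
    push_cast
    linarith only [hκ0, hκ]
  have b3 : (rr : ℝ) ^ 19 ≤ K1 := by
    simpa using b2.trans (Real.rpow_le_rpow_of_exponent_le K1' (min_le_right c 1))
  have b4 : (K1 : ℝ) ^ (-c) * (rr : ℝ) ^ 19 ≤ 1 := by
    rw [Real.rpow_neg K0.le, inv_mul_le_iff₀ (by positivity), mul_one]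
    exact b2.trans (Real.rpow_le_rpow_of_exponent_le K1' (min_le_left c 1))
  have a1 : C1 * q * (1 + K1 * (K1 : ℝ) ^ (-c)) * (rr : ℝ) ^ 18 ≤ 8 * C1 * K1 := by
    have d1 : (q : ℝ) ≤ 4 * rr := by exact_mod_cast q2
    have d2 := mul_le_mul_of_nonneg_left d1
      (show 0 ≤ C1 * (1 + K1 * (K1 : ℝ) ^ (-c)) * (rr : ℝ) ^ 18 by positivity)
    have d3 := mul_le_mul_of_nonneg_left b3 hC1
    have d4 := mul_le_mul_of_nonneg_left b4 (mul_nonneg hC1 K0.le)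
    linarith only [d2, d3, d4]
  have a2 : (N : ℝ) ^ 2 * (rr : ℝ) ^ 36 ≤ (K1 : ℝ) ^ (2 * ⌈7 / δ⌉₊) := by
    have d2 : (7 : ℝ) ≤ δ * ⌈7 / δ⌉₊ := (div_le_iff₀' h0).1 (Nat.le_ceil _)
    have d3 : (N : ℝ) ^ 2 * (rr : ℝ) ^ 36 ≤ (x : ℝ) ^ 7 := by
      have : N ^ 2 * rr ^ 36 ≤ x ^ 2 * x ^ 5 := Nat.mul_le_mul (Nat.pow_le_pow_left n7 2)
        ((Nat.pow_le_pow_right r4 (by norm_num : 36 ≤ 8 * 5)).trans
          (by rw [pow_mul]; exact Nat.pow_le_pow_left n8 5))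
      rw [← pow_add] at this
      exact_mod_cast this
    rw [pow_mul]
    refine d3.trans (le_trans ?_ (pow_le_pow_left₀ (by positivity) b1 _))
    rw [← Real.rpow_natCast, ← Real.rpow_natCast, ← Real.rpow_mul x0.le]
    exact Real.rpow_le_rpow_of_exponent_le x1 (by exact_mod_cast d2)
  have key := hav K1 w N (⌊η * x⌋₊ + 1) x H _ b _ ((K1 : ℝ) ^ (2 * ⌈7 / δ⌉₊)) (by omega) (by omega)
    (Nat.le_add_left 1 _) (hN ▸ Nat.le_add_left 1 _) (by omega)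
    (fun K => (Complex.norm_exp_ofReal_mul_I _).le) hb (by positivity)
    (hD q a K1 (K1 + w) q1 q3 (by omega) (by omega) (by omega))
  rw [Icc_add_one_left_eq_Ioc] at key
  replace key := key.trans (TwSum_num hC1 hC2 hη x0
    (by push_cast; exact (Nat.lt_floor_add_one _).le) r3 (by positivity) a1 (by exact_mod_cast n6)
    (Nat.cast_nonneg _) (by exact_mod_cast (by omega : w ≤ K1)) (Nat.cast_nonneg _) (by positivity)
    a2 (by exact_mod_cast n9) (e3.trans r1))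
  refine (pow_le_pow_iff_left₀ (sum_nonneg fun _ _ => norm_nonneg _) (by positivity)
    two_ne_zero).1 (sq_sum_le_card_mul_sum_sq.trans ?_)
  refine (mul_le_mul (b := (x : ℝ)) (Nat.cast_le.2 (by rw [Nat.card_Ioc]; omega)) key
    (sum_nonneg fun _ _ => sq_nonneg _) x0.le).trans_eq ?_
  ring

/-- At most `2 (4 rr) ^ 3` sums; `q ∤ a r` since `r` is coprime to `q` and `1 ≤ a < q`. -/
theorem tw_small {al : ℕ → ℝ} (hρ : Prob al) {δ : ℝ} (h0 : 0 < δ) (h1 : δ ≤ 1 / 10) :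
    ∃ κ0 : ℝ, 0 < κ0 ∧ ∀ κ η : ℝ, 0 < κ → κ ≤ κ0 → 0 < η → ∀ᶠ x : ℕ in atTop,
      ∀ rr w KL K1 H N : ℕ, rr = Lp κ x → Par x rr w K1 → Lp δ x ≤ 2 * KL → KL ≤ K1 →
        K1 + w ≤ 2 * KL → w * rr ^ 9 ≤ KL → H = KL * rr ^ 8 → H ≤ x → N = (x + H) / KL + 1 →
        ∑ n ∈ Ioc ⌊η * x⌋₊ x, tw al x w rr K1 N H n ≤ H * x / (rr : ℝ) ^ 10 := by
  obtain ⟨κ0, k0, h⟩ := tws_small h0 h1
  refine ⟨κ0, k0, fun κ η hκ hκ0 hη => (h κ η hκ hκ0 hη).mono fun x hx => ?_⟩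
  intro rr w KL K1 H N hr hP k1 k2 k3 k4 hH k5 hN
  have r8 : (8 : ℝ) ≤ rr := by exact_mod_cast hP.h8
  have r0 : (0 : ℝ) < rr := by linarith only [r8]
  have s : ∀ (I : Finset ℕ) (f : ℕ → ℝ) (d : ℝ), 0 ≤ d → I.card ≤ 4 * rr → (∀ i ∈ I, f i ≤ d) →
      ∑ i ∈ I, f i ≤ 4 * rr * d := fun I f d d0 k k' =>
    (sum_le_card_nsmul _ _ _ k').trans (by
      rw [nsmul_eq_mul]
      exact mul_le_mul_of_nonneg_right (by exact_mod_cast k) d0)
  unfold tw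
  rw [sum_comm]
  refine (s _ _ (4 * rr * (4 * rr * (2 * (H * x / (rr : ℝ) ^ 16)))) (by positivity) (by simp)
    fun q hq => ?_).trans ?_
  · obtain ⟨q1, q2⟩ := mem_Icc.1 hq
    rw [sum_comm]
    refine s _ _ _ (by positivity) ((card_filter_le _ _).trans (by rwa [Finset.card_range]))
      fun r hr' => ?_
    rw [sum_comm]
    refine s _ _ _ (by positivity) (by rw [Nat.card_Ico]; omega) fun a ha => ?_
    obtain ⟨a1, a2⟩ := mem_Ico.1 ha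
    have nd : ¬ q ∣ a * r := fun d =>
      absurd (Nat.le_of_dvd a1 ((mem_filter.1 hr').2.symm.dvd_of_dvd_mul_right d)) (not_le.2 a2)
    have k := hx rr w KL K1 H N q (a * r) hr k1 k2 k3 k4 hH k5 (k2.trans hP.lex) hN q1 q2 nd
    rw [sum_add_distrib, two_mul]
    exact add_le_add (k _ (abs_gam_le hρ hP Real.abs_cos_le_one q r a))
      (k _ (abs_gam_le hρ hP Real.abs_sin_le_one q r a))
  · have p : (8 : ℝ) ^ 3 ≤ (rr : ℝ) ^ 3 := pow_le_pow_left₀ (by norm_num) r8 3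
    calc _ = H * x * 128 / (rr : ℝ) ^ 13 := by field_simp; ring
      _ ≤ H * x * (rr : ℝ) ^ 3 / (rr : ℝ) ^ 13 :=
          div_le_div_of_nonneg_right (mul_le_mul_of_nonneg_left (by linarith only [p])
            (by positivity)) (by positivity)
      _ = _ := by field_simp

end Pool.Agent.Work.MP_9a1701_nt.P
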