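import Pool.Agent.Work.MP_9a1701_nt.T.Typ
import Pool.Agent.Work.MP_9a1701_nt.P.Bridge
import Pool.Agent.Work.MP_9a1701_nt.T.Expand
import Pool.Agent.Work.MP_9a1701_nt.P.Range1
import Pool.Agent.Work.MP_9a1701_nt.P.An
import Pool.Agent.Work.MP_9a1701_nt.T.OscC
import Pool.Agent.Work.MP_9a1701_nt.T.TwSum
import Pool.Agent.Work.MP_9a1701_nt.V.V5
import Pool.Agent.Work.MP_9a1701_nt.P.PtB

-- merged part: Pool.Agent.Work.MP_9a1701_nt.T.Bad
section
/-!
# The number of bad blocks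
-/

set_option autoImplicit false
open Finset Filter

namespace Pool.Agent.Work.MP_9a1701_nt.P

lemma Bad_fst {A : Set ℕ} {lo hi : ℕ} {p q : ℕ × ℕ} (hp : p ∈ blk A lo hi) (hq : q ∈ blk A lo hi)
    (hc : bcard A p.1 p.2 = bcard A q.1 q.2) (h : p.1 = q.1) : p = q := by
  rw [mem_blk] at hp hq
  refine Prod.ext h ?_
  rw [h] at hc
  rcases lt_trichotomy p.2 q.2 with k | k | k
  · exact absurd hc (bcard_lt_right (by omega) k hq.2.2.2.2).ne
  · exact k
  · exact absurd hc.symm (bcard_lt_right (by omega) k hp.2.2.2.2).ne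

lemma Bad_snd {A : Set ℕ} {lo hi : ℕ} {p q : ℕ × ℕ} (hp : p ∈ blk A lo hi) (hq : q ∈ blk A lo hi)
    (hc : bcard A p.1 p.2 = bcard A q.1 q.2) (h : p.2 = q.2) : p = q := by
  rw [mem_blk] at hp hq
  refine Prod.ext ?_ h
  rw [h] at hc
  rcases lt_trichotomy p.1 q.1 with k | k | k
  · exact absurd hc.symm (bcard_lt_left (by omega) k hp.2.2.2.1).ne
  · exact k
  · exact absurd hc (bcard_lt_left (by omega) k hq.2.2.2.1).ne

lemma Bad_left {A : Set ℕ} {a a' t : ℕ} (h1 : a ≤ t) (h2 : a' ≤ t) (ha : a ∈ A) (ha' : a' ∈ A)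
    (h : bcard A a t = bcard A a' t) : a = a' := by
  rcases lt_trichotomy a a' with k | k | k
  · exact absurd h.symm (bcard_lt_left h1 k ha).ne
  · exact k
  · exact absurd h (bcard_lt_left h2 k ha').ne

lemma Bad_right {A : Set ℕ} {b b' t : ℕ} (h1 : t ≤ b) (h2 : t ≤ b') (hb : b ∈ A) (hb' : b' ∈ A)
    (h : bcard A t b = bcard A t b') : b = b' := by
  rcases lt_trichotomy b b' with k | k | k
  · exact absurd h (bcard_lt_right h2 k hb').ne
  · exact k
  · exact absurd h.symm (bcard_lt_right h1 k hb).ne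

lemma Bad_seg (a : ℕ) {J : ℕ} (hJ : 1 ≤ J) : a / J * J ≤ a ∧ a < (a / J + 1) * J := by
  refine ⟨Nat.div_mul_le_self a J, ?_⟩
  rw [add_mul, one_mul]
  exact Nat.lt_div_mul_add hJ

lemma Bad_close {i i' G : ℕ} (hG : 1 ≤ G) (h : i / G = i' / G) : i < i' + G := by
  have h1 := (Bad_seg i hG).2
  have h2 := (Bad_seg i' hG).1
  rw [h, add_mul, one_mul] at h1
  omega

/-- at most `J` end points in a segment -/
lemma Bad_fib {P : Finset (ℕ × ℕ)} (f : ℕ × ℕ → ℕ) (hf : Set.InjOn f P) {J : ℕ} (hJ : 1 ≤ J)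
    (S : Finset ℕ) (hS : ∀ p ∈ P, f p / J ∈ S) : P.card ≤ J * S.card := by
  refine card_le_mul_card_image_of_maps_to hS J fun i _ => ?_
  have e : (Ico (i * J) ((i + 1) * J)).card = J := by
    rw [Nat.card_Ico, add_mul, one_mul, Nat.add_sub_cancel_left]
  refine le_trans ?_ e.le
  refine card_le_card_of_injOn f (fun p hp => ?_) (hf.mono fun p hp => ?_)
  · rw [mem_coe, mem_filter] at hp
    have := Bad_seg (f p) hJ
    rw [hp.2] at this
    exact mem_coe.2 (mem_Ico.2 this)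
  · exact (mem_filter.1 (mem_coe.1 hp)).1

lemma Bad_par {x rr w K1 : ℕ} (hP : Par x rr w K1) :
    1 ≤ w * rr ∧ 4 * (w * rr) ≤ K1 ∧ w ≤ K1 := by
  have h8 := hP.h8
  have a1 : 1 ≤ rr ^ 199 := Nat.one_le_pow _ _ (by omega)
  have a2 : 1 ≤ w := by
    rcases Nat.eq_zero_or_pos w with k | k
    · have := hP.hi
      have := hP.big
      rw [k, zero_mul] at *
      omega
    · exact k
  have a3 : 8 ^ 8 ≤ rr ^ 8 := Nat.pow_le_pow_left h8 8
  have a4 : w * rr * 4 ≤ w * rr * rr ^ 8 := Nat.mul_le_mul_left _ (by omega)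
  have a5 : w * rr * rr ^ 8 = w * rr ^ 9 := by ring
  have a6 : w * 1 ≤ w * rr := Nat.mul_le_mul_left _ (by omega)
  have := hP.lo
  omega

open Classical in
/-- Every point `t < hi` is covered (`a ≤ t < b`) by at most `K` blocks with `K` elements, so
the spans add up to at most `K hi`. -/
lemma sparse_count (A : Set ℕ) (lo hi K S : ℕ) :
    ((blk A lo hi).filter fun p => bcard A p.1 p.2 = K ∧ p.1 + S < p.2).card * S ≤ K * hi := by
  refine le_trans (card_mul_le_card_mul (t := range hi) (n := K)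
    (fun (p : ℕ × ℕ) (t : ℕ) => p.1 ≤ t ∧ t < p.2) (fun p hp => ?_)
    fun t _ => ?_) (le_of_eq (by rw [Finset.card_range, mul_comm]))
  · obtain ⟨h1, -, h2⟩ := mem_filter.1 hp
    rw [mem_blk] at h1
    have e : (Ico p.1 (p.1 + S)).card = S := by simp
    refine le_trans e.ge ?_
    refine card_le_card fun t ht => ?_
    rw [mem_Ico] at ht
    exact (mem_bipartiteAbove _).2 ⟨mem_range.2 (by omega), ht.1, by omega⟩
  · have e : (Icc 1 K).card = K := by simp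
    refine le_trans ?_ e.le
    refine card_le_card_of_injOn (fun p => bcard A p.1 t) (fun p hp => ?_) fun p hp q hq h => ?_
    · obtain ⟨h0, h3, h4⟩ := (mem_bipartiteBelow _).1 (mem_coe.1 hp)
      obtain ⟨h1, h2, -⟩ := mem_filter.1 h0
      rw [mem_blk] at h1
      exact mem_coe.2 (mem_Icc.2 ⟨bcard_pos h3 h1.2.2.2.1,
        (bcard_lt_right h1.2.1 h4 h1.2.2.2.2).le.trans h2.le⟩)
    · obtain ⟨h0, h3, -⟩ := (mem_bipartiteBelow _).1 (mem_coe.1 hp)
      obtain ⟨h1, h2, -⟩ := mem_filter.1 h0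
      obtain ⟨k0, k3, -⟩ := (mem_bipartiteBelow _).1 (mem_coe.1 hq)
      obtain ⟨k1, k2, -⟩ := mem_filter.1 k0
      exact Bad_fst h1 k1 (h2.trans k2.symm)
        (Bad_left h3 k3 (mem_blk.1 h1).2.2.2.1 (mem_blk.1 k1).2.2.2.1 h)

open Classical in
/-- The block is determined by either end point; `a ↦ (a / J, bcard A a (end of segment))` is
injective. -/
lemma edge_count (A : Set ℕ) (lo hi K ks : ℕ) {J : ℕ} (hJ : 1 ≤ J) :
    ((blk A lo hi).filter fun p => bcard A p.1 p.2 = K ∧ ¬ NonEdge A J ks p).card ≤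
      2 * ks * (hi / J + 1) := by
  have e : (range (hi / J + 1) ×ˢ Icc 1 ks).card = ks * (hi / J + 1) := by
    rw [card_product, Finset.card_range, Nat.card_Icc, Nat.add_sub_cancel, mul_comm]
  have h1 : ((blk A lo hi).filter fun p => bcard A p.1 p.2 = K ∧
      bcard A p.1 ((p.1 / J + 1) * J - 1) ≤ ks).card ≤ ks * (hi / J + 1) := by
    rw [← e]
    refine card_le_card_of_injOn (fun p => (p.1 / J, bcard A p.1 ((p.1 / J + 1) * J - 1)))
      (fun p hp => ?_) fun p hp q hq h => ?_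
    · obtain ⟨a1, -, a3⟩ := mem_filter.1 (mem_coe.1 hp)
      rw [mem_blk] at a1
      have := (Bad_seg p.1 hJ).2
      exact mem_coe.2 (mem_product.2 ⟨mem_range.2 (Nat.lt_succ_of_le
        (Nat.div_le_div_right (by omega))), mem_Icc.2 ⟨bcard_pos (by omega) a1.2.2.2.1, a3⟩⟩)
    · obtain ⟨a1, a2, -⟩ := mem_filter.1 (mem_coe.1 hp)
      obtain ⟨b1, b2, -⟩ := mem_filter.1 (mem_coe.1 hq)
      obtain ⟨c1, c2⟩ := Prod.mk.inj h
      have d1 := (Bad_seg p.1 hJ).2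
      have d2 := (Bad_seg q.1 hJ).2
      rw [c1] at c2 d1
      exact Bad_fst a1 b1 (a2.trans b2.symm) (Bad_left (by omega) (by omega)
        (mem_blk.1 a1).2.2.2.1 (mem_blk.1 b1).2.2.2.1 c2)
  have h2 : ((blk A lo hi).filter fun p => bcard A p.1 p.2 = K ∧
      bcard A (p.2 / J * J) p.2 ≤ ks).card ≤ ks * (hi / J + 1) := by
    rw [← e]
    refine card_le_card_of_injOn (fun p => (p.2 / J, bcard A (p.2 / J * J) p.2))
      (fun p hp => ?_) fun p hp q hq h => ?_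
    · obtain ⟨a1, -, a3⟩ := mem_filter.1 (mem_coe.1 hp)
      rw [mem_blk] at a1
      refine mem_coe.2 (mem_product.2 ⟨mem_range.2 (Nat.lt_succ_of_le
        (Nat.div_le_div_right (by omega))), mem_Icc.2 ⟨?_, a3⟩⟩)
      show 1 ≤ bcard A (p.2 / J * J) p.2
      rw [Blk1_bcard]
      exact card_pos.2 ⟨p.2, Blk1_mem.2 ⟨(Bad_seg p.2 hJ).1, le_rfl, a1.2.2.2.2⟩⟩
    · obtain ⟨a1, a2, -⟩ := mem_filter.1 (mem_coe.1 hp)
      obtain ⟨b1, b2, -⟩ := mem_filter.1 (mem_coe.1 hq)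
      obtain ⟨c1, c2⟩ := Prod.mk.inj h
      have d1 := (Bad_seg p.2 hJ).1
      have d2 := (Bad_seg q.2 hJ).1
      rw [c1] at c2 d1
      exact Bad_snd a1 b1 (a2.trans b2.symm) (Bad_right d1 d2
        (mem_blk.1 a1).2.2.2.2 (mem_blk.1 b1).2.2.2.2 c2)
  rw [mul_assoc, two_mul]
  refine le_trans (card_le_card fun p hp => ?_) ((card_union_le _ _).trans (add_le_add h1 h2))
  obtain ⟨a1, a2, a3⟩ := mem_filter.1 hp
  rcases not_and_or.1 a3 with k | k
  · exact mem_union_left _ (mem_filter.2 ⟨a1, a2, not_lt.1 k⟩)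
  · exact mem_union_right _ (mem_filter.2 ⟨a1, a2, not_lt.1 k⟩)

open Classical in
/-- In every window `[i G, (i + 1) G)` all elements of `S` after the first one are marked points
within distance `G` of the first one. -/
lemma marked_right (X : Set ℕ) (S : Finset ℕ) {M G E : ℕ} (hG : 1 ≤ G) (hS : ∀ i ∈ S, i ≤ M ∧ i ∈ X ∧
    ((Ioc i (i + G)).filter fun j => j ∈ X).card ≤ E) : S.card ≤ (M / G + 1) * (E + 1) := by
  rw [mul_comm, ← Finset.card_range (M / G + 1)]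
  refine card_le_mul_card_image_of_maps_to (f := fun i => i / G) (fun i hi => mem_range.2
    (Nat.lt_succ_of_le (Nat.div_le_div_right (hS i hi).1))) _ fun b _ => ?_
  rcases (S.filter fun i => i / G = b).eq_empty_or_nonempty with h | h
  · rw [h]
    simp
  · obtain ⟨i, hi, hm⟩ := exists_min_image _ (fun i => i) h
    obtain ⟨a1, a2⟩ := mem_filter.1 hi
    refine le_trans (card_le_card fun j hj => ?_) ((card_insert_le i _).trans
      (Nat.succ_le_succ (hS i a1).2.2))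
    obtain ⟨b1, b2⟩ := mem_filter.1 hj
    have c1 := Bad_close hG (b2.trans a2.symm)
    rcases (hm j hj).eq_or_lt with k | k
    · exact mem_insert.2 (Or.inl k.symm)
    · exact mem_insert_of_mem (mem_filter.2 ⟨mem_Ioc.2 ⟨k, c1.le⟩, (hS j b1).2.1⟩)

open Classical in
lemma marked_left (X : Set ℕ) (S : Finset ℕ) {M G E : ℕ} (hG : 1 ≤ G) (hS : ∀ i ∈ S, i ≤ M ∧ i ∈ X ∧
    ((Ico (i - G) i).filter fun j => j ∈ X).card ≤ E) : S.card ≤ (M / G + 1) * (E + 1) := by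
  rw [mul_comm, ← Finset.card_range (M / G + 1)]
  refine card_le_mul_card_image_of_maps_to (f := fun i => i / G) (fun i hi => mem_range.2
    (Nat.lt_succ_of_le (Nat.div_le_div_right (hS i hi).1))) _ fun b _ => ?_
  rcases (S.filter fun i => i / G = b).eq_empty_or_nonempty with h | h
  · rw [h]
    simp
  · obtain ⟨i, hi, hm⟩ := exists_max_image _ (fun i => i) h
    obtain ⟨a1, a2⟩ := mem_filter.1 hi
    refine le_trans (card_le_card fun j hj => ?_) ((card_insert_le i _).trans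
      (Nat.succ_le_succ (hS i a1).2.2))
    obtain ⟨b1, b2⟩ := mem_filter.1 hj
    have c1 := Bad_close hG (a2.trans b2.symm)
    rcases (hm j hj).eq_or_lt with k | k
    · exact mem_insert.2 (Or.inl k)
    · exact mem_insert_of_mem (mem_filter.2 ⟨mem_Ico.2 ⟨by omega, k⟩, (hS j b1).2.1⟩)

open Classical in
/-- For a type `(q, r)` mark the segments that hold a prime outside the class. A regular window
contains the `G = K1 / (2 J)` segments right of `s.1` and left of `s.2` (`card_Ws_le`), at most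
`4096 rr ^ 5` of them are marked (`ty_spec`). Each segment holds at most `J` end points. -/
theorem unclean_count {x rr w K1 : ℕ} (hP : Par x rr w K1) (A : Set ℕ) (lo hi K : ℕ) :
    ((blk A lo hi).filter fun p => bcard A p.1 p.2 = K ∧
      Reg (w * rr) K1 rr (p.1 / (w * rr), p.2 / (w * rr)) ∧
      ¬ Clean (w * rr) rr (p.1 / (w * rr), p.2 / (w * rr))).card ≤
      2 * (w * rr) * (4 * rr) ^ 2 *
        ((hi / (w * rr) / (K1 / (2 * (w * rr))) + 1) * (4096 * rr ^ 5 + 1)) := by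
  obtain ⟨hJ, h4, -⟩ := Bad_par hP
  generalize w * rr = J at hJ h4 ⊢
  have hG : 1 ≤ K1 / (2 * J) := (Nat.le_div_iff_mul_le (by omega)).2 (by omega)
  have hG' : K1 / (2 * J) * (2 * J) ≤ K1 := Nat.div_mul_le_self _ _
  generalize K1 / (2 * J) = G at hG hG' ⊢
  let X : ℕ × ℕ → Set ℕ := fun t => {i | ∃ u : ℕ, u.Prime ∧ u / J = i ∧ ¬ u ≡ t.2 [MOD t.1]}
  let SR : ℕ × ℕ → Finset ℕ := fun t => (range (hi / J + 1)).filter fun i => i ∈ X t ∧
    ((Ioc i (i + G)).filter fun j => j ∈ X t).card ≤ 4096 * rr ^ 5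
  let SL : ℕ × ℕ → Finset ℕ := fun t => (range (hi / J + 1)).filter fun i => i ∈ X t ∧
    ((Ico (i - G) i).filter fun j => j ∈ X t).card ≤ 4096 * rr ^ 5
  have sub : ((blk A lo hi).filter fun p => bcard A p.1 p.2 = K ∧
      Reg J K1 rr (p.1 / J, p.2 / J) ∧ ¬ Clean J rr (p.1 / J, p.2 / J)) ⊆
      (Icc 1 (4 * rr) ×ˢ range (4 * rr)).biUnion fun t =>
        ((blk A lo hi).filter fun p => bcard A p.1 p.2 = K ∧ p.1 / J ∈ SR t) ∪
        ((blk A lo hi).filter fun p => bcard A p.1 p.2 = K ∧ p.2 / J ∈ SL t) := by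
    intro p hp
    obtain ⟨a1, a2, a3, a4⟩ := mem_filter.1 hp
    obtain ⟨⟨b1, b2, b3, b4, -⟩, -⟩ := ty_spec hP a3
    have c1 := card_Ws_le J (p.1 / J, p.2 / J)
    have c2 : G ≤ p.2 / J - p.1 / J - 1 := by
      have c3 := a3.1
      refine Nat.le_of_mul_le_mul_right (c := 2 * J) ?_ (by omega)
      have : (p.2 / J - p.1 / J - 1) * (2 * J) = 2 * ((p.2 / J - p.1 / J - 1) * J) := by ring
      simp only at c1
      omega
    have c4 : ∀ T : Finset ℕ, (∀ j ∈ T, p.1 / J < j ∧ j < p.2 / J) →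
        (T.filter fun j => j ∈ X (ty J rr (p.1 / J, p.2 / J))).card ≤ 4096 * rr ^ 5 := by
      intro T hT
      have e : 4 * rr * (1024 * rr ^ 4) = 4096 * rr ^ 5 := by ring
      rw [← e]
      refine le_trans ?_ b4
      unfold exc
      refine le_trans (card_le_card fun j hj => ?_) (card_image_le (f := fun u => u / J))
      obtain ⟨d1, u, d2, d3, d4⟩ := mem_filter.1 hj
      obtain ⟨d5, d6⟩ := hT j d1
      have d7 := Bad_seg u hJ
      rw [d3] at d7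
      exact mem_image.2 ⟨u, mem_filter.2 ⟨mem_PI.2 ⟨(Nat.mul_le_mul_right J d5).trans d7.1,
        d7.2.trans_le (Nat.mul_le_mul_right J d6), d2⟩, d4⟩, d3⟩
    have a5 := mem_blk.1 a1
    refine mem_biUnion.2 ⟨ty J rr (p.1 / J, p.2 / J), mem_product.2 ⟨mem_Icc.2 ⟨b1, b2⟩,
      mem_range.2 (by omega)⟩, ?_⟩
    unfold Clean at a4
    push Not at a4
    obtain ⟨u, u1, u2, u3⟩ := a4
    rcases u2 with u2 | u2
    · refine mem_union_left _ (mem_filter.2 ⟨a1, a2, mem_filter.2 ⟨mem_range.2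
        (Nat.lt_succ_of_le (Nat.div_le_div_right (by omega))), ⟨u, u1, u2, u3⟩,
        c4 _ fun j hj => ?_⟩⟩)
      rw [mem_Ioc] at hj
      omega
    · refine mem_union_right _ (mem_filter.2 ⟨a1, a2, mem_filter.2 ⟨mem_range.2
        (Nat.lt_succ_of_le (Nat.div_le_div_right (by omega))), ⟨u, u1, u2, u3⟩,
        c4 _ fun j hj => ?_⟩⟩)
      rw [mem_Ico] at hj
      omega
  refine (card_le_card sub).trans (card_biUnion_le.trans ((sum_le_card_nsmul _ _
    (2 * (J * ((hi / J / G + 1) * (4096 * rr ^ 5 + 1)))) fun t _ => ?_).trans (le_of_eq ?_)))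
  · rw [two_mul]
    refine (card_union_le _ _).trans (add_le_add ?_ ?_)
    · refine (Bad_fib (fun p => p.1) (fun p hp q hq h => ?_) hJ (SR t)
        fun p hp => (mem_filter.1 hp).2.2).trans (Nat.mul_le_mul_left _
        (marked_right (X t) _ hG fun i hi => ?_))
      · obtain ⟨a1, a2, -⟩ := mem_filter.1 (mem_coe.1 hp)
        obtain ⟨b1, b2, -⟩ := mem_filter.1 (mem_coe.1 hq)
        exact Bad_fst a1 b1 (a2.trans b2.symm) h
      · obtain ⟨a1, a2⟩ := mem_filter.1 hi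
        exact ⟨Nat.le_of_lt_succ (mem_range.1 a1), a2⟩
    · refine (Bad_fib (fun p => p.2) (fun p hp q hq h => ?_) hJ (SL t)
        fun p hp => (mem_filter.1 hp).2.2).trans (Nat.mul_le_mul_left _
        (marked_left (X t) _ hG fun i hi => ?_))
      · obtain ⟨a1, a2, -⟩ := mem_filter.1 (mem_coe.1 hp)
        obtain ⟨b1, b2, -⟩ := mem_filter.1 (mem_coe.1 hq)
        exact Bad_snd a1 b1 (a2.trans b2.symm) h
      · obtain ⟨a1, a2⟩ := mem_filter.1 hi
        exact ⟨Nat.le_of_lt_succ (mem_range.1 a1), a2⟩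
  · rw [smul_eq_mul, card_product, Nat.card_Icc, Finset.card_range, Nat.add_sub_cancel]
    ring

/-- (C8). The elements of the block outside the two end segments are kept primes of the window,
so `card (Ws) ≥ K - 2 J ≥ K1 / 2`, and an irregular class forces `b - a > K1 rr`. -/
theorem bad_total {x rr w K1 : ℕ} (hP : Par x rr w K1) {lo hi K : ℕ} (hhi : hi ≤ x + 1)
    (hK1 : K1 ≤ hi) (hK : K ∈ Ioc K1 (K1 + w)) {Q : Finset ℕ} (hQ : Q ⊆ PI 1 (x + 1)) :
    (badK (cx x Q) lo hi (w * rr) K1 rr (2 * w) K : ℝ) ≤ 10 ^ 6 * hi / rr := by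
  classical
  obtain ⟨hJ, h4, hw⟩ := Bad_par hP
  have h8 := hP.h8
  rw [mem_Ioc] at hK
  have n1 := sparse_count (cx x Q) lo hi K (K1 * rr)
  have n2 := edge_count (cx x Q) lo hi K (2 * w) hJ
  have n3 := unclean_count hP (cx x Q) lo hi K
  have key : badK (cx x Q) lo hi (w * rr) K1 rr (2 * w) K ≤
      ((blk (cx x Q) lo hi).filter fun p => bcard (cx x Q) p.1 p.2 = K ∧
        p.1 + K1 * rr < p.2).card +
      ((blk (cx x Q) lo hi).filter fun p => bcard (cx x Q) p.1 p.2 = K ∧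
        ¬ NonEdge (cx x Q) (w * rr) (2 * w) p).card +
      ((blk (cx x Q) lo hi).filter fun p => bcard (cx x Q) p.1 p.2 = K ∧
        Reg (w * rr) K1 rr (p.1 / (w * rr), p.2 / (w * rr)) ∧
        ¬ Clean (w * rr) rr (p.1 / (w * rr), p.2 / (w * rr))).card := by
    generalize w * rr = J at hJ h4 ⊢
    unfold badK
    refine le_trans (card_le_card fun p hp => ?_) ((card_union_le _ _).trans
      (Nat.add_le_add_right (card_union_le _ _) _))
    obtain ⟨a1, a2, a3⟩ := mem_filter.1 hp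
    by_cases k1 : NonEdge (cx x Q) J (2 * w) p
    · by_cases k2 : Reg J K1 rr (p.1 / J, p.2 / J)
      · exact mem_union_right _ (mem_filter.2 ⟨a1, a2, k2, fun k3 => a3 ⟨⟨k2, k3⟩, k1⟩⟩)
      · refine mem_union_left _ (mem_union_left _ (mem_filter.2 ⟨a1, a2, ?_⟩))
        have a5 := mem_blk.1 a1
        have s1 := Bad_seg p.1 hJ
        have s2 := Bad_seg p.2 hJ
        have e : ∀ i : ℕ, (Ico (i * J) ((i + 1) * J)).card = J := fun i => by
          rw [Nat.card_Ico, add_mul, one_mul, Nat.add_sub_cancel_left]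
        have c1 : K ≤ J + J + (Ws J (p.1 / J, p.2 / J)).card := by
          rw [← a2, Blk1_bcard]
          have c2 : Blk1_S (cx x Q) p.1 p.2 ⊆ (Ico (p.1 / J * J) ((p.1 / J + 1) * J) ∪
              Ico (p.2 / J * J) ((p.2 / J + 1) * J)) ∪ Ws J (p.1 / J, p.2 / J) := by
            intro t ht
            obtain ⟨t1, t2, t3⟩ := Blk1_mem.1 ht
            by_cases c3 : t < (p.1 / J + 1) * J
            · exact mem_union_left _ (mem_union_left _ (mem_Ico.2 ⟨by omega, c3⟩))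
            by_cases c4 : p.2 / J * J ≤ t
            · exact mem_union_left _ (mem_union_right _ (mem_Ico.2 ⟨c4, by omega⟩))
            refine mem_union_right _ (mem_PI.2 ⟨not_lt.1 c3, not_le.1 c4, ?_⟩)
            rcases mem_cx.1 t3 with c5 | c5
            · omega
            · exact (mem_PI.1 (hQ c5)).2.2
          refine (card_le_card c2).trans ((card_union_le _ _).trans
            (Nat.add_le_add_right ((card_union_le _ _).trans ?_) _))
          rw [e, e]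
        have c3 : K1 * rr < (p.2 / J - p.1 / J - 1) * J := by
          by_contra c4
          exact k2 ⟨by omega, not_lt.1 c4⟩
        rw [Nat.sub_sub, Nat.sub_mul] at c3
        omega
    · exact mem_union_left _ (mem_union_right _ (mem_filter.2 ⟨a1, a2, k1⟩))
  generalize ((blk (cx x Q) lo hi).filter fun p => bcard (cx x Q) p.1 p.2 = K ∧
        p.1 + K1 * rr < p.2).card = N1 at n1 key
  generalize ((blk (cx x Q) lo hi).filter fun p => bcard (cx x Q) p.1 p.2 = K ∧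
        ¬ NonEdge (cx x Q) (w * rr) (2 * w) p).card = N2 at n2 key
  generalize ((blk (cx x Q) lo hi).filter fun p => bcard (cx x Q) p.1 p.2 = K ∧
        Reg (w * rr) K1 rr (p.1 / (w * rr), p.2 / (w * rr)) ∧
        ¬ Clean (w * rr) rr (p.1 / (w * rr), p.2 / (w * rr))).card = N3 at n3 key
  have m1 : N1 * rr ≤ 2 * hi := by
    refine Nat.le_of_mul_le_mul_left (c := K1) ?_ (by omega)
    calc K1 * (N1 * rr) = N1 * (K1 * rr) := by ring
      _ ≤ K * hi := n1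
      _ ≤ 2 * K1 * hi := Nat.mul_le_mul_right _ (by omega)
      _ = K1 * (2 * hi) := by ring
  have m2 : N2 * rr ≤ 8 * hi := by
    have := Nat.div_mul_le_self hi (w * rr)
    calc N2 * rr ≤ 2 * (2 * w) * (hi / (w * rr) + 1) * rr := Nat.mul_le_mul_right _ n2
      _ = 4 * (hi / (w * rr) * (w * rr)) + 4 * (w * rr) := by ring
      _ ≤ _ := by omega
  have m3 : N3 * rr ≤ 655520 * hi := by
    have hG : 1 ≤ K1 / (2 * (w * rr)) := (Nat.le_div_iff_mul_le (by omega)).2 (by omega)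
    have g1 := (Bad_seg K1 (show 1 ≤ 2 * (w * rr) by omega)).2
    generalize K1 / (2 * (w * rr)) = G at hG g1 n3
    have g2 := Nat.div_mul_le_self hi (w * rr)
    have g3 := Nat.mul_le_mul_right (w * rr) (Nat.div_mul_le_self (hi / (w * rr)) G)
    generalize hi / (w * rr) / G = u at g3 n3
    have g4 : K1 ≤ 2 * G * (2 * (w * rr)) := g1.le.trans (Nat.mul_le_mul_right _ (by omega))
    have g5 : K1 * (u + 1) ≤ 5 * hi := by
      calc K1 * (u + 1) = K1 * u + K1 := by ring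
        _ ≤ 2 * G * (2 * (w * rr)) * u + hi := add_le_add (Nat.mul_le_mul_right _ g4) hK1
        _ = 4 * (u * G * (w * rr)) + hi := by ring
        _ ≤ _ := by omega
    have g6 : 4096 * rr ^ 5 + 1 ≤ 4097 * rr ^ 5 := by
      have : 1 ≤ rr ^ 5 := Nat.one_le_pow _ _ (by omega)
      omega
    calc N3 * rr ≤ 2 * (w * rr) * (4 * rr) ^ 2 * ((u + 1) * (4097 * rr ^ 5)) * rr :=
          Nat.mul_le_mul_right _ (n3.trans (Nat.mul_le_mul_left _ (Nat.mul_le_mul_left _ g6)))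
      _ = 131104 * (w * rr ^ 9 * (u + 1)) := by ring
      _ ≤ 131104 * (K1 * (u + 1)) := Nat.mul_le_mul_left _ (Nat.mul_le_mul_right _ hP.lo)
      _ ≤ _ := by omega
  have r0 : (0 : ℝ) < rr := by exact_mod_cast (show 0 < rr by omega)
  rw [le_div_iff₀ r0]
  have m4 := Nat.mul_le_mul_right rr key
  rw [add_mul, add_mul] at m4
  have : badK (cx x Q) lo hi (w * rr) K1 rr (2 * w) K * rr ≤ 10 ^ 6 * hi := by omega
  exact_mod_cast this

/-- Every block with `K` elements is good or bad, and has one sum. -/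
theorem sum_bad (A : Set ℕ) (lo hi J K1 rr ks K : ℕ) (I : Finset ℕ) :
    ∑ n ∈ I, ((cntK A lo hi K n : ℝ) - cntGood A lo hi J K1 rr ks K n) ≤
      badK A lo hi J K1 rr ks K := by
  classical
  have h1 : ∀ n, cntK A lo hi K n ≤ cntGood A lo hi J K1 rr ks K n +
      (((blk A lo hi).filter fun p => bcard A p.1 p.2 = K ∧
        ¬ (GoodC J K1 rr (p.1 / J, p.2 / J) ∧ NonEdge A J ks p)).filter
          fun p => bsum A p.1 p.2 = n).card := by
    intro n
    unfold cntK cntGood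
    refine le_trans (card_le_card fun p hp => ?_) (card_union_le _ _)
    obtain ⟨a1, a2, a3⟩ := mem_filter.1 hp
    by_cases k : GoodC J K1 rr (p.1 / J, p.2 / J) ∧ NonEdge A J ks p
    · exact mem_union_left _ (mem_filter.2 ⟨a1, a2, a3, k⟩)
    · exact mem_union_right _ (mem_filter.2 ⟨mem_filter.2 ⟨a1, a2, k⟩, a3⟩)
  have h2 : ∑ n ∈ I, (((blk A lo hi).filter fun p => bcard A p.1 p.2 = K ∧
        ¬ (GoodC J K1 rr (p.1 / J, p.2 / J) ∧ NonEdge A J ks p)).filter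
          fun p => bsum A p.1 p.2 = n).card ≤ badK A lo hi J K1 rr ks K := by
    rw [sum_card_fiberwise_eq_card_filter]
    exact card_le_card (filter_subset _ _)
  refine le_trans (sum_le_sum fun n _ => ?_) ((Nat.cast_sum _ _).symm.le.trans (Nat.cast_le.2 h2))
  rw [sub_le_iff_le_add']
  exact_mod_cast h1 n

lemma cntGood_le (A : Set ℕ) (lo hi J K1 rr ks K n : ℕ) :
    cntGood A lo hi J K1 rr ks K n ≤ cntK A lo hi K n := by
  classical
  unfold cntGood cntK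
  refine card_le_card fun p hp => ?_
  simp only [mem_filter] at hp ⊢
  exact ⟨hp.1, hp.2.1, hp.2.2.1⟩

lemma cntK_mono (A : Set ℕ) {lo lo' hi hi' : ℕ} (h1 : lo' ≤ lo) (h2 : hi ≤ hi') (K n : ℕ) :
    cntK A lo hi K n ≤ cntK A lo' hi' K n := by
  unfold cntK
  refine card_le_card fun p hp => ?_
  rw [mem_filter, mem_blk] at hp ⊢
  exact ⟨⟨by omega, hp.1.2.1, by omega, hp.1.2.2.2⟩, hp.2⟩

end Pool.Agent.Work.MP_9a1701_nt.P
end

-- merged part: Pool.Agent.Work.MP_9a1701_nt.T.Short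
section
/-!
# One short range; tilings; the size of the parameters
-/

set_option autoImplicit false
open Finset Filter

namespace Pool.Agent.Work.MP_9a1701_nt.P

variable {al : ℕ → ℝ}

/-- `good_point` for every `m` of the window (at least `(H - K2) / K2` of them, `Range1_card`,
`Range1_filter`), `expand_sum`, and `gg_ge` with `h = 1`, `n = (K1 - w) m` to pass from
`K1 - w` to the base `K00`. -/
theorem short_range (hρ : Prob al) {x rr w K1 : ℕ} (hP : Par x rr w K1)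
    {lo hi K00 KL K2 N H n : ℕ} (hhi : hi ≤ x + 1)
    (hε : ∀ u : ℕ, u.Prime → lo ≤ u → u ≤ x → 1 / (rr : ℝ) ≤ al u * (1 - al u))
    (hn : 4 * K1 * rr ^ 24 ≤ n) (hH : H ≤ K1 * rr ^ 8) (h0 : 1 ≤ K00) (h1 : K00 + 2 + w ≤ K1)
    (h2 : KL ≤ K1) (h3 : K1 + w ≤ K2) (h4 : K2 < H) (hN : n + H ≤ KL * N) :
    ∑ K ∈ Ioc K1 (K1 + w), Ex al (PI 1 (x + 1))
        (fun Q => (cntGood (cx x Q) lo hi (w * rr) K1 rr (2 * w) K n : ℝ)) ≤
      w / ((K1 : ℝ) * rr) + (K2 : ℝ) / (K00 * ((H : ℝ) - K2)) *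
        (∑ K ∈ Ioc K1 (K1 + w), ∑ m ∈ (Icc 1 N).filter (fun m => n < K * m ∧ K * m ≤ n + H),
          Ex al (PI 1 (x + 1)) (fun Q => gg (cx x Q) K00 m) + tw al x w rr K1 N H n) := by
  have hK00 : (0 : ℝ) < K00 := by exact_mod_cast h0
  have hHr : (0 : ℝ) < (H : ℝ) - K2 := by
    have : (K2 : ℝ) < H := by exact_mod_cast h4
    linarith
  have hK2r : (0 : ℝ) < K2 := by exact_mod_cast (by omega : 0 < K2)
  have hb : 1 ≤ K1 - w := by omega
  have hB0 : ∀ K m : ℕ, 0 ≤ Ex al (PI 1 (x + 1)) (fun Q =>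
      Phi (cx x Q) (K1 - w) ((K1 - w) * m) *
        om (w * rr) K1 rr (cls (cx x Q) (K1 - w) (w * rr) ((K1 - w) * m)) Q K n) := by
    intro K m
    refine Ex_nonneg hρ fun Q _ => mul_nonneg (Phi_nonneg (cx_infinite x Q) hb _) ?_
    unfold om
    exact mul_nonneg (Nat.cast_nonneg _) (ind_nonneg _)
  have key : ∀ K ∈ Ioc K1 (K1 + w), ((H : ℝ) - K2) / K2 * (Ex al (PI 1 (x + 1))
        (fun Q => (cntGood (cx x Q) lo hi (w * rr) K1 rr (2 * w) K n : ℝ)) -
          1 / ((K1 : ℝ) * rr)) ≤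
      ∑ m ∈ (Icc 1 N).filter (fun m => n < K * m ∧ K * m ≤ n + H),
        Ex al (PI 1 (x + 1)) (fun Q => Phi (cx x Q) (K1 - w) ((K1 - w) * m) *
          om (w * rr) K1 rr (cls (cx x Q) (K1 - w) (w * rr) ((K1 - w) * m)) Q K n) := by
    intro K hK
    have hK' := mem_Ioc.1 hK
    have hKp : 0 < K := by omega
    have hKr : (0 : ℝ) < K := by exact_mod_cast hKp
    have hKK : (K : ℝ) ≤ K2 := by exact_mod_cast (by omega : K ≤ K2)
    have hc := Range1_card (K := K) (H := H) (n := n) hKp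
    rw [← Range1_filter (by omega : KL < K) hN] at hc
    set S := (Icc 1 N).filter (fun m => n < K * m ∧ K * m ≤ n + H) with hS
    set a := Ex al (PI 1 (x + 1))
        (fun Q => (cntGood (cx x Q) lo hi (w * rr) K1 rr (2 * w) K n : ℝ)) -
          1 / ((K1 : ℝ) * rr) with ha
    have hHn : (0 : ℝ) ≤ H := Nat.cast_nonneg H
    have hl : ((H : ℝ) - K2) / K2 ≤ S.card := by
      refine le_trans ?_ hc.1
      rw [sub_div, div_self hK2r.ne']
      have : (H : ℝ) / K2 ≤ H / K := div_le_div_of_nonneg_left hHn hKr hKK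
      linarith
    rcases le_total a 0 with h | h
    · exact le_trans (mul_nonpos_of_nonneg_of_nonpos (div_pos hHr hK2r).le h)
        (sum_nonneg fun m _ => hB0 K m)
    · refine le_trans (mul_le_mul_of_nonneg_right hl h) ?_
      rw [← nsmul_eq_mul, ← sum_const]
      refine sum_le_sum fun m hm => ?_
      have hm' := (mem_filter.1 hm).2
      have := good_point hρ hP hhi hε hK hn hH hm'.1 hm'.2
      rw [ha]
      linarith
  have hs := sum_le_sum key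
  rw [← mul_sum, sum_sub_distrib, sum_const, Nat.card_Ioc, Nat.add_sub_cancel_left,
    nsmul_eq_mul] at hs
  have hs2 := hs.trans (expand_sum hρ hP N H n)
  have hg : ∀ m : ℕ, Ex al (PI 1 (x + 1)) (fun Q => Phi (cx x Q) (K1 - w) ((K1 - w) * m)) ≤
      1 / (K00 : ℝ) * Ex al (PI 1 (x + 1)) (fun Q => gg (cx x Q) K00 m) := by
    intro m
    rw [← Ex_const_mul]
    refine Ex_mono hρ fun Q _ => ?_
    have e : K1 - w = K00 + (K1 - w - K00) := by omega
    have h := gg_ge (cx_infinite x Q) (K := K00) (k := K1 - w - K00) (h := 1)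
      (n := (K1 - w) * m) (m := m) h0 (by omega) (by rw [← e]) (by rw [← e]; apply le_of_eq; ring)
    rw [← e] at h
    rw [one_div, ← div_eq_inv_mul, le_div_iff₀ hK00]
    linarith
  have htw : 0 ≤ tw al x w rr K1 N H n := by
    unfold tw
    exact sum_nonneg fun q _ => sum_nonneg fun r _ => sum_nonneg fun a _ =>
      add_nonneg (norm_nonneg _) (norm_nonneg _)
  have h5 : 1 / ((K1 - w : ℕ) : ℝ) * tw al x w rr K1 N H n ≤
      1 / (K00 : ℝ) * tw al x w rr K1 N H n := by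
    refine mul_le_mul_of_nonneg_right ?_ htw
    exact one_div_le_one_div_of_le hK00 (by exact_mod_cast (by omega : K00 ≤ K1 - w))
  have h6 : ∑ K ∈ Ioc K1 (K1 + w), ∑ m ∈ (Icc 1 N).filter (fun m => n < K * m ∧ K * m ≤ n + H),
        Ex al (PI 1 (x + 1)) (fun Q => Phi (cx x Q) (K1 - w) ((K1 - w) * m)) ≤
      1 / (K00 : ℝ) * ∑ K ∈ Ioc K1 (K1 + w),
        ∑ m ∈ (Icc 1 N).filter (fun m => n < K * m ∧ K * m ≤ n + H),
          Ex al (PI 1 (x + 1)) (fun Q => gg (cx x Q) K00 m) := by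
    rw [mul_sum]
    refine sum_le_sum fun K _ => ?_
    rw [mul_sum]
    exact sum_le_sum fun m _ => hg m
  set T := ∑ K ∈ Ioc K1 (K1 + w), Ex al (PI 1 (x + 1))
        (fun Q => (cntGood (cx x Q) lo hi (w * rr) K1 rr (2 * w) K n : ℝ)) with hT
  set G := ∑ K ∈ Ioc K1 (K1 + w),
        ∑ m ∈ (Icc 1 N).filter (fun m => n < K * m ∧ K * m ≤ n + H),
          Ex al (PI 1 (x + 1)) (fun Q => gg (cx x Q) K00 m) with hG
  have h7 : ((H : ℝ) - K2) / K2 * (T - w * (1 / ((K1 : ℝ) * rr))) ≤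
      1 / (K00 : ℝ) * (G + tw al x w rr K1 N H n) := by
    rw [mul_add]
    linarith
  have hpos : (0 : ℝ) < (K2 : ℝ) / ((H : ℝ) - K2) := div_pos hK2r hHr
  have h8 := mul_le_mul_of_nonneg_left h7 hpos.le
  have e1 : (K2 : ℝ) / ((H : ℝ) - K2) * (((H : ℝ) - K2) / K2 * (T - w * (1 / ((K1 : ℝ) * rr)))) =
      T - w / ((K1 : ℝ) * rr) := by
    rw [← mul_assoc, mul_one_div]
    have : (K2 : ℝ) / ((H : ℝ) - K2) * (((H : ℝ) - K2) / K2) = 1 := by field_simp
    rw [this, one_mul]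
  have e2 : (K2 : ℝ) / ((H : ℝ) - K2) * (1 / (K00 : ℝ) * (G + tw al x w rr K1 N H n)) =
      (K2 : ℝ) / (K00 * ((H : ℝ) - K2)) * (G + tw al x w rr K1 N H n) := by
    field_simp
  rw [e1, e2] at h8
  linarith

/-- At most `H / K + 1` values of `m`. -/
lemma sum_g_le {K1 K2 N H n : ℕ} (hK1 : 1 ≤ K1) (g gb γ : ℕ → ℝ)
    (hγ : ∀ K ∈ Ioc K1 K2, 0 ≤ γ K)
    (h2 : ∀ K ∈ Ioc K1 K2, ∀ m, n < K * m → K * m ≤ n + H → gb m ≤ γ K) :
    ∑ K ∈ Ioc K1 K2, ∑ m ∈ (Icc 1 N).filter (fun m => n < K * m ∧ K * m ≤ n + H), g m ≤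
      ((H : ℝ) + K2) * ∑ K ∈ Ioc K1 K2, γ K / K + |∑ K ∈ Ioc K1 K2,
        ∑ m ∈ (Icc 1 N).filter (fun m => n < K * m ∧ K * m ≤ n + H), (g m - gb m)| := by
  have key : ∀ K ∈ Ioc K1 K2,
      ∑ m ∈ (Icc 1 N).filter (fun m => n < K * m ∧ K * m ≤ n + H), g m ≤
        ((H : ℝ) + K2) * (γ K / K) +
          ∑ m ∈ (Icc 1 N).filter (fun m => n < K * m ∧ K * m ≤ n + H), (g m - gb m) := by
    intro K hK
    have hK' := mem_Ioc.1 hK
    have hKp : 0 < K := by omega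
    have hKr : (0 : ℝ) < K := by exact_mod_cast hKp
    have hKK : (K : ℝ) ≤ K2 := by exact_mod_cast hK'.2
    have hc := (Range1_card (K := K) (H := H) (n := n) hKp).2
    set S := (Icc 1 N).filter (fun m => n < K * m ∧ K * m ≤ n + H) with hS
    have hsub : S ⊆ Ioc (n / K) ((n + H) / K) := by
      intro m hm
      have hm' := (mem_filter.1 hm).2
      rw [mem_Ioc, Nat.div_lt_iff_lt_mul hKp, Nat.le_div_iff_mul_le hKp, Nat.mul_comm m K]
      exact hm'
    have hcard : (S.card : ℝ) ≤ ((Ioc (n / K) ((n + H) / K)).card : ℝ) := by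
      exact_mod_cast card_le_card hsub
    have hgb : ∑ m ∈ S, gb m ≤ (S.card : ℝ) * γ K := by
      rw [← nsmul_eq_mul, ← sum_const]
      refine sum_le_sum fun m hm => ?_
      have := (mem_filter.1 hm).2
      exact h2 K hK m this.1 this.2
    have hu : (S.card : ℝ) ≤ ((H : ℝ) + K2) / K := by
      refine le_trans (hcard.trans hc) ?_
      rw [add_div]
      have : (1 : ℝ) ≤ K2 / K := by rw [le_div_iff₀ hKr]; linarith
      linarith
    have t2 : (S.card : ℝ) * γ K ≤ ((H : ℝ) + K2) * (γ K / K) := by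
      have : ((H : ℝ) + K2) * (γ K / K) = ((H : ℝ) + K2) / K * γ K := by ring
      rw [this]
      exact mul_le_mul_of_nonneg_right hu (hγ K hK)
    rw [sum_sub_distrib]
    linarith
  have hs := sum_le_sum key
  rw [sum_add_distrib, ← mul_sum] at hs
  exact le_trans hs (add_le_add_right (le_abs_self _) _)

lemma sum_short (a c w : ℕ) (G : ℕ → ℝ) :
    ∑ j ∈ range c, ∑ K ∈ Ioc (a + j * w) (a + j * w + w), G K = ∑ K ∈ Ioc a (a + c * w), G K := by
  induction c with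
  | zero => simp
  | succ c ih =>
    rw [sum_range_succ, ih]
    have e : a + (c + 1) * w = a + c * w + w := by ring
    rw [e]
    exact sum_Ioc_consecutive _ (Nat.le_add_right _ _) (Nat.le_add_right _ _)

lemma sum_ranges' (R c e0 e1 : ℕ) (h : e0 ≤ e1) (G : ℕ → ℝ) :
    ∑ e ∈ Ico e0 e1, ∑ q ∈ Ico R (2 * R),
        ∑ K ∈ Ioc (q * (c * 2 ^ e)) ((q + 1) * (c * 2 ^ e)), G K =
      ∑ K ∈ Ioc (R * c * 2 ^ e0) (R * c * 2 ^ e1), G K := by
  induction e1, h using Nat.le_induction with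
  | base => simp
  | succ b hb ih =>
    rw [sum_Ico_succ_top hb, ih, Range1_q _ _ _ (by omega)]
    have e : 2 * R * (c * 2 ^ b) = R * c * 2 ^ (b + 1) := by ring
    have e' : R * (c * 2 ^ b) = R * c * 2 ^ b := by ring
    rw [e, e']
    exact sum_Ioc_consecutive _ (Nat.mul_le_mul_left _ (Nat.pow_le_pow_right (by omega) hb))
      (Nat.mul_le_mul_left _ (Nat.pow_le_pow_right (by omega) (by omega)))

/-- `rr ≈ x ^ κ` is above every power of `log x` and `rr ^ 200 ≤ L`;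
`K1 L s ≤ 4 x` gives `K1 ≤ 4 √x / L`. -/
theorem par3 {δ κ η C : ℝ} (h0 : 0 < δ) (h1 : δ ≤ 1 / 10) (hκ : 0 < κ) (hκ1 : κ ≤ δ / 400)
    (hη : 0 < η) (hC : 0 < C) : ∀ᶠ x : ℕ in atTop, 8 ≤ Lp κ x ∧
      (x : ℝ) ^ 5 ≤ Real.exp (Lp κ x) ∧ Lp κ x ^ 200 ≤ Lp δ x ∧
      C * (Real.log x + 1) ^ 3 ≤ Lp κ x ∧ ⌈Real.log x⌉₊ ^ 3 ≤ Lp κ x ∧
      ∀ K1 : ℕ, Lp δ x ≤ 2 * K1 → K1 * (Lp δ x * sp x) ≤ 4 * x →
        4 * K1 * Lp κ x ^ 24 ≤ ⌊η * x⌋₊ ∧ K1 * Lp κ x ^ 8 ≤ x ∧ 2 * (x / K1) ≤ x + 1 ∧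
          K1 ≤ 2 * (x / K1) := by
  filter_upwards [An_rpow_ev hκ 8, log_pow_le_Lp hκ 1 (C := 5) (by norm_num),
    log_pow_le_Lp hκ 3 hC, log_pow_le_Lp hκ 3 (C := 1) one_pos,
    An_rpow_ev (δ := δ / 2) (by linarith) (2 ^ 200),
    An_rpow_ev (δ := 1 / 2) (by norm_num) (32 / η), An_rpow_ev (δ := 1 / 2) (by norm_num) 8,
    eventually_ge_atTop 1] with x a1 a2 a3 a4 a5 a6 a7 hx
  have hx' : (1 : ℝ) ≤ x := by exact_mod_cast hx
  have hx0 : (0 : ℝ) < x := by linarith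
  have hl0 : 0 ≤ Real.log x := Real.log_nonneg hx'
  have b1 : 8 ≤ Lp κ x := by exact_mod_cast a1.trans (le_Lp κ x)
  have b2 : (x : ℝ) ^ 5 ≤ Real.exp (Lp κ x) := by
    have e : (x : ℝ) ^ 5 = Real.exp (5 * Real.log x) := by
      rw [show (5 : ℝ) * Real.log x = ((5 : ℕ) : ℝ) * Real.log x by norm_num, Real.exp_nat_mul,
        Real.exp_log hx0]
    rw [e]
    refine Real.exp_le_exp.2 ?_
    rw [pow_one] at a2
    linarith
  have b3 : Lp κ x ^ 200 ≤ Lp δ x := by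
    have c1 : (Lp κ x : ℝ) ^ 200 ≤ (2 * (x : ℝ) ^ κ) ^ 200 :=
      pow_le_pow_left₀ (Nat.cast_nonneg _) (Lp_le hκ hx) 200
    have c2 : ((x : ℝ) ^ κ) ^ 200 ≤ (x : ℝ) ^ (δ / 2) := by
      rw [← Real.rpow_natCast, ← Real.rpow_mul hx0.le]
      refine Real.rpow_le_rpow_of_exponent_le hx' ?_
      push_cast
      linarith
    have c3 : (x : ℝ) ^ δ = (x : ℝ) ^ (δ / 2) * (x : ℝ) ^ (δ / 2) := by
      rw [← Real.rpow_add hx0]
      congr 1
      ring
    have c4 : (Lp κ x : ℝ) ^ 200 ≤ Lp δ x := by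
      refine c1.trans (le_trans ?_ (le_Lp δ x))
      rw [mul_pow, c3]
      exact mul_le_mul a5 c2 (by positivity) (by positivity)
    exact_mod_cast c4
  have b5 : ⌈Real.log x⌉₊ ^ 3 ≤ Lp κ x := by
    have c1 : (⌈Real.log x⌉₊ : ℝ) ≤ Real.log x + 1 := (Nat.ceil_lt_add_one hl0).le
    have c2 : (⌈Real.log x⌉₊ : ℝ) ^ 3 ≤ Lp κ x := by
      refine le_trans (pow_le_pow_left₀ (Nat.cast_nonneg _) c1 3) ?_
      rwa [one_mul] at a4
    exact_mod_cast c2
  refine ⟨b1, b2, b3, a3, b5, fun K1 hK hK' => ?_⟩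
  have hs0 := An_sp_pos x
  have hss := le_sp_sq x
  have hr1 : 1 ≤ Lp κ x := by omega
  have d1 : K1 * Lp δ x ≤ 4 * sp x := by
    refine Nat.le_of_mul_le_mul_right ?_ hs0
    calc K1 * Lp δ x * sp x = K1 * (Lp δ x * sp x) := by ring
      _ ≤ 4 * x := hK'
      _ ≤ 4 * sp x ^ 2 := Nat.mul_le_mul_left 4 hss
      _ = 4 * sp x * sp x := by ring
  have d2 : Lp κ x ^ 24 ≤ Lp δ x := le_trans (Nat.pow_le_pow_right hr1 (by norm_num)) b3
  have d3 : Lp κ x ^ 8 ≤ Lp δ x := le_trans (Nat.pow_le_pow_right hr1 (by norm_num)) b3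
  have d4 : 8 ≤ Lp δ x := by
    refine le_trans b1 (le_trans ?_ b3)
    exact Nat.le_self_pow (by norm_num) _
  have hsr := sp_le hx
  rw [← Real.sqrt_eq_rpow] at a6 a7
  have hsq : √(x : ℝ) * √(x : ℝ) = x := Real.mul_self_sqrt hx0.le
  have hs1 : 0 ≤ √(x : ℝ) := Real.sqrt_nonneg _
  have d5 : 16 * sp x ≤ ⌊η * x⌋₊ := by
    refine Nat.le_floor ?_
    push_cast
    rw [div_le_iff₀ hη] at a6
    have := mul_le_mul_of_nonneg_right a6 hs1
    nlinarith
  have d6 : 4 * sp x ≤ x := by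
    have : (4 : ℝ) * sp x ≤ x := by nlinarith
    exact_mod_cast this
  have hK2 : 4 ≤ K1 := by omega
  refine ⟨?_, ?_, ?_, ?_⟩
  · calc 4 * K1 * Lp κ x ^ 24 ≤ 4 * K1 * Lp δ x := Nat.mul_le_mul_left _ d2
      _ = 4 * (K1 * Lp δ x) := by ring
      _ ≤ 4 * (4 * sp x) := Nat.mul_le_mul_left _ d1
      _ = 16 * sp x := by ring
      _ ≤ _ := d5
  · exact le_trans (Nat.mul_le_mul_left _ d3) (d1.trans d6)
  · have : x / K1 ≤ x / 2 := Nat.div_le_div_left (by omega) (by norm_num)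
    omega
  · have e1 : K1 * 8 ≤ 4 * sp x := le_trans (Nat.mul_le_mul_left _ d4) d1
    have e2 : K1 ≤ Nat.sqrt x := by
      unfold sp at e1
      omega
    have e3 : K1 * K1 ≤ x := Nat.le_sqrt.1 e2
    have e4 : K1 ≤ x / K1 := (Nat.le_div_iff_mul_le (by omega)).2 e3
    omega

/-- `1 / rr ≤ x ^ (-κ) ≤ u ^ (-κ)` for `u ≤ x`. -/
theorem var_ge {α δ κ : ℝ} (hT : Thin al α) (h0 : 0 < δ) (hκ : 0 < κ) : ∀ᶠ x : ℕ in atTop,
    ∀ u : ℕ, Lp δ x * sp x ≤ u → u ≤ x → 1 / (Lp κ x : ℝ) ≤ al u * (1 - al u) := by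
  obtain ⟨N0, hN0⟩ := eventually_atTop.1 (hT.var κ hκ)
  filter_upwards [An_rpow_ev (δ := 1 / 2) (by norm_num) N0, eventually_ge_atTop 1]
    with x a1 hx u hu hux
  have hx' : (1 : ℝ) ≤ x := by exact_mod_cast hx
  rw [← Real.sqrt_eq_rpow] at a1
  have hL : 1 ≤ Lp δ x := by
    have : (1 : ℝ) ≤ Lp δ x := (Real.one_le_rpow hx' h0.le).trans (le_Lp δ x)
    exact_mod_cast this
  have hs : N0 ≤ sp x := by exact_mod_cast a1.trans (sqrt_le_sp x)
  have hsu : sp x ≤ u := le_trans (Nat.le_mul_of_pos_left _ hL) hu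
  have hs0 := An_sp_pos x
  have hu0 : (0 : ℝ) < u := by exact_mod_cast (by omega : 0 < u)
  refine le_trans ?_ (hN0 u (hs.trans hsu))
  rw [Real.rpow_neg hu0.le, ← one_div]
  refine one_div_le_one_div_of_le (Real.rpow_pos_of_pos hu0 κ) (le_trans ?_ (le_Lp κ x))
  exact Real.rpow_le_rpow hu0.le (by exact_mod_cast hux) hκ.le

end Pool.Agent.Work.MP_9a1701_nt.P
end

-- merged part: Pool.Agent.Work.MP_9a1701_nt.T.RangeC
section
/-!
# One long range for the thinned primes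
-/

set_option autoImplicit false
open Finset Filter

namespace Pool.Agent.Work.MP_9a1701_nt.P

variable {al : ℕ → ℝ} {α : ℝ}

lemma RangeC_tw (al : ℕ → ℝ) (x w rr K1 N H n : ℕ) : 0 ≤ tw al x w rr K1 N H n :=
  sum_nonneg fun _ _ => sum_nonneg fun _ _ => sum_nonneg fun _ _ =>
    add_nonneg (norm_nonneg _) (norm_nonneg _)

lemma RangeC_const {A D a ε : ℝ} (hA : 0 ≤ A) (ha0 : 0 ≤ a) (ha : a ≤ 1) (hε : 0 < ε)
    (h : A * (1 + ε / 2) ≤ (1 + ε) * D) : A * (a + ε / 2) ≤ (a + ε) * D := by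
  refine le_of_mul_le_mul_right ?_ (add_pos one_pos hε)
  have h1 : (a + ε / 2) * (1 + ε) ≤ (a + ε) * (1 + ε / 2) := by
    have := mul_le_mul_of_nonneg_right ha hε.le
    linarith
  calc A * (a + ε / 2) * (1 + ε) = A * ((a + ε / 2) * (1 + ε)) := mul_assoc _ _ _
    _ ≤ A * ((a + ε) * (1 + ε / 2)) := mul_le_mul_of_nonneg_left h1 hA
    _ = (a + ε) * (A * (1 + ε / 2)) := by ring
    _ ≤ (a + ε) * ((1 + ε) * D) := mul_le_mul_of_nonneg_left h (add_nonneg ha0 hε.le)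
    _ = _ := by ring

lemma RangeC_err {c H x y r : ℝ} (hc : c * H ≤ 6) (hx : 0 ≤ x) (hy : 1 ≤ y)
    (hr : 21 * y ^ 3 ≤ r) :
    x * (1 / r) + c * (1 / 18 * H * x / y ^ 2) + c * (r ^ 9 * (H * x / r ^ 10)) ≤ x / y ^ 2 := by
  have y0 : 0 < y ^ 2 := by positivity
  have y1 : y ^ 2 ≤ y ^ 3 := pow_le_pow_right₀ hy (by norm_num)
  have r0 : 0 < r := by linarith
  have a1 : x / r ≤ x / (21 * y ^ 2) := div_le_div_of_nonneg_left hx (by linarith) (by linarith)
  have a2 : x / (21 * y ^ 2) = x / y ^ 2 / 21 := by rw [div_div, mul_comm]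
  have a3 : c * (1 / 18 * H * x / y ^ 2) = c * H * (x / y ^ 2) / 18 := by ring
  have a4 : c * (r ^ 9 * (H * x / r ^ 10)) = c * H * (x / r) := by field_simp
  have a5 := mul_le_mul_of_nonneg_right hc (div_nonneg hx y0.le)
  have a6 := mul_le_mul_of_nonneg_right hc (div_nonneg hx r0.le)
  have a7 := div_nonneg hx y0.le
  rw [mul_one_div, a3, a4]
  linarith

/-- `κ0 = min (δ / 400) (κ0 of tw_small)`. With `w0 = rr ^ 9 w`, `K00 = (q - 1) w0`, `KL = q w0`,
`K2 = (q + 1) w0`, `H = KL rr ^ 8`, `N = (x + H) / KL + 1`: sum `short_range` over `j`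
(`Par` holds: `w rr ^ 9 ≤ K1 ≤ 2 R w0 ≤ w rr ^ 10`, `K1 ≥ L / 2 ≥ rr ^ 199`), `sum_short`,
`sum_g_le`, `gbar_leC`, `osc'`, `tw_small`; compare `range_final` in `P/Range3`
(`Range3_const`). The error collects `1 / rr`, `(6 / H) |osc|` and `(6 / H) ∑ j, tw`. -/
theorem range_finalC (hT : Thin al α) {δ : ℝ} (h0 : 0 < δ) (h1 : δ ≤ 1 / 10) :
    ∃ κ0 : ℝ, 0 < κ0 ∧ κ0 ≤ δ / 400 ∧ ∀ (κ η ε : ℝ) (R : ℕ), 0 < κ → κ ≤ κ0 → 0 < η → η ≤ 1 →
      0 < ε → 2 ≤ R → ∀ᶠ x : ℕ in atTop, ∀ rr : ℕ, rr = Lp κ x → ∀ q ∈ Ico R (2 * R), ∀ w : ℕ,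
        Lp δ x ≤ 2 * R * (rr ^ 9 * w) → q * (rr ^ 9 * w) * (Lp δ x * sp x) ≤ 2 * x →
        ∃ err : ℕ → ℝ, (∀ n, 0 ≤ err n) ∧
          ∑ n ∈ Ioc ⌊η * x⌋₊ x, err n ≤ x / (Real.log x + 1) ^ 2 ∧
          ∀ n ∈ Ioc ⌊η * x⌋₊ x,
            ∑ j ∈ range (rr ^ 9),
              ∑ K ∈ Ioc (q * (rr ^ 9 * w) + j * w) (q * (rr ^ 9 * w) + j * w + w),
                Ex al (PI 1 (x + 1)) (fun Q => (cntGood (cx x Q) (Lp δ x * sp x)
                  (2 * (x / (q * (rr ^ 9 * w) + j * w))) (w * rr) (q * (rr ^ 9 * w) + j * w) rr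
                  (2 * w) K n : ℝ)) ≤
              (α + ε) * (1 + 4 / (R : ℝ)) *
                ∑ K ∈ Ioc (q * (rr ^ 9 * w)) ((q + 1) * (rr ^ 9 * w)),
                  1 / (K * Real.log ((n : ℝ) / K)) + err n := by
  obtain ⟨κ1, hκ1, htw⟩ := tw_small hT.prob h0 h1
  refine ⟨min (δ / 400) κ1, lt_min (by positivity) hκ1, min_le_left _ _, ?_⟩
  intro κ η ε R hκ hκ0 hη _ hε hR
  have hR' : (2 : ℝ) ≤ R := by exact_mod_cast hR
  have hC : 0 < (8 + 6 * ε) / ε := by positivity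
  filter_upwards [gbar_leC hT h0 h1 hη (half_pos hε),
    osc' h0 h1 hη (show (0 : ℝ) < 1 / 18 by norm_num),
    htw κ η hκ (hκ0.trans (min_le_right _ _)) hη,
    par3 (C := 2 * R + 21 + (8 + 6 * ε) / ε) h0 h1 hκ (hκ0.trans (min_le_left _ _)) hη
      (by positivity), var_ge hT h0 hκ] with x hg ho ht hp hv
  intro rr hrr q hq w hw hx
  rw [← hrr] at hp hv
  obtain ⟨p8, pex, p200, pC, pl, pK⟩ := hp
  obtain ⟨hq1, hq2⟩ := mem_Ico.1 hq
  have hy : 1 ≤ Real.log x + 1 := le_add_of_nonneg_left (Real.log_natCast_nonneg x)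
  have hy3 : 1 ≤ (Real.log x + 1) ^ 3 := one_le_pow₀ hy
  have pC1 : 2 * R + 21 + (8 + 6 * ε) / ε ≤ rr :=
    (le_mul_of_one_le_right (by positivity) hy3).trans pC
  have pC2 : 21 * (Real.log x + 1) ^ 3 ≤ rr :=
    (mul_le_mul_of_nonneg_right (by linarith) (by linarith)).trans pC
  have pR : 2 * R ≤ rr := by
    have : (2 * R : ℝ) ≤ rr := by linarith
    exact_mod_cast this
  have r1 : 1 ≤ rr := by omega
  have r8 : rr ≤ rr ^ 8 := Nat.le_self_pow (by norm_num) _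
  have r9 : rr ≤ rr ^ 9 := Nat.le_self_pow (by norm_num) _
  have hw1 : 1 ≤ w := by
    refine Nat.pos_of_ne_zero fun e => ?_
    rw [e, mul_zero, mul_zero] at hw
    exact absurd (p200.trans hw) (Nat.pow_pos r1).not_ge
  obtain ⟨p, rfl⟩ : ∃ p, q = p + 1 := ⟨q - 1, by omega⟩
  have hp1 : 1 ≤ p := by omega
  obtain ⟨w0, hw0⟩ : ∃ w0, w0 = rr ^ 9 * w := ⟨_, rfl⟩
  have w3 : 8 * w ≤ w0 := hw0 ▸ Nat.mul_le_mul_right _ (p8.trans r9)
  rw [← hw0] at hw hx ⊢
  obtain ⟨K0, hK0d⟩ : ∃ K0, K0 = p * w0 := ⟨_, rfl⟩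
  obtain ⟨KL, hKLd⟩ : ∃ KL, KL = (p + 1) * w0 := ⟨_, rfl⟩
  obtain ⟨K2, hK2d⟩ : ∃ K2, K2 = (p + 1 + 1) * w0 := ⟨_, rfl⟩
  rw [← hKLd] at hx
  rw [← hKLd, ← hK2d]
  have hK0 : w0 ≤ K0 := hK0d ▸ Nat.le_mul_of_pos_left _ hp1
  have e1 : KL = K0 + w0 := by rw [hKLd, hK0d]; ring
  have e2 : K2 = K0 + 2 * w0 := by rw [hK2d, hK0d]; ring
  have hK01 : 1 ≤ K0 := by omega
  have hK1 : 1 ≤ KL := by omega
  have hL : Lp δ x ≤ 2 * KL := by
    refine hw.trans ?_
    rw [hKLd, mul_assoc]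
    exact Nat.mul_le_mul_left _ (Nat.mul_le_mul_right _ hq1)
  obtain ⟨H, hH⟩ : ∃ H, H = KL * rr ^ 8 := ⟨_, rfl⟩
  obtain ⟨N, hNd⟩ : ∃ N, N = (x + H) / KL + 1 := ⟨_, rfl⟩
  obtain ⟨B, hB⟩ : ∃ B, B = N / ⌈Real.log x⌉₊ ^ 9 + 1 := ⟨_, rfl⟩
  obtain ⟨k1, k2, -⟩ := pK KL hL (hx.trans (by omega))
  rw [← hH] at k2
  have hH4 : KL * 8 ≤ H := hH ▸ Nat.mul_le_mul_left _ (p8.trans r8)
  have hH2 : K2 < H := by omega
  have hxN : x + H ≤ KL * N := hNd ▸ (Nat.lt_mul_div_succ (x + H) hK1).le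
  have hj : ∀ j ∈ range (rr ^ 9), KL + j * w + w ≤ K2 := fun j hj => by
    have : (j + 1) * w ≤ rr ^ 9 * w := Nat.mul_le_mul_right _ (mem_range.1 hj)
    rw [add_mul, one_mul] at this
    omega
  have hj2 : ∀ j ∈ range (rr ^ 9), _ := fun j h => pK (KL + j * w) (by omega) (by
    have := hj j h
    calc (KL + j * w) * (Lp δ x * sp x) ≤ 2 * KL * (Lp δ x * sp x) :=
          Nat.mul_le_mul_right _ (by omega)
      _ = 2 * (KL * (Lp δ x * sp x)) := mul_assoc _ _ _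
      _ ≤ 4 * x := by omega)
  have hP : ∀ j ∈ range (rr ^ 9), Par x rr w (KL + j * w) := fun j h => by
    have := hj j h
    refine ⟨p8, by rw [mul_comm, ← hw0]; omega, ?_, ?_, ?_, pex⟩
    · calc KL + j * w ≤ (p + 1 + 1) * w0 := by omega
        _ ≤ rr * w0 := Nat.mul_le_mul_right _ (by omega)
        _ = w * rr ^ 10 := by rw [hw0]; ring
    · have : rr ^ 199 * 8 ≤ rr ^ 200 := Nat.mul_le_mul_left _ p8
      omega
    · exact (Nat.le_mul_of_pos_right _ (Nat.pow_pos r1)).trans (hj2 j h).2.1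
  obtain ⟨g, hgd⟩ : ∃ g : ℕ → ℝ,
    g = fun m' => Ex al (PI 1 (x + 1)) fun Q => gg (cx x Q) K0 m' := ⟨_, rfl⟩
  have hg0 : ∀ m, 0 ≤ g m := fun m =>
    hgd ▸ Ex_nonneg hT.prob fun Q _ => gg_nonneg (cx_infinite x Q) hK01 m
  have hg1 : ∀ m, g m ≤ 1 := fun m =>
    hgd ▸ Ex_le_const hT.prob fun Q _ => gg_le_one (cx_infinite x Q) hK01 m
  have hosc := ho KL K2 _ H N B hL hx (by omega) (by omega) rfl
    (hH ▸ Nat.mul_le_mul_left _ (pl.trans r8)) k2 hNd hB g hg0 hg1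
  obtain ⟨c, hcd⟩ : ∃ c : ℝ, c = (K2 : ℝ) / (K0 * ((H : ℝ) - K2)) := ⟨_, rfl⟩
  have hc0 : 0 ≤ c := by
    have : (K2 : ℝ) < H := by exact_mod_cast hH2
    exact hcd ▸ div_nonneg (Nat.cast_nonneg _) (mul_nonneg (Nat.cast_nonneg _) (sub_pos.2 this).le)
  have hcc : c * ((H : ℝ) + K2) * (1 + ε / 2) ≤ (1 + ε) * (1 + 4 / (R : ℝ)) ∧ c * H ≤ 6 := by
    have r8' : (rr : ℝ) ≤ (rr : ℝ) ^ 8 := by exact_mod_cast r8
    have h3 : 8 + 6 * ε ≤ ε * (rr : ℝ) ^ 8 := (div_le_iff₀' hε).1 (by linarith)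
    have h := Range3_const (q := (p : ℝ) + 1) (w := w0) (u := (rr : ℝ) ^ 8) hε hR'
      (by exact_mod_cast hq1) (by exact_mod_cast (by omega : 0 < w0)) (by linarith) h3
    have f0 : (K0 : ℝ) = ((p : ℝ) + 1 - 1) * w0 := by rw [hK0d]; push_cast; ring
    have f2 : (K2 : ℝ) = ((p : ℝ) + 1 + 1) * w0 := by rw [hK2d]; push_cast; ring
    have fH : (H : ℝ) = ((p : ℝ) + 1) * w0 * (rr : ℝ) ^ 8 := by rw [hH, hKLd]; push_cast; ring
    rw [hcd, f0, f2, fH]
    exact h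
  have r0 : (0 : ℝ) < rr := by exact_mod_cast r1
  refine ⟨fun n => 1 / (rr : ℝ) + c * |∑ K ∈ Ioc KL K2,
    ∑ m ∈ (Icc 1 N).filter (fun m => n < K * m ∧ K * m ≤ n + H), (g m - gbar g B m)| +
      c * ∑ j ∈ range (rr ^ 9), tw al x w rr (KL + j * w) N H n, fun n => add_nonneg
    (add_nonneg (one_div_pos.2 r0).le (mul_nonneg hc0 (abs_nonneg _)))
    (mul_nonneg hc0 (sum_nonneg fun _ _ => RangeC_tw _ _ _ _ _ _ _ _)), ?_, ?_⟩
  · rw [sum_add_distrib, sum_add_distrib, ← mul_sum, ← mul_sum, sum_comm]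
    refine le_trans (add_le_add (add_le_add ?_ (mul_le_mul_of_nonneg_left hosc hc0))
      (mul_le_mul_of_nonneg_left ?_ hc0)) (RangeC_err hcc.2 (Nat.cast_nonneg x) hy pC2)
    · rw [sum_const, Nat.card_Ioc, nsmul_eq_mul]
      exact mul_le_mul_of_nonneg_right (Nat.cast_le.2 (Nat.sub_le _ _)) (one_div_pos.2 r0).le
    · refine (sum_le_card_nsmul _ _ _ fun j h => ht rr w KL _ H N hrr (hP j h) hL
        (Nat.le_add_right _ _) ((hj j h).trans (by omega)) (by rw [mul_comm, ← hw0]; omega) hH k2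
        hNd).trans_eq ?_
      rw [Finset.card_range, nsmul_eq_mul, Nat.cast_pow]
  intro n hn
  obtain ⟨hn1, hn2⟩ := mem_Ioc.1 hn
  have hn3 : η * x < n := (Nat.floor_lt (by positivity)).1 hn1
  have hKn : 4 * KL < n :=
    (Nat.le_mul_of_pos_right _ (Nat.pow_pos r1)).trans_lt (k1.trans_lt hn1)
  have hlog : ∀ K ∈ Ioc KL K2, (1 : ℝ) < (n : ℝ) / K := by
    intro K hK
    obtain ⟨k1, k2⟩ := mem_Ioc.1 hK
    have k0 : (0 : ℝ) < K := by exact_mod_cast (by omega : 0 < K)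
    rw [one_lt_div k0]
    exact_mod_cast (by omega : K < n)
  have ha := add_nonneg hT.nonneg (half_pos hε).le
  have key := sum_g_le (K2 := K2) (N := N) (H := H) (n := n) hK1 g (gbar g B)
    (fun K => (α + ε / 2) / Real.log ((n : ℝ) / K))
    (fun K hK => div_nonneg ha (Real.log_pos (hlog K hK)).le)
    (by
      intro K hK m m1 m2
      obtain ⟨k1, k2'⟩ := mem_Ioc.1 hK
      have k0 : (0 : ℝ) < K := by exact_mod_cast (by omega : 0 < K)
      have m3 : n < 2 * KL * m := m1.trans_le (Nat.mul_le_mul_right _ (by omega))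
      have m4 : m ≤ N := Nat.le_of_mul_le_mul_left
        ((Nat.mul_le_mul_right _ k1.le).trans (m2.trans (le_trans (by omega) hxN))) hK1
      have m5 : η * x ≤ 2 * KL * m := hn3.le.trans (by exact_mod_cast m3.le)
      refine (hgd ▸ hg K0 KL _ H N B m hK01 (by omega) hL hx rfl k2 hNd hB m5 m4).trans ?_
      have m6 : (n : ℝ) / K ≤ m := by
        rw [div_le_iff₀' k0]; exact_mod_cast m1.le
      have m7 := hlog K hK
      exact div_le_div_of_nonneg_left ha (Real.log_pos m7)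
        (Real.log_le_log (one_pos.trans m7) m6))
  have hS : ∑ K ∈ Ioc KL K2, (α + ε / 2) / Real.log ((n : ℝ) / K) / K =
      (α + ε / 2) * ∑ K ∈ Ioc KL K2, 1 / (K * Real.log ((n : ℝ) / K)) := by
    rw [mul_sum]
    refine sum_congr rfl fun K _ => ?_
    rw [div_div, mul_one_div, mul_comm (K : ℝ)]
  have hS0 : 0 ≤ ∑ K ∈ Ioc KL K2, 1 / (K * Real.log ((n : ℝ) / K)) :=
    sum_nonneg fun K hK =>
      div_nonneg zero_le_one (mul_nonneg (Nat.cast_nonneg _) (Real.log_pos (hlog K hK)).le)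
  have hm := mul_le_mul_of_nonneg_right (RangeC_const
    (mul_nonneg hc0 (add_nonneg (Nat.cast_nonneg _) (Nat.cast_nonneg _))) hT.nonneg hT.le_one hε
    hcc.1) hS0
  rw [hS] at key
  refine (sum_le_sum fun j h => short_range hT.prob (hP j h) (K00 := K0) (KL := KL) (K2 := K2)
    (N := N) (H := H) (hj2 j h).2.2.1 (fun u _ => hv u) ((hj2 j h).1.trans hn1.le)
    (hH ▸ Nat.mul_le_mul_right _ (Nat.le_add_right _ _)) hK01 (by omega) (Nat.le_add_right _ _)
    (hj j h) hH2 (le_trans (by omega) hxN)).trans ?_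
  have s1 : ∑ j ∈ range (rr ^ 9), (w : ℝ) / (((KL + j * w : ℕ) : ℝ) * rr) ≤ 1 / rr := by
    have w1 : (0 : ℝ) < w := by exact_mod_cast hw1
    refine (sum_le_card_nsmul _ _ ((w : ℝ) / (rr ^ 9 * w * rr)) fun j _ => ?_).trans_eq ?_
    · refine div_le_div_of_nonneg_left w1.le (by positivity) (mul_le_mul_of_nonneg_right ?_ r0.le)
      exact_mod_cast (by omega : rr ^ 9 * w ≤ KL + j * w)
    · rw [Finset.card_range, nsmul_eq_mul, Nat.cast_pow]
      field_simp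
  rw [sum_add_distrib, ← mul_sum, sum_add_distrib, sum_short, ← hw0, ← hcd,
    show KL + w0 = K2 by omega]
  rw [hgd] at key
  have k3 := mul_le_mul_of_nonneg_left key hc0
  rw [hgd]
  linarith

end Pool.Agent.Work.MP_9a1701_nt.P
end

-- merged part: Pool.Agent.Work.MP_9a1701_nt.T.ModC1
section
/-!
# The point bound and the bad blocks of one long range
-/

set_option autoImplicit false
open Finset Filter

namespace Pool.Agent.Work.MP_9a1701_nt.P

variable {al : ℕ → ℝ} {α : ℝ}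

/-- `ptA` with `r = x ^ (δ / 2)`: `ρ ≤ 1 ≤ r (1 - ρ)` as `1 - al v ≥ v ^ (-δ / 2)`; for `v > x`
the cell is not reached (`(i + 1) s ≤ x`). -/
theorem hptC (hT : Thin al α) {δ : ℝ} (h0 : 0 < δ) (h1 : δ ≤ 1 / 10) : ∀ᶠ x : ℕ in atTop,
    HPTg ∅ (rhoC al) x (sp x) (Lp δ x) (ip δ x) ((x : ℝ) ^ (δ / 2)) := by
  obtain ⟨v0, hv0⟩ := eventually_atTop.1 (hT.var (δ / 2) (half_pos h0))
  filter_upwards [par1 h0 h1 one_pos,
    log_pow_le_sp 0 (show (0 : ℝ) < (v0 : ℝ) + 1 by positivity)] with x hp hs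
  obtain ⟨p1, -, p3, -⟩ := hp
  have hs' : v0 + 1 ≤ sp x := by
    have : ((v0 + 1 : ℕ) : ℝ) ≤ sp x := by simpa using hs
    exact_mod_cast this
  intro i hi z hz K hK n
  rw [mem_Ico] at hi
  have a1 : (i + 1) * sp x ≤ ip δ x * sp x := Nat.mul_le_mul_right _ hi.2
  have a2 : 1 * sp x ≤ i * sp x := Nat.mul_le_mul_right _ (by omega)
  have hK' : (0 : ℝ) < K := by exact_mod_cast (show 0 < K by omega)
  have hr : (0 : ℝ) ≤ (x : ℝ) ^ (δ / 2) := by positivity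
  refine (ptA (prob_rhoC hT.prob) (r := (x : ℝ) ^ (δ / 2)) (by omega) (by omega) (by omega) hr
    (fun v hv => ?_) n).trans (by gcongr; linarith)
  rw [mem_Ico] at hv
  unfold rhoC
  split_ifs
  · have hv1 : (0 : ℝ) < v := by exact_mod_cast (show 0 < v by omega)
    have b1 := hv0 v (by omega)
    obtain ⟨b2, b3⟩ := hT.prob v
    have b4 : (v : ℝ) ^ (δ / 2) ≤ (x : ℝ) ^ (δ / 2) :=
      Real.rpow_le_rpow hv1.le (by exact_mod_cast (show v ≤ x by omega)) (half_pos h0).le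
    have b5 : (v : ℝ) ^ (δ / 2) * (v : ℝ) ^ (-(δ / 2)) = 1 := by
      rw [← Real.rpow_add hv1, add_neg_cancel, Real.rpow_zero]
    have b6 : (v : ℝ) ^ (-(δ / 2)) ≤ 1 - al v := by nlinarith
    calc al v ≤ (v : ℝ) ^ (δ / 2) * (v : ℝ) ^ (-(δ / 2)) := by rw [b5]; exact b3
      _ ≤ _ := mul_le_mul b4 b6 (by positivity) hr
  · simpa using hr

/-- `Ex_rhoC`, `cntK_congr` (the two configurations agree below `x + 1`), `cntK_mono`. -/
lemma cell_le (hρ : Prob al) {x s L i K K1 n : ℕ} (hi : L ≤ i) (hL : 1 ≤ L) (hK1 : 2 ≤ K1)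
    (hK : K1 ≤ K) (h1 : K * (i * s) ≤ n) (hn : n ≤ x) :
    Ex (rhoC al) (Icc 1 x) (fun Q => (cntK (cfg ∅ Q) (i * s) ((i + 1) * s) K n : ℝ)) ≤
      Ex al (PI 1 (x + 1)) (fun Q => (cntK (cx x Q) (L * s) (2 * (x / K1)) K n : ℝ)) := by
  rw [Ex_rhoC]
  refine Ex_mono hρ fun Q _ => ?_
  have a1 : i * s ≤ x / K1 := (Nat.le_div_iff_mul_le (by omega)).2
    (((Nat.mul_comm _ _).le.trans (Nat.mul_le_mul_right _ hK)).trans (h1.trans hn))
  have a2 : 1 * s ≤ i * s := Nat.mul_le_mul_right _ (by omega)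
  have a3 : (i + 1) * s ≤ 2 * (x / K1) := by rw [add_mul]; omega
  have a4 : x / K1 ≤ x / 2 := Nat.div_le_div_left hK1 two_pos
  rw [cntK_congr (A' := cx x Q) fun t _ ht => by
    rw [mem_cx, mem_cfg]
    exact or_congr_left (iff_of_false (Set.notMem_empty t) (by omega))]
  exact_mod_cast cntK_mono _ (Nat.mul_le_mul_right _ hi) a3 K n

/-- `sum_bad`, `bad_total`, `par3`: each `K` costs at most `2 · 10 ^ 6 (x / K1) / rr`, there are
`rr ^ 9 w ≤ K1` of them. -/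
theorem bad_range (hρ : Prob al) {δ κ : ℝ} (h0 : 0 < δ) (h1 : δ ≤ 1 / 10) (hκ : 0 < κ)
    (hκ1 : κ ≤ δ / 400) {R : ℕ} (hR : 1 ≤ R) : ∀ᶠ x : ℕ in atTop, ∀ rr : ℕ, rr = Lp κ x →
      ∀ q ∈ Ico R (2 * R), ∀ w : ℕ, Lp δ x ≤ 2 * R * (rr ^ 9 * w) →
        q * (rr ^ 9 * w) * (Lp δ x * sp x) ≤ 2 * x → ∀ I : Finset ℕ,
        ∑ n ∈ I, ∑ j ∈ range (rr ^ 9),
          ∑ K ∈ Ioc (q * (rr ^ 9 * w) + j * w) (q * (rr ^ 9 * w) + j * w + w),
            (Ex al (PI 1 (x + 1)) (fun Q => (cntK (cx x Q) (Lp δ x * sp x)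
                (2 * (x / (q * (rr ^ 9 * w) + j * w))) K n : ℝ)) -
              Ex al (PI 1 (x + 1)) (fun Q => (cntGood (cx x Q) (Lp δ x * sp x)
                (2 * (x / (q * (rr ^ 9 * w) + j * w))) (w * rr) (q * (rr ^ 9 * w) + j * w) rr
                (2 * w) K n : ℝ))) ≤ x / (Real.log x + 1) ^ 2 := by
  filter_upwards [par3 h0 h1 hκ hκ1 one_pos
    (show (0 : ℝ) < 2 * 10 ^ 6 + 2 * R by positivity), eventually_ge_atTop 1] with x hp hx
  rintro rr rfl q hq w hL hq2 I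
  obtain ⟨p1, p2, p3, p4, -, p6⟩ := hp
  set rr := Lp κ x
  rw [mem_Ico] at hq
  have hl : 1 ≤ Real.log x + 1 := by linarith [Real.log_natCast_nonneg x]
  have hR0 : (0 : ℝ) ≤ R := by positivity
  have l2 : 1 ≤ (Real.log x + 1) ^ 2 := one_le_pow₀ hl
  have l3 : (Real.log x + 1) ^ 2 ≤ (Real.log x + 1) ^ 3 := pow_le_pow_right₀ hl (by norm_num)
  have hR2 : 2 * R ≤ rr := by
    have : (2 : ℝ) * R ≤ rr := by nlinarith
    exact_mod_cast this
  have hrr : (0 : ℝ) < rr := by exact_mod_cast (show 0 < rr by omega)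
  set W := rr ^ 9 * w with hW
  have hp199 : rr ^ 200 = rr ^ 199 * rr := pow_succ rr 199
  have hpos : 0 < rr ^ 199 := by positivity
  have hW0 : 0 < W := Nat.pos_of_ne_zero fun e => by
    rw [e, mul_zero] at hL
    nlinarith
  have hW' : (0 : ℝ) < W := by exact_mod_cast hW0
  have hqW : R * W ≤ q * W := Nat.mul_le_mul_right _ hq.1
  have hW1 : 1 * W ≤ R * W := Nat.mul_le_mul_right _ hR
  have key : ∀ j ∈ range (rr ^ 9), ∀ K ∈ Ioc (q * W + j * w) (q * W + j * w + w),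
      ∑ n ∈ I, (Ex al (PI 1 (x + 1)) (fun Q => (cntK (cx x Q) (Lp δ x * sp x)
                (2 * (x / (q * W + j * w))) K n : ℝ)) -
              Ex al (PI 1 (x + 1)) (fun Q => (cntGood (cx x Q) (Lp δ x * sp x)
                (2 * (x / (q * W + j * w))) (w * rr) (q * W + j * w) rr
                (2 * w) K n : ℝ))) ≤ 2 * 10 ^ 6 * x / rr / W := by
    intro j hj K hK
    have j1 : j * w ≤ W := Nat.mul_le_mul_right _ (mem_range.1 hj).le
    generalize hK1 : q * W + j * w = K1 at hK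
    have k1 : Lp δ x ≤ 2 * K1 := by rw [mul_assoc] at hL; omega
    have k2 : K1 ≤ 2 * (q * W) := by omega
    obtain ⟨-, q2, q3, q4⟩ := p6 K1 k1 ((Nat.mul_le_mul_right _ k2).trans (by
      rw [mul_assoc]; omega))
    have hP : Par x rr w K1 := by
      refine ⟨p1, by rw [mul_comm]; omega, ?_, by nlinarith, ?_, p2⟩
      · calc K1 ≤ (q + 1) * W := by rw [add_mul]; omega
          _ ≤ rr * W := Nat.mul_le_mul_right _ (by omega)
          _ = w * rr ^ 10 := by rw [hW]; ring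
      · exact (Nat.le_mul_of_pos_right _ (by positivity)).trans q2
    simp only [← Ex_sub]
    rw [← Ex_sum]
    refine Ex_le_const hρ fun Q hQ => (sum_bad _ _ _ _ _ _ _ _ _).trans
      ((bad_total hP q3 q4 hK hQ).trans ?_)
    have k3 : ((x / K1 : ℕ) : ℝ) ≤ (x : ℝ) / W :=
      Nat.cast_div_le.trans (by gcongr; omega)
    push_cast
    calc (10 : ℝ) ^ 6 * (2 * ((x / K1 : ℕ) : ℝ)) / rr ≤ 10 ^ 6 * (2 * ((x : ℝ) / W)) / rr := by
          gcongr
      _ = _ := by ring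
  rw [sum_comm]
  refine (sum_le_sum (g := fun _ => (w : ℝ) * (2 * 10 ^ 6 * x / rr / W)) fun j hj => ?_).trans ?_
  · rw [sum_comm]
    refine (sum_le_card_nsmul _ _ _ (key j hj)).trans ?_
    rw [nsmul_eq_mul, Nat.card_Ioc, Nat.add_sub_cancel_left]
  calc _ = (W : ℝ) * (2 * 10 ^ 6 * x / rr / W) := by
        rw [sum_const, Finset.card_range, nsmul_eq_mul, hW]
        push_cast
        ring
    _ = 2 * 10 ^ 6 * x / rr := by field_simp
    _ ≤ _ := by
        rw [div_le_div_iff₀ hrr (by positivity)]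
        have hx0 : (0 : ℝ) ≤ x := by positivity
        have : 2 * 10 ^ 6 * (Real.log x + 1) ^ 2 ≤ rr := by nlinarith
        nlinarith

end Pool.Agent.Work.MP_9a1701_nt.P
end
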