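import Pool.Agent.Work.MP_9a1701_nt.T.TSetup
import Pool.Agent.Work.MP_9a1701_nt.P.Avg

/-!
# Twisted averages over a short range of lengths
-/

set_option autoImplicit false
open Finset Filter

namespace Pool.Agent.Work.MP_9a1701_nt.P

open Pool.Agent.Lib.MR MeasureTheory

/-- The main term is Lipschitz in the end point. -/
lemma Twist_lip (τ x β : ℝ) (hx : 0 ≤ x) (h0 : 0 ≤ β) :
    ‖((x + β : ℝ) : ℂ) * ce (τ * Real.log (x + β)) / (1 + Complex.I * τ) -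
      (x : ℂ) * ce (τ * Real.log x) / (1 + Complex.I * τ)‖ ≤ β := by
  rcases hx.eq_or_lt with rfl | hx0
  · simpa using (norm_main β τ h0).1
  have hne : (1 + Complex.I * τ : ℂ) ≠ 0 := fun h => by
    have := congrArg Complex.re h; simp at this
  have hd : ∀ s : ℝ, 0 < s → HasDerivAt (fun s : ℝ =>
      (s : ℂ) * ce (τ * Real.log s) / (1 + Complex.I * τ)) (ce (τ * Real.log s)) s :=
    fun s hs => by
    have d1 : HasDerivAt (fun s : ℝ => (s : ℂ)) 1 s := Complex.ofRealCLM.hasDerivAt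
    have d2 := (((Real.hasDerivAt_log hs.ne').const_mul τ).ofReal_comp.const_mul
      Complex.I).cexp
    have d3 := (d1.mul d2).div_const (1 + Complex.I * τ)
    refine HasDerivAt.congr_deriv d3 ?_
    have : (s : ℂ) ≠ 0 := by exact_mod_cast hs.ne'
    unfold ce
    push_cast
    field_simp
  have := norm_image_sub_le_of_norm_deriv_le_segment' (a := x) (b := x + β) (C := 1)
    (fun s hs => (hd s (by linarith [hs.1])).hasDerivWithinAt)
    (fun s _ => (norm_ce _).le) (x + β) ⟨by linarith, le_rfl⟩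
  simpa using this

/-- Twisted sums with a root of unity whose powers add up to zero. -/
lemma Twist_head (E : ℕ) : ∃ c : ℝ, 0 < c ∧ ∃ C : ℝ, 0 ≤ C ∧ ∀ (q : ℕ) (ζ : ℂ), 1 ≤ q →
    ‖ζ‖ = 1 → ζ ^ q = 1 → ∑ a ∈ range q, ζ ^ a = 0 → ∀ A : ℝ, 1 ≤ A → ∀ τ : ℝ, |τ| ≤ A ^ E →
      ∀ y : ℕ, (y : ℝ) ≤ A →
        ‖∑ n ∈ Icc 1 y, ζ ^ n * nit n τ‖ ≤ q * (C * A ^ (1 - c) + 4) := by
  obtain ⟨c, hc, C, hC⟩ := exp_sum_log E
  refine ⟨c, hc, |C|, abs_nonneg C, fun q ζ hq hζ hζq hsum A hA τ hτ y hy => ?_⟩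
  have hq' : (0 : ℝ) < q := by exact_mod_cast hq
  have hq1 : (1 : ℝ) ≤ q := by exact_mod_cast hq
  set f : ℕ → ℂ := fun n => ζ ^ n * nit n τ with hf
  have hf1 : ∀ n, ‖f n‖ ≤ 1 := fun n => by
    rw [hf]; simp only [norm_mul, norm_pow, hζ, norm_nit, one_pow, mul_one, le_refl]
  set M := y / q with hM
  have hMy : (M : ℝ) ≤ A := le_trans (by exact_mod_cast Nat.div_le_self y q) hy
  set G : ℂ := ((M : ℝ) : ℂ) * ce (τ * Real.log M) / (1 + Complex.I * τ) with hG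
  have hA' : ∀ a ∈ range q, ‖∑ m ∈ range M, f (q * (m + 1) + a) - ζ ^ a * (nit q τ * G)‖
      ≤ |C| * A ^ (1 - c) + 1 := by
    intro a ha
    have haq : (a : ℝ) ≤ q := by exact_mod_cast (mem_range.1 ha).le
    have hβ1 : (a : ℝ) / q ≤ 1 := (div_le_one hq').2 haq
    have h1 := hC A hA (a / q) (by positivity) hβ1 τ hτ M hMy
    have h2 : ∑ m ∈ range M, f (q * (m + 1) + a) = ζ ^ a * (nit q τ *
        ∑ m ∈ Icc 1 M, Complex.exp (Complex.I * ((τ * Real.log (m + a / q) : ℝ) : ℂ))) := by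
      have h := lb_sum_Icc_add
        (fun m => Complex.exp (Complex.I * ((τ * Real.log (m + a / q) : ℝ) : ℂ))) 0 M
      simp only [add_zero] at h
      rw [h]
      simp only [show Icc 1 0 = (∅ : Finset ℕ) by simp, sum_empty, zero_add, mul_sum]
      refine sum_congr rfl fun m _ => ?_
      have e1 : ζ ^ (q * (m + 1) + a) = ζ ^ a := by
        rw [pow_add, pow_mul, hζq, one_pow, one_mul]
      have e2 : Real.log ((q * (m + 1) + a : ℕ) : ℝ)
          = Real.log q + Real.log (((m + 1 : ℕ) : ℝ) + a / q) := by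
        rw [← Real.log_mul hq'.ne' (by positivity)]
        congr 1
        push_cast
        field_simp
      rw [hf]
      simp only [e1, nit, e2]
      rw [← Complex.exp_add]
      congr 2
      push_cast
      ring
    have h3 := Twist_lip τ M (a / q) (Nat.cast_nonneg _) (by positivity)
    have h5 : C * A ^ (1 - c) ≤ |C| * A ^ (1 - c) :=
      mul_le_mul_of_nonneg_right (le_abs_self C) (by positivity)
    rw [h2, ← mul_sub, ← mul_sub, norm_mul, norm_mul, norm_pow, hζ, one_pow, norm_nit, one_mul,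
      one_mul]
    refine (norm_sub_le_norm_sub_add_norm_sub _ _ _).trans (add_le_add (h1.trans h5) ?_)
    exact h3.trans hβ1
  have hB : ‖∑ m ∈ range M, ∑ a ∈ range q, f (q * (m + 1) + a)‖
      ≤ q * (|C| * A ^ (1 - c) + 1) := by
    have e : ∑ m ∈ range M, ∑ a ∈ range q, f (q * (m + 1) + a) =
        ∑ a ∈ range q, (∑ m ∈ range M, f (q * (m + 1) + a) - ζ ^ a * (nit q τ * G)) := by
      rw [sum_sub_distrib, ← sum_mul, hsum, zero_mul, sub_zero, sum_comm]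
    rw [e]
    refine (norm_sum_le _ _).trans ((sum_le_card_nsmul _ _ _ hA').trans ?_)
    rw [card_range, nsmul_eq_mul]
  obtain ⟨k, hk, hkq⟩ : ∃ k, q * (M + 1) = y + 1 + k ∧ k ≤ q := by
    have h1 : q * M + y % q = y := Nat.div_add_mod y q
    have h2 : y % q < q := Nat.mod_lt y hq
    exact ⟨q - 1 - y % q, by rw [mul_add_one]; omega, by omega⟩
  have h1 := lb_sum_range_mul f q (M + 1)
  rw [hk, sum_range_add, sum_range_succ', sum_range_succ'] at h1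
  have h2 := lb_sum_Icc_add f 0 y
  simp only [add_zero, show Icc 1 0 = (∅ : Finset ℕ) by simp, sum_empty, zero_add] at h2
  have h3 : ∑ n ∈ Icc 1 y, f n = ∑ m ∈ range M, ∑ a ∈ range q, f (q * (m + 1) + a)
      + ∑ a ∈ range q, f (q * 0 + a) - f 0 - ∑ n ∈ range k, f (y + 1 + n) := by
    rw [h2, ← h1]; ring
  have h4 := lb_norm_sum_range_le (f := fun a => f (q * 0 + a)) (fun n => hf1 _) q
  have h5 := lb_norm_sum_range_le (f := fun n => f (y + 1 + n)) (fun n => hf1 _) k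
  have h6 : (k : ℝ) ≤ q := by exact_mod_cast hkq
  have h7 : ‖∑ n ∈ Icc 1 y, f n‖ ≤ q * (|C| * A ^ (1 - c) + 1) + q + 1 + q := by
    rw [h3]
    refine (norm_sub_le _ _).trans (add_le_add ((norm_sub_le _ _).trans (add_le_add
      ((norm_add_le _ _).trans (add_le_add hB h4)) (hf1 0))) (h5.trans h6))
  refine h7.trans ?_
  nlinarith

/-- Split `Icc 1 y` into classes `c` modulo `q`, `K = q m + c`; `exp_sum_log` (Lib/MR/Vdc) with
`β = c / q`, `A = K2`. The main terms `v ^ (1 + i u) / (1 + i u)`, `v ∈ (y / q - 1, y / q]`, differ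
from the one at `y / q` by at most `1`, and `∑ c, e(b c / q) = 0`. -/
theorem DP_twist (E : ℕ) : ∃ c : ℝ, 0 < c ∧ ∃ C : ℝ, 0 ≤ C ∧ ∀ q b K1 K2 : ℕ, 1 ≤ q → ¬ q ∣ b →
    1 ≤ K1 → K1 ≤ K2 → K2 ≤ 2 * K1 → ∀ u : ℝ, |u| ≤ (K1 : ℝ) ^ E →
      ‖DP (Ioc K1 K2) (fun K => Complex.exp (((2 * Real.pi * b * K / q : ℝ) : ℂ) * Complex.I)) u‖
        ≤ C * q * (1 + K1 * (K1 : ℝ) ^ (-c)) := by
  obtain ⟨c, hc, C, hC0, hC⟩ := Twist_head E
  refine ⟨c, hc, 4 * C + 8, by positivity, fun q b K1 K2 hq hb h1 h12 h2 u hu => ?_⟩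
  have hq' : (0 : ℝ) < q := by exact_mod_cast hq
  have hqc : (q : ℂ) ≠ 0 := by exact_mod_cast hq'.ne'
  have hK : (1 : ℝ) ≤ K1 := by exact_mod_cast h1
  set ζ : ℂ := Complex.exp (((2 * Real.pi * b / q : ℝ) : ℂ) * Complex.I) with hζ
  have e1 : ∀ K : ℕ,
      Complex.exp (((2 * Real.pi * b * K / q : ℝ) : ℂ) * Complex.I) = ζ ^ K := fun K => by
    rw [hζ, ← Complex.exp_nat_mul]
    congr 1
    push_cast
    ring
  have e2 : ‖ζ‖ = 1 := Complex.norm_exp_ofReal_mul_I _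
  have e3 : ζ ^ q = 1 := by
    rw [← e1, ← Complex.exp_nat_mul_two_pi_mul_I b]
    congr 1
    push_cast
    field_simp
  have e4 : ζ ≠ 1 := fun h => by
    obtain ⟨n, hn⟩ := Complex.exp_eq_one_iff.1 h
    have hp : (2 * Real.pi * Complex.I : ℂ) ≠ 0 := Complex.two_pi_I_ne_zero
    have h3 : (b : ℂ) = q * n := by
      refine mul_right_cancel₀ hp ?_
      rw [mul_assoc (q : ℂ), ← hn]
      push_cast
      field_simp
    have h4 : (b : ℤ) = q * n := by exact_mod_cast h3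
    exact hb (Int.natCast_dvd_natCast.1 ⟨n, h4⟩)
  have e5 : ∑ a ∈ range q, ζ ^ a = 0 := by
    rw [geom_sum_eq e4, e3, sub_self, zero_div]
  have hA : (1 : ℝ) ≤ 2 * K1 := by linarith
  have hu' : |u| ≤ (2 * (K1 : ℝ)) ^ E :=
    hu.trans (pow_le_pow_left₀ (by positivity) (by linarith) E)
  have s1 := hC q ζ hq e2 e3 e5 _ hA u hu' K1 (by linarith)
  have s2 := hC q ζ hq e2 e3 e5 _ hA u hu' K2 (by exact_mod_cast h2)
  have e6 : DP (Ioc K1 K2)
      (fun K => Complex.exp (((2 * Real.pi * b * K / q : ℝ) : ℂ) * Complex.I)) u =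
      ∑ n ∈ Icc 1 K2, ζ ^ n * nit n u - ∑ n ∈ Icc 1 K1, ζ ^ n * nit n u := by
    have e : Icc 1 K2 = Icc 1 K1 ∪ Ioc K1 K2 := by
      ext n; simp only [mem_Icc, mem_union, mem_Ioc]; omega
    rw [e, sum_union, add_sub_cancel_left, DP]
    · exact sum_congr rfl fun n _ => by rw [e1]
    · rw [disjoint_left]; intro n h3 h4
      simp only [mem_Icc, mem_Ioc] at h3 h4; omega
  have e7 : (2 * (K1 : ℝ)) ^ (1 - c) ≤ 2 * (K1 * (K1 : ℝ) ^ (-c)) := by
    rw [sub_eq_add_neg, Real.rpow_add (by positivity), Real.rpow_one, mul_assoc]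
    have h3 : (2 * (K1 : ℝ)) ^ (-c) ≤ (K1 : ℝ) ^ (-c) :=
      Real.rpow_le_rpow_of_nonpos (by positivity) (by linarith) (by linarith)
    exact mul_le_mul_of_nonneg_left (mul_le_mul_of_nonneg_left h3 (by positivity)) (by norm_num)
  have hP : 0 ≤ K1 * (K1 : ℝ) ^ (-c) := by positivity
  rw [e6]
  refine (norm_sub_le _ _).trans ((add_le_add s2 s1).trans ?_)
  have e8 := mul_le_mul_of_nonneg_left e7 hC0
  generalize K1 * (K1 : ℝ) ^ (-c) = P at *
  generalize (2 * (K1 : ℝ)) ^ (1 - c) = R at *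
  have e9 : 2 * (C * R + 4) ≤ (4 * C + 8) * (1 + P) := by nlinarith [mul_nonneg hC0 hP]
  nlinarith [mul_le_mul_of_nonneg_left e9 hq'.le]

/-- The coefficients of the product. -/
noncomputable def Twist_co (K1 w N : ℕ) (ψ : ℕ → ℂ) (b : ℕ → ℝ) (n : ℕ) : ℂ :=
  ∑ K ∈ Ioc K1 (K1 + w), ∑ m ∈ (Icc 1 N).filter (fun m => K * m = n), ψ K * (b m : ℂ)

lemma Twist_co_sum (K1 w N : ℕ) (ψ : ℕ → ℂ) (b : ℕ → ℝ) (S : Finset ℕ) (F : ℕ → ℂ) :
    ∑ n ∈ S, Twist_co K1 w N ψ b n * F n = ∑ K ∈ Ioc K1 (K1 + w), ψ K *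
      ∑ m ∈ (Icc 1 N).filter (fun m => K * m ∈ S), (b m : ℂ) * F (K * m) := by
  simp only [Twist_co, sum_mul]
  rw [sum_comm]
  refine sum_congr rfl fun K _ => ?_
  rw [mul_sum, ← sum_fiberwise_of_maps_to (s := (Icc 1 N).filter (fun m => K * m ∈ S)) (t := S)
    (g := fun m => K * m) (fun m hm => (mem_filter.1 hm).2)]
  refine sum_congr rfl fun n hn => ?_
  have e : ((Icc 1 N).filter (fun m => K * m ∈ S)).filter (fun m => K * m = n) =
      (Icc 1 N).filter (fun m => K * m = n) := by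
    ext m
    simp only [mem_filter]
    exact ⟨fun h => ⟨h.1.1, h.2⟩, fun h => ⟨⟨h.1, h.2 ▸ hn⟩, h.2⟩⟩
  rw [e]
  refine sum_congr rfl fun m hm => ?_
  rw [(mem_filter.1 hm).2, mul_assoc]

lemma Twist_pow_sum {T : ℝ} (hT : 0 < T) (J : ℕ) :
    ∑ i ∈ Icc 1 J, ((i : ℝ) / J) ^ T ≤ 1 + J / T := by
  have h := norm_smo_le (a := fun _ => 1) (fun _ => by simp) hT J
  have e : smo (fun _ => 1) T J = ((∑ i ∈ Icc 1 J, ((i : ℝ) / J) ^ T : ℝ) : ℂ) := by
    simp only [smo, one_mul, Complex.ofReal_sum]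
  rw [e, Complex.norm_real] at h
  exact (le_abs_self _).trans h

lemma Twist_smo {K1 w N : ℕ} {ψ : ℕ → ℂ} {b : ℕ → ℝ} (h1 : 1 ≤ K1) (hN : 1 ≤ N)
    (hψ : ∀ K, ‖ψ K‖ ≤ 1) (hb : ∀ m, |b m| ≤ 1) {j : ℕ} (hj : j ≤ 3 * (K1 * N)) :
    ‖smo (Twist_co K1 w N ψ b) N j‖ ≤ 4 * w := by
  have hN' : (0 : ℝ) < N := by exact_mod_cast hN
  rw [smo, Twist_co_sum K1 w N ψ b (Icc 1 j) (fun i => ((((i : ℝ) / j) ^ (N : ℝ) : ℝ) : ℂ))]
  refine (norm_sum_le _ _).trans ((sum_le_card_nsmul _ _ 4 fun K hK => ?_).trans ?_)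
  · obtain ⟨hK1, -⟩ := mem_Ioc.1 hK
    have hK0 : 0 < K := by omega
    rw [norm_mul]
    refine (mul_le_of_le_one_left (norm_nonneg _) (hψ K)).trans ((norm_sum_le _ _).trans ?_)
    have hJ : K * (j / K) ≤ j := Nat.mul_div_le j K
    have hJ3 : j / K ≤ 3 * N := by
      refine Nat.div_le_of_le_mul (hj.trans ?_)
      calc 3 * (K1 * N) = K1 * (3 * N) := by ring
        _ ≤ K * (3 * N) := Nat.mul_le_mul_right _ hK1.le
    calc _ ≤ ∑ m ∈ (Icc 1 N).filter (fun m => K * m ∈ Icc 1 j),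
          ((m : ℝ) / ((j / K : ℕ) : ℝ)) ^ (N : ℝ) := sum_le_sum fun m hm => by
          obtain ⟨hm1, hm2⟩ := mem_filter.1 hm
          obtain ⟨hm3, hm4⟩ := mem_Icc.1 hm2
          have hm5 : m ≤ j / K := (Nat.le_div_iff_mul_le hK0).2 (by rwa [mul_comm])
          have hm6 : (0 : ℝ) < ((j / K : ℕ) : ℝ) := by
            exact_mod_cast lt_of_lt_of_le (mem_Icc.1 hm1).1 hm5
          have hj0 : (0 : ℝ) < j := by exact_mod_cast lt_of_lt_of_le hm3 hm4
          rw [norm_mul, Complex.norm_real, Complex.norm_real, Real.norm_eq_abs,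
            Real.norm_of_nonneg (by positivity)]
          refine (mul_le_of_le_one_left (by positivity) (hb m)).trans ?_
          refine Real.rpow_le_rpow (by positivity) ?_ hN'.le
          rw [div_le_div_iff₀ hj0 hm6]
          have : K * m * (j / K) ≤ m * j := by
            calc K * m * (j / K) = m * (K * (j / K)) := by ring
              _ ≤ m * j := Nat.mul_le_mul_left _ hJ
          exact_mod_cast this
      _ ≤ ∑ m ∈ Icc 1 (j / K), ((m : ℝ) / ((j / K : ℕ) : ℝ)) ^ (N : ℝ) := by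
          refine sum_le_sum_of_subset_of_nonneg (fun m hm => ?_) fun m _ _ => by positivity
          obtain ⟨hm1, hm2⟩ := mem_filter.1 hm
          exact mem_Icc.2 ⟨(mem_Icc.1 hm1).1,
            (Nat.le_div_iff_mul_le hK0).2 (by rw [mul_comm]; exact (mem_Icc.1 hm2).2)⟩
      _ ≤ 1 + ((j / K : ℕ) : ℝ) / N := Twist_pow_sum hN' _
      _ ≤ 4 := by
          have : ((j / K : ℕ) : ℝ) / N ≤ 3 := by
            rw [div_le_iff₀ hN']; exact_mod_cast hJ3
          linarith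
  · rw [Nat.card_Ioc, Nat.add_sub_cancel_left, nsmul_eq_mul, mul_comm]

/-- As `avg` in `P/Avg` with coefficients `ψ K` of norm at most one: `short_le_MS'` with
`T = N`, `X' = K2 N`, smoothed sums at most `4 (K2 - K1)`, `mean_value` on `|u| ≤ Y`,
`cm_tail` beyond. -/
theorem avg_tw : ∃ C : ℝ, 0 ≤ C ∧ ∀ (K1 w N x₀ X H : ℕ) (ψ : ℕ → ℂ) (b : ℕ → ℝ) (Δ Y : ℝ),
    1 ≤ K1 → w ≤ K1 → 1 ≤ x₀ → 1 ≤ N → X + H ≤ K1 * N → (∀ K, ‖ψ K‖ ≤ 1) → (∀ m, |b m| ≤ 1) →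
      0 < Y → (∀ u : ℝ, |u| ≤ Y → ‖DP (Ioc K1 (K1 + w)) ψ u‖ ≤ Δ) →
      ∑ n ∈ Icc x₀ X, ‖∑ K ∈ Ioc K1 (K1 + w), ψ K *
          ∑ m ∈ (Icc 1 N).filter (fun m => n < K * m ∧ K * m ≤ n + H), (b m : ℂ)‖ ^ 2 ≤
        C * (H : ℝ) ^ 2 / x₀ * (Δ ^ 2 * (N : ℝ) ^ 2 + (w : ℝ) ^ 2 * (N : ℝ) ^ 4 / Y) +
          C * K1 * N * (w : ℝ) ^ 2 := by
  refine ⟨256, by norm_num,
    fun K1 w N x₀ X H ψ b Δ Y h1 hw hx hN hXH hψ hb hY hΔ => ?_⟩
  have hπ := Real.pi_gt_three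
  have hN' : (0 : ℝ) < N := by exact_mod_cast hN
  have hx' : (0 : ℝ) < x₀ := by exact_mod_cast hx
  set a := Twist_co K1 w N ψ b with ha
  have hle : K1 * N ≤ (K1 + w) * N := Nat.mul_le_mul_right _ (by omega)
  have hle2 : (K1 + w) * N ≤ 2 * (K1 * N) := by
    rw [← mul_assoc]; exact Nat.mul_le_mul_right _ (by omega)
  have hs := short_le_MS' (a := a) (B := 4 * w) hN' hx ((K1 + w) * N) H
    (fun j hj => Twist_smo h1 hN hψ hb (by omega))
  have e1 : ∀ n : ℕ, ∑ K ∈ Ioc K1 (K1 + w), ψ K *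
      ∑ m ∈ (Icc 1 N).filter (fun m => n < K * m ∧ K * m ≤ n + H), (b m : ℂ) =
      ∑ j ∈ range H, a (n + 1 + j) := fun n => by
    have h := Twist_co_sum K1 w N ψ b (Ioc n (n + H)) (fun _ => 1)
    simp only [mul_one, mem_Ioc] at h
    rw [← h, ← Ico_add_one_add_one_eq_Ioc, sum_Ico_eq_sum_range,
      show n + H + 1 - (n + 1) = H by omega]
  have e2 : DP (Icc 1 ((K1 + w) * N + H)) a =
      fun u => DP (Ioc K1 (K1 + w)) ψ u * DP (Icc 1 N) (fun m => (b m : ℂ)) u := by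
    funext u
    rw [DP, Twist_co_sum K1 w N ψ b _ (fun n => nit n u), DP, sum_mul]
    refine sum_congr rfl fun K hK => ?_
    obtain ⟨hK1, hK2⟩ := mem_Ioc.1 hK
    rw [filter_true_of_mem, DP, mul_assoc, mul_sum _ _ (nit K u)]
    · congr 1
      refine sum_congr rfl fun m hm => ?_
      rw [nit_mul (by omega) (by have := (mem_Icc.1 hm).1; omega)]
      ring
    · intro m hm
      obtain ⟨hm1, hm2⟩ := mem_Icc.1 hm
      refine mem_Icc.2 ⟨Nat.mul_pos (by omega) hm1, ?_⟩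
      exact (Nat.mul_le_mul hK2 hm2).trans (Nat.le_add_right _ _)
  have hb' : ∀ m, ‖(b m : ℂ)‖ ≤ 1 := fun m => by
    rw [Complex.norm_real]; exact hb m
  have tG := Trig.DP (Icc 1 N) (fun m => (b m : ℂ))
  have tF := (Trig.DP (Ioc K1 (K1 + w)) ψ).mul tG
  have m1 : MS N Set.univ (DP (Icc 1 N) (fun m => (b m : ℂ))) ≤ Real.pi * (3 * (N : ℝ) ^ 2) := by
    refine (mean_value (Subset.refl _) _ hN').trans ?_
    have : ∑ n ∈ Icc 1 N, ‖(b n : ℂ)‖ ^ 2 ≤ N := by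
      refine (sum_le_card_nsmul _ _ 1 fun n _ => pow_le_one₀ (norm_nonneg _) (hb' n)).trans ?_
      simp
    calc _ ≤ Real.pi * (N + 2 * N) * N := by gcongr
      _ = _ := by ring
  have m2 : MS N {u : ℝ | |u| ≤ Y}
      (fun u => DP (Ioc K1 (K1 + w)) ψ u * DP (Icc 1 N) (fun m => (b m : ℂ)) u) ≤
      Δ ^ 2 * (Real.pi * (3 * (N : ℝ) ^ 2)) := by
    refine (MS_le_of_le tF tG N (measurableSet_le (by fun_prop) measurable_const) (c := Δ)
      fun u hu => ?_).trans ?_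
    · rw [norm_mul]
      exact mul_le_mul_of_nonneg_right (hΔ u hu) (norm_nonneg _)
    · exact mul_le_mul_of_nonneg_left ((MS_mono tG N (Set.subset_univ _)).trans m1) (sq_nonneg _)
  have m3 : MS N {u : ℝ | Y < |u|}
      (fun u => DP (Ioc K1 (K1 + w)) ψ u * DP (Icc 1 N) (fun m => (b m : ℂ)) u) ≤
      ((w : ℝ) * N) ^ 2 * (2 * (N : ℝ) ^ 2 / Y) := by
    refine (MS_le_const tF N (measurableSet_lt measurable_const (by fun_prop)) (c := w * N)
      fun u _ => ?_).trans (mul_le_mul_of_nonneg_left (cm_tail N hY) (sq_nonneg _))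
    have a1 := norm_DP_le_card (Ioc K1 (K1 + w)) hψ u
    have a2 := norm_DP_le_card (Icc 1 N) hb' u
    rw [Nat.card_Ioc, Nat.add_sub_cancel_left] at a1
    rw [Nat.card_Icc, Nat.add_sub_cancel] at a2
    rw [norm_mul]
    exact mul_le_mul a1 a2 (norm_nonneg _) (Nat.cast_nonneg _)
  have m4 : MS N Set.univ (DP (Icc 1 ((K1 + w) * N + H)) a) ≤
      Real.pi * (128 * (Δ ^ 2 * (N : ℝ) ^ 2 + (w : ℝ) ^ 2 * (N : ℝ) ^ 4 / Y)) := by
    have e : (Set.univ : Set ℝ) = {u : ℝ | |u| ≤ Y} ∪ {u : ℝ | Y < |u|} := by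
      ext u; simp only [Set.mem_univ, Set.mem_union, Set.mem_ofPred_eq, true_iff]; exact le_or_gt _ _
    rw [e2, e]
    refine (MS_union_le tF N _ _).trans ((add_le_add m2 m3).trans ?_)
    have e3 : ((w : ℝ) * N) ^ 2 * (2 * (N : ℝ) ^ 2 / Y) = 2 * ((w : ℝ) ^ 2 * (N : ℝ) ^ 4 / Y) := by
      ring
    have p1 : 0 ≤ Δ ^ 2 * (N : ℝ) ^ 2 := by positivity
    have p2 : 0 ≤ (w : ℝ) ^ 2 * (N : ℝ) ^ 4 / Y := by positivity
    have e4 : Δ ^ 2 * (Real.pi * (3 * (N : ℝ) ^ 2)) = 3 * (Real.pi * (Δ ^ 2 * (N : ℝ) ^ 2)) := by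
      ring
    rw [e3, e4]
    generalize Δ ^ 2 * (N : ℝ) ^ 2 = P at *
    generalize (w : ℝ) ^ 2 * (N : ℝ) ^ 4 / Y = R at *
    nlinarith
  simp only [e1]
  refine (sum_le_sum_of_subset_of_nonneg (Icc_subset_Icc_right (b₂ := (K1 + w) * N) (by omega))
    fun _ _ _ => by positivity).trans (hs.trans (add_le_add ?_ ?_))
  · refine (mul_le_mul_of_nonneg_left m4 (by positivity)).trans (le_of_eq ?_)
    field_simp
    ring
  · have : (((K1 + w) * N : ℕ) : ℝ) ≤ 2 * (K1 * N) := by exact_mod_cast hle2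
    calc _ ≤ 8 * (2 * ((K1 : ℝ) * N)) * (4 * (w : ℝ)) ^ 2 := by gcongr
      _ = _ := by ring

end Pool.Agent.Work.MP_9a1701_nt.P
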